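import Pool.Agent.U167.LP.Inf

/-!
Arms near the axis: the bound for the difference close to the axis.
-/

set_option maxHeartbeats 1000000

namespace Pool.Agent.U167.LP

open H974 H731C H985LC Finset Pool.Agent.U167.HP MeasureTheory

/-- Two independent local events. -/
theorem le2 {E : Set (sqLattice.edgeSet → Bool)} {A1 A2 : Finset Edg} (h12 : Disjoint A1 A2)
    (E1 E2 : Finset Edg → Prop) (h1 : ∀ ω ∈ E, E1 (FF A1 ω)) (h2 : ∀ ω ∈ E, E2 (FF A2 ω)) :
    (bondLaw half).real E ≤ P2 A1 E1 * P2 A2 E2 := by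
  have h3 := indep3 h12 (Finset.disjoint_empty_right A1) (Finset.disjoint_empty_right A2) E1 E2
    (fun _ => True)
  have h4 : (bondLaw half).real E ≤
      (bondLaw half).real {ω | E1 (FF A1 ω) ∧ E2 (FF A2 ω) ∧ True} := by
    apply measureReal_mono
    · intro ω hω
      exact ⟨h1 ω hω, h2 ω hω, trivial⟩
    · exact measure_ne_top _ _
  rw [h3] at h4
  refine h4.trans ?_
  have h5 : P2 ∅ (fun _ => True) ≤ 1 := Pr_le_one okhalf2 _ _
  have h6 : 0 ≤ P2 A1 E1 := Pr_nonneg okhalf2 _ _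
  have h7 : 0 ≤ P2 A2 E2 := Pr_nonneg okhalf2 _ _
  exact mul_le_mul_of_nonneg_left (mul_le_of_le_one_right h7 h5) h6

/-- The open arm below a face which is enclosed and which is to the right of the start. -/
theorem arm_right {x y m n : ℤ} {ω : sqLattice.edgeSet → Bool} (h : Lft 0 (x, y) (opn ω))
    (hm : y + 1 ≤ m) (hmn : m ≤ n) (hn : n ≤ x) (hn1 : 1 ≤ n) {S : Finset Edg}
    (hS : RE (x - n) (x + n) 0 (0 + n) \ RE (x - m) (x + m) 0 (0 + m) ⊆ S) :
    HA x 0 m n (FF S ω) := by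
  obtain ⟨s, j, hs, hj0, hj, hr⟩ := h.hit (by show (0:ℤ) ≤ x; omega)
  simp only at hj hr
  obtain ⟨w, hw1, hw2, hw3⟩ := first_exit (a := x - n) (b := x + n) (c := -1) (d := n)
    (u := (x, j)) (v := (s, 0)) (G := opn ω ∩ up)
    ⟨⟨by show x - n ≤ x; omega, by show x ≤ x + n; omega⟩, by show (-1:ℤ) ≤ j; omega,
      by show j ≤ n; omega⟩ hr.symm (by
      show s ≤ x - n ∨ _
      omega)
  have hw4 : Reach (opn ω ∩ ↑(RE (x - n) (x + n) 0 (0 + n))) (x, j) w := by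
    refine hw3.mono ?_
    rintro ⟨x, y, _ | _⟩ ⟨⟨h1, h2⟩, h3⟩
    · refine ⟨h1, ?_⟩
      have h2' : 0 ≤ y := h2
      rw [mem_coe, mem_RE_false] at h3 ⊢
      omega
    · refine ⟨h1, ?_⟩
      have h2' : 0 ≤ y := h2
      rw [mem_coe, mem_RE_true] at h3 ⊢
      omega
  have hw5 : inR (x - n) (x + n) 0 (0 + n) w :=
    reach_inR (u := (x, j)) ⟨⟨by show x - n ≤ x; omega, by show x ≤ x + n; omega⟩, hj0,
      by show j ≤ 0 + n; omega⟩ hw4
  have hHA : HA x 0 m n (FF (RE (x - n) (x + n) 0 (0 + n)) ω) := by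
    refine ⟨(x, j), w, ⟨⟨by show x - m ≤ x; omega, by show x ≤ x + m; omega⟩, hj0,
      by show j ≤ 0 + m; omega⟩, ?_, ?_⟩
    · have := hw5.2.1
      unfold onH
      omega
    · rw [FF_coe, Set.inter_assoc, Set.inter_self]
      exact hw4
  have h2 := R752GL.UF.HA_loc hHA
  refine HA_incr (FF S ω) _ _ _ _ _ _ ?_ (Finset.Subset.refl _) h2
  intro e he
  rw [mem_inter, mem_FF] at he
  rw [mem_FF]
  exact ⟨hS he.2, he.1.2⟩

open Classical in
/-- The edges of a rectangle whose dual edges are in the half-annulus around the face `(z, -1)`. -/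
noncomputable def SG (A B D z m n : ℤ) : Finset Edg :=
  (RE A B 0 D).filter (fun e => dl e ∈ RE (z - n) (z + n) (-1) (-1 + n) \
    RE (z - m) (z + m) (-1) (-1 + m))

theorem mem_SG {A B D z m n : ℤ} {e : Edg} : e ∈ SG A B D z m n ↔ e ∈ RE A B 0 D ∧
    dl e ∈ RE (z - n) (z + n) (-1) (-1 + n) \ RE (z - m) (z + m) (-1) (-1 + m) := by
  unfold SG
  rw [Finset.mem_filter]

/-- The dual arm near a face which is not enclosed. -/
theorem arm_left {a x y m n : ℤ} {ω : sqLattice.edgeSet → Bool} (h : ¬ Lft a (x, y) (opn ω))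
    (hy : 0 ≤ y) (hm : y + 1 ≤ m) (hmn : 2 * m ≤ n) (hn : x - m + n + 2 ≤ a) :
    HA (x - m) (-1) (2 * m) n (dmp (SG (x - m - n - 2) (x - m + n + 2) (n + 2) (x - m) (2 * m) n \
      FF (SG (x - m - n - 2) (x - m + n + 2) (n + 2) (x - m) (2 * m) n) ω)) := by
  obtain ⟨A, hA⟩ : ∃ A, A = x - m - n - 2 := ⟨_, rfl⟩
  obtain ⟨B, hB⟩ : ∃ B, B = x - m + n + 2 := ⟨_, rfl⟩
  rw [← hA, ← hB]
  have hno : ¬ CN A (x - m) (x + m) B A B 0 (n + 2) (FF (RE A B 0 (n + 2)) ω \ HB x m) := by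
    rintro ⟨i, j, hi, hj, hr⟩
    apply h
    refine Lft_of_over (f := (x, y)) (s := i) (t := j) hy (by show i ≤ x; omega)
      (by show x < j; omega) (by omega) (hr.mono ?_)
    rintro e ⟨he1, he2⟩
    rw [mem_coe, mem_sdiff, mem_FF] at he1
    obtain ⟨⟨he3, he4⟩, he5⟩ := he1
    refine ⟨⟨he4, ?_⟩, ?_⟩
    · have := (RE_ends he3).1.2.1
      exact this
    · rintro ⟨d1, d2, d3, d4⟩
      apply he5
      obtain ⟨p, q, bo⟩ := e
      simp only at d1 d2 d3 d4
      subst d1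
      rw [mem_RE_true]
      omega
  have h1 := dual_arm (a := A) (b := x - m) (c := x + m) (d := B) (A := A) (B := B)
    (D := n + 2) (n := n) (F := FF (RE A B 0 (n + 2)) ω \ HB x m) (by omega) (by omega) (by omega)
    (by omega) (by omega) (by omega) (by omega) (by omega) (by omega) hno
  rw [show x + m - (x - m) = 2 * m by ring] at h1
  have h2 := R752GL.UF.HA_loc h1
  refine HA_incr (dmp (SG A B (n + 2) (x - m) (2 * m) n \
    FF (SG A B (n + 2) (x - m) (2 * m) n) ω)) _ _ _ _ _ _ ?_ (Finset.Subset.refl _) h2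
  intro e he
  rw [mem_inter, mem_dmp, mem_sdiff, mem_sdiff, mem_FF] at he
  obtain ⟨⟨he1, he2⟩, he3⟩ := he
  obtain ⟨e', rfl⟩ : ∃ e', e = dl e' := ⟨dl.symm e, (Equiv.apply_symm_apply _ _).symm⟩
  rw [Equiv.symm_apply_apply] at he1 he2
  have hnot : e' ∉ HB x m := by
    intro h3
    apply (mem_sdiff.1 he3).2
    obtain ⟨p, q, _ | _⟩ := e'
    · rw [mem_RE_false] at h3
      rw [dl_f, mem_RE_true]
      omega
    · rw [mem_RE_true] at h3
      rw [dl_t, mem_RE_false]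
      omega
  rw [mem_dmp, mem_sdiff, Equiv.symm_apply_apply, mem_SG, mem_FF]
  refine ⟨⟨he1, he3⟩, fun h => he2 ⟨⟨he1, h.2⟩, hnot⟩⟩

/-- The probability of the dual arm. -/
theorem pr_dual {A B D z m n : ℤ} {C2 : ℝ} (hC2 : 0 ≤ C2)
    (hHA : ∀ z t m n : ℤ, 1 ≤ m → m ≤ n → ∀ S : Finset Edg,
    RE (z - n) (z + n) t (t + n) ⊆ S → P2 S (HA z t m n) ≤ C2 * ((m : ℝ) / n) ^ ((1 : ℝ) / 3))
    (hm : 1 ≤ m) (hmn : m ≤ n) :
    P2 (SG A B D z m n) (fun F => HA z (-1) m n (dmp (SG A B D z m n \ F))) ≤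
      C2 * ((m : ℝ) / n) ^ ((1 : ℝ) / 3) := by
  rw [P2_dual]
  have h1 : P2 (dmp (SG A B D z m n)) (HA z (-1) m n) ≤
      P2 (dmp (SG A B D z m n) ∪ RE (z - n) (z + n) (-1) (-1 + n)) (HA z (-1) m n) :=
    Pr_mono_set okhalf2 Finset.subset_union_left (HA_incr _ _ _ _ _)
  exact h1.trans (hHA z (-1) m n hm hmn _ Finset.subset_union_right)

/-- Schramm's density up to constants. -/
noncomputable def wt (x y : ℤ) : ℝ :=
  1 / ((|x| : ℤ) + y + 1) * (((y : ℝ) + 1) / ((|x| : ℤ) + y + 1)) ^ ((1 : ℝ) / 3)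

theorem pos_den {x y : ℤ} (hy : 0 ≤ y) : (0:ℝ) < ((|x| : ℤ) : ℝ) + y + 1 := by
  have h1 : (0:ℝ) ≤ ((|x| : ℤ) : ℝ) := by exact_mod_cast abs_nonneg x
  have h2 : (0:ℝ) ≤ (y : ℝ) := by exact_mod_cast hy
  linarith

theorem wt_pos {x y : ℤ} (hy : 0 ≤ y) : 0 < wt x y := by
  have h1 := pos_den (x := x) hy
  have h2 : (0:ℝ) ≤ (y : ℝ) := by exact_mod_cast hy
  unfold wt
  positivity

/-- The bound for the difference. -/
theorem df_upper : ∃ C : ℝ, 0 < C ∧ ∀ x y : ℤ, 0 ≤ y → df x y ≤ C * wt x y := by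
  obtain ⟨C0, hC0, hdf⟩ := df_le
  obtain ⟨C1, hC1, hT⟩ := tip_bound
  obtain ⟨C2, hC2, hHA⟩ := HA_upper
  refine ⟨64 * C0 + 64 * C1 * C2, by positivity, ?_⟩
  intro x y hy
  have hden := pos_den (x := x) hy
  have hyR : (0:ℝ) ≤ (y : ℝ) := by exact_mod_cast hy
  have hax : (0:ℝ) ≤ ((|x| : ℤ) : ℝ) := by exact_mod_cast abs_nonneg x
  obtain ⟨Z, hZ⟩ : ∃ Z : ℝ, Z = (((y : ℝ) + 1) / ((|x| : ℤ) + y + 1)) ^ ((1 : ℝ) / 3) := ⟨_, rfl⟩
  have hZ0 : 0 < Z := by rw [hZ]; positivity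
  have hle1 : ((y : ℝ) + 1) / ((|x| : ℤ) + y + 1) ≤ 1 := (div_le_one hden).2 (by linarith)
  have hZl : ((y : ℝ) + 1) / ((|x| : ℤ) + y + 1) ≤ Z := by
    rw [hZ]
    exact U2_rpow (by positivity) hle1
  have hwt : wt x y = 1 / ((|x| : ℤ) + y + 1) * Z := by rw [hZ]; rfl
  rw [hwt]
  rcases le_or_gt |x| (16 * (y + 1)) with hs | hs
  · -- far from the axis
    have h1 := hdf x y hy
    have hn : (nm x y : ℝ) + 1 ≥ (((|x| : ℤ) : ℝ) + y + 1) / 2 := by
      have : |x| + y + 1 ≤ 2 * (nm x y + 1) := by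
        have h3 : |x| ≤ nm x y := le_max_left _ _
        have h4 : y ≤ nm x y := le_max_right _ _
        omega
      have h5 : ((|x| : ℤ) : ℝ) + y + 1 ≤ 2 * ((nm x y : ℝ) + 1) := by exact_mod_cast this
      linarith
    have h2 : df x y ≤ 2 * C0 / ((|x| : ℤ) + y + 1) := by
      refine h1.trans ?_
      rw [div_le_div_iff₀ (by linarith) hden]
      nlinarith
    have h3 : (1 : ℝ) / 32 ≤ Z := by
      refine le_trans ?_ hZl
      rw [div_le_div_iff₀ (by norm_num) hden]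
      have : ((|x| : ℤ) : ℝ) ≤ 16 * (y + 1) := by exact_mod_cast hs
      linarith
    calc df x y ≤ 2 * C0 / ((|x| : ℤ) + y + 1) := h2
      _ = 1 / ((|x| : ℤ) + y + 1) * (2 * C0) := by ring
      _ ≤ 1 / ((|x| : ℤ) + y + 1) * ((64 * C0 + 64 * C1 * C2) * Z) := by
          apply mul_le_mul_of_nonneg_left _ (by positivity)
          have : 0 ≤ C1 * C2 * Z := by positivity
          nlinarith
      _ = _ := by ring
  · -- near the axis
    have hx16 : 16 ≤ |x| := by omega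
    obtain ⟨m, hm⟩ : ∃ m, m = y + 1 := ⟨_, rfl⟩
    obtain ⟨n, hn⟩ : ∃ n, n = |x| / 2 := ⟨_, rfl⟩
    obtain ⟨r, hr⟩ : ∃ r, r = |x| / 4 := ⟨_, rfl⟩
    have hn0 : (0 : ℝ) < n := by exact_mod_cast (by omega : (0 : ℤ) < n)
    have hmR : (m : ℝ) = y + 1 := by rw [hm]; push_cast; ring
    have hnR : ((|x| : ℤ) : ℝ) + y + 1 ≤ 4 * n := by exact_mod_cast (by omega : |x| + y + 1 ≤ 4 * n)
    have hrow : ∀ k : ℝ, 0 ≤ k → k ≤ 2 → (k * (m : ℝ) / n) ^ ((1 : ℝ) / 3) ≤ 8 * Z := by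
      intro k hk hk2
      rw [hZ]
      have hmn : k * (m : ℝ) / n ≤ 8 * (((y : ℝ) + 1) / ((|x| : ℤ) + y + 1)) := by
        rw [hmR, mul_div_assoc', div_le_div_iff₀ hn0 hden]
        calc k * ((y : ℝ) + 1) * (((|x| : ℤ) : ℝ) + y + 1) ≤ (2 * (y + 1)) * (4 * n) :=
              mul_le_mul (by nlinarith) hnR hden.le (by positivity)
          _ = 8 * (y + 1) * n := by ring
      have hm0 : (0:ℝ) ≤ m := by rw [hmR]; linarith
      exact (Real.rpow_le_rpow (by positivity) hmn (by norm_num)).trans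
        (F_cube_le (by positivity) (by norm_num))
    have b1 := hT 0 |x| r (by omega) (by omega)
    have hxR : (0:ℝ) < ((|x| : ℤ) : ℝ) := by exact_mod_cast (by omega : (0:ℤ) < |x|)
    have b1' : P2 (HB 0 r) (fun F => 1 ≤ r → TL 0 r F) ≤ 2 * C1 * (1 / ((|x| : ℤ) + y + 1)) := by
      refine b1.trans ?_
      have h3 : ((|x| : ℤ) : ℝ) + y + 1 ≤ 2 * ((|x| : ℤ) : ℝ) := by
        exact_mod_cast (by omega : |x| + y + 1 ≤ 2 * |x|)
      rw [mul_one_div, div_le_div_iff₀ hxR hden]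
      nlinarith
    have fin : ∀ t : ℝ, 0 ≤ t → t ≤ C2 * (8 * Z) →
        P2 (HB 0 r) (fun F => 1 ≤ r → TL 0 r F) * t ≤
          (64 * C0 + 64 * C1 * C2) * (1 / ((|x| : ℤ) + y + 1) * Z) := by
      intro t ht0 ht
      calc P2 (HB 0 r) (fun F => 1 ≤ r → TL 0 r F) * t
          ≤ (2 * C1 * (1 / ((|x| : ℤ) + y + 1))) * (C2 * (8 * Z)) :=
            mul_le_mul b1' ht ht0 (by positivity)
        _ = 16 * C1 * C2 * (1 / ((|x| : ℤ) + y + 1) * Z) := by ring
        _ ≤ _ := by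
            apply mul_le_mul_of_nonneg_right _ (by positivity)
            nlinarith [mul_pos hC1 hC2]
    rcases le_or_gt 0 x with hx | hx
    · -- right
      have hxa : |x| = x := abs_of_nonneg hx
      obtain ⟨A2, hA2⟩ : ∃ A2, A2 = RE (x - n) (x + n) 0 (0 + n) \ RE (x - m) (x + m) 0 (0 + m) :=
        ⟨_, rfl⟩
      have hd : Disjoint (HB 0 r) A2 := by
        rw [Finset.disjoint_left]
        intro e he1 he2
        rw [hA2] at he2
        have g1 := (RE_ends he1).1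
        have g2 := (RE_ends (mem_sdiff.1 he2).1).1
        simp only [inR] at g1 g2
        omega
      have key := le2 (E := DE 0 (x, y)) hd (fun F => 1 ≤ r → TL 0 r F)
        (fun F => HA x 0 m n F)
        (fun ω hω _ => DE_tip (by omega) hy (by right; left; show 0 + r ≤ x; omega) hω)
        (fun ω hω => arm_right hω.1 (by omega) (by omega) (by omega) (by omega) (by rw [hA2]))
      refine key.trans (fin _ (Pr_nonneg okhalf2 _ _) ?_)
      have h1 : P2 A2 (HA x 0 m n) ≤ P2 (RE (x - n) (x + n) 0 (0 + n)) (HA x 0 m n) := by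
        rw [hA2]
        exact Pr_mono_set okhalf2 Finset.sdiff_subset (HA_incr _ _ _ _ _)
      have h2 := hHA x 0 m n (by omega) (by omega) (RE (x - n) (x + n) 0 (0 + n))
        (Finset.Subset.refl _)
      have h3 := hrow 1 (by norm_num) (by norm_num)
      rw [one_mul] at h3
      exact h1.trans (h2.trans (mul_le_mul_of_nonneg_left h3 hC2.le))
    · -- left
      have hxa : |x| = -x := abs_of_neg hx
      obtain ⟨A2, hA2⟩ : ∃ A2, A2 = SG (x - m - n - 2) (x - m + n + 2) (n + 2) (x - m) (2 * m) n :=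
        ⟨_, rfl⟩
      have hd : Disjoint (HB 0 r) A2 := by
        rw [Finset.disjoint_left]
        intro e he1 he2
        rw [hA2, mem_SG] at he2
        have g1 := (RE_ends he1).1
        have g2 := (RE_ends he2.1).1
        simp only [inR] at g1 g2
        omega
      have key := le2 (E := DE 0 (x, y)) hd (fun F => 1 ≤ r → TL 0 r F)
        (fun F => HA (x - m) (-1) (2 * m) n (dmp (A2 \ F)))
        (fun ω hω _ => DE_tip (by omega) hy (by left; show x < 0 - r; omega) hω)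
        (fun ω hω => by
          rw [hA2]
          exact arm_left hω.2 hy (by omega) (by omega) (by omega))
      refine key.trans (fin _ (Pr_nonneg okhalf2 _ _) ?_)
      have h2 := pr_dual (A := x - m - n - 2) (B := x - m + n + 2) (D := n + 2) (z := x - m)
        (m := 2 * m) (n := n) hC2.le hHA (by omega) (by omega)
      rw [← hA2] at h2
      have h3 := hrow 2 (by norm_num) (by norm_num)
      refine h2.trans (mul_le_mul_of_nonneg_left ?_ hC2.le)
      have e : (((2 * m : ℤ) : ℝ) / n) = 2 * (m : ℝ) / n := by push_cast; ring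
      rw [e]
      exact h3

end Pool.Agent.U167.LP
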