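import Pool.Agent.U167.LP.Arm

/-!
The probability near the axis: upper bounds.
-/

set_option maxHeartbeats 1000000

namespace Pool.Agent.U167.LP

open H974 H731C H985LC Finset Pool.Agent.U167.HP MeasureTheory

/-- The ratio. -/
noncomputable def rt (x y : ℤ) : ℝ := (((y : ℝ) + 1) / ((|x| : ℤ) + y + 1)) ^ ((1 : ℝ) / 3)

theorem rt_pos {x y : ℤ} (hy : 0 ≤ y) : 0 < rt x y := by
  have h1 := pos_den (x := x) hy
  have h2 : (0:ℝ) ≤ (y : ℝ) := by exact_mod_cast hy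
  unfold rt
  positivity

theorem rt_le {x y m n : ℤ} (hy : 0 ≤ y) (hm0 : 0 ≤ m) (hm : m ≤ 2 * (y + 1)) (hn : 1 ≤ n)
    (hxn : |x| + y + 1 ≤ 4 * n) : ((m : ℝ) / n) ^ ((1 : ℝ) / 3) ≤ 8 * rt x y := by
  have hden := pos_den (x := x) hy
  have hn0 : (0:ℝ) < n := by exact_mod_cast (by omega : (0:ℤ) < n)
  have hmn : (m : ℝ) / n ≤ 8 * (((y : ℝ) + 1) / ((|x| : ℤ) + y + 1)) := by
    rw [mul_div_assoc', div_le_div_iff₀ hn0 hden]
    have h1 : (m : ℝ) ≤ 2 * ((y : ℝ) + 1) := by exact_mod_cast hm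
    have h2 : ((|x| : ℤ) : ℝ) + y + 1 ≤ 4 * n := by exact_mod_cast hxn
    have h3 : (0:ℝ) ≤ (y:ℝ) := by exact_mod_cast hy
    calc (m : ℝ) * (((|x| : ℤ) : ℝ) + y + 1) ≤ (2 * (y + 1)) * (4 * n) :=
          mul_le_mul h1 h2 hden.le (by positivity)
      _ = 8 * (y + 1) * n := by ring
  have hm0' : (0:ℝ) ≤ m := by exact_mod_cast hm0
  have h3 : (0:ℝ) ≤ (y:ℝ) := by exact_mod_cast hy
  exact (Real.rpow_le_rpow (by positivity) hmn (by norm_num)).trans
    (F_cube_le (by positivity) (by norm_num))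

theorem rt_big {x y : ℤ} (hy : 0 ≤ y) (h : |x| ≤ 16 * (y + 1)) : 1 / 32 ≤ rt x y := by
  have hden := pos_den (x := x) hy
  have h3 : (0:ℝ) ≤ (y:ℝ) := by exact_mod_cast hy
  have h4 : (0:ℝ) ≤ ((|x| : ℤ) : ℝ) := by exact_mod_cast abs_nonneg x
  refine le_trans ?_ (U2_rpow (by positivity) ((div_le_one hden).2 (by linarith)))
  rw [div_le_div_iff₀ (by norm_num) hden]
  have : ((|x| : ℤ) : ℝ) ≤ 16 * (y + 1) := by exact_mod_cast h
  linarith

theorem sp_upper : ∃ C : ℝ, 0 < C ∧ ∀ x y : ℤ, 0 ≤ x → 0 ≤ y → sp x y ≤ C * rt x y := by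
  obtain ⟨C2, hC2, hHA⟩ := HA_upper
  refine ⟨8 * C2 + 32, by positivity, ?_⟩
  intro x y hx hy
  have hr := rt_pos (x := x) hy
  have hxa : |x| = x := abs_of_nonneg hx
  rcases le_or_gt |x| (16 * (y + 1)) with hs | hs
  · have h1 := sp_le_one x y
    have h2 := rt_big hy hs
    nlinarith
  · obtain ⟨A2, hA2⟩ : ∃ A2, A2 = RE (x - x) (x + x) 0 (0 + x) := ⟨_, rfl⟩
    have h0 : LE 0 (x, y) ⊆ {ω | HA x 0 (y + 1) x (FF A2 ω)} := fun ω hω =>
      arm_right hω le_rfl (by omega) le_rfl (by omega) (by rw [hA2]; exact Finset.sdiff_subset)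
    have h1 := measureReal_mono (μ := bondLaw half) h0 (measure_ne_top _ _)
    rw [real_event] at h1
    have h2 := hHA x 0 (y + 1) x (by omega) (by omega) A2 (by rw [hA2])
    have h3 := rt_le (x := x) (y := y) (m := y + 1) (n := x) hy (by omega) (by omega) (by omega)
      (by omega)
    have h4 : sp x y ≤ C2 * (8 * rt x y) :=
      h1.trans (h2.trans (mul_le_mul_of_nonneg_left h3 hC2.le))
    nlinarith

theorem one_sub_sp (x y : ℤ) : 1 - sp x y = (bondLaw half).real (LE 0 (x, y))ᶜ := by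
  rw [measureReal_compl (LE_meas _ _)]
  simp only [probReal_univ]
  rfl

theorem sp_upper' : ∃ C : ℝ, 0 < C ∧ ∀ x y : ℤ, x ≤ 0 → 0 ≤ y → 1 - sp x y ≤ C * rt x y := by
  obtain ⟨C2, hC2, hHA⟩ := HA_upper
  refine ⟨8 * C2 + 32, by positivity, ?_⟩
  intro x y hx hy
  have hr := rt_pos (x := x) hy
  have hxa : |x| = -x := abs_of_nonpos hx
  rcases le_or_gt |x| (16 * (y + 1)) with hs | hs
  · have h1 := sp_nonneg x y
    have h2 := rt_big hy hs
    nlinarith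
  · obtain ⟨m, hm⟩ : ∃ m, m = y + 1 := ⟨_, rfl⟩
    obtain ⟨n, hn⟩ : ∃ n, n = -x / 2 := ⟨_, rfl⟩
    obtain ⟨A2, hA2⟩ : ∃ A2, A2 = SG (x - m - n - 2) (x - m + n + 2) (n + 2) (x - m) (2 * m) n :=
      ⟨_, rfl⟩
    have h0 : (LE 0 (x, y))ᶜ ⊆ {ω | (fun F => HA (x - m) (-1) (2 * m) n (dmp (A2 \ F))) (FF A2 ω)} := by
      intro ω hω
      have := arm_left (a := 0) (x := x) (y := y) (m := m) (n := n) (ω := ω) hω hy (by omega)
        (by omega) (by omega)
      rw [← hA2] at this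
      exact this
    have h1 := measureReal_mono (μ := bondLaw half) h0 (measure_ne_top _ _)
    rw [real_event A2 (fun F => HA (x - m) (-1) (2 * m) n (dmp (A2 \ F))), ← one_sub_sp] at h1
    have h2 := pr_dual (A := x - m - n - 2) (B := x - m + n + 2) (D := n + 2) (z := x - m)
      (m := 2 * m) (n := n) hC2.le hHA (by omega) (by omega)
    rw [← hA2] at h2
    have h3 := rt_le (x := x) (y := y) (m := 2 * m) (n := n) hy (by omega) (by omega) (by omega)
      (by omega)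
    have h4 : 1 - sp x y ≤ C2 * (8 * rt x y) :=
      h1.trans (h2.trans (mul_le_mul_of_nonneg_left h3 hC2.le))
    nlinarith

end Pool.Agent.U167.LP
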