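import Pool.Agent.U167.LP.Open

/-!
The lower bound for the difference: the closed dual tube from the boundary to the face.
-/

set_option maxHeartbeats 1000000

namespace Pool.Agent.U167.LP

open H974 H731C H985LC Finset Pool.Agent.U167.HP MeasureTheory

/-- The dual tube. -/
noncomputable def TT (m y X1 X2 : ℤ) : Finset Edg :=
  VE 0 m (-1) (y + 2 * m) ∪ RE X1 X2 (y - 2 * m) (y + 2 * m)

/-- The connection in the dual tube. -/
def CloQ (m x y X1 X2 : ℤ) (H : Finset Edg) : Prop :=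
  ∃ p q, (0 ≤ p ∧ p ≤ m) ∧ (y - 2 * m ≤ q ∧ q ≤ y + 2 * m) ∧
    Reach ((↑H : Set Edg) ∩ ↑(TT m y X1 X2)) (p, -1) (x, q)

theorem CloQ.mono {m x y X1 X2 : ℤ} {H H' : Finset Edg} (h : H ⊆ H') (hQ : CloQ m x y X1 X2 H) :
    CloQ m x y X1 X2 H' := by
  obtain ⟨p, q, h1, h2, h3⟩ := hQ
  exact ⟨p, q, h1, h2, h3.mono (Set.inter_subset_inter_left _ (by exact_mod_cast h))⟩

theorem TBE_sub_VE {a b c d : ℤ} : TBE a b c d ⊆ VE a b c d := by
  rintro ⟨x, y, _ | _⟩ h
  · simp only [mem_VE_false, mem_TBE_false] at h ⊢; omega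
  · simp only [mem_VE_true, mem_TBE_true] at h ⊢; omega

theorem clo_of {m x y X1 X2 : ℤ} {H : Finset Edg} (hm : 1 ≤ m) (hy : 2 * m ≤ y) (h1 : X1 ≤ 0)
    (h2 : m ≤ X2) (hx1 : X1 ≤ x) (hx2 : x ≤ X2) (hTB : TBc 0 m (-1) (y + 2 * m) H)
    (hLR : LRc X1 X2 (y - 2 * m) (y + 2 * m) H) : CloQ m x y X1 X2 H := by
  obtain ⟨p, p', hp, hp', hr⟩ := hTB
  obtain ⟨q1, q1', hq, hq', hs⟩ := hLR
  have hTT1 : (↑(TBE 0 m (-1) (y + 2 * m)) : Set Edg) ⊆ ↑(TT m y X1 X2) := by
    intro e he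
    unfold TT
    rw [coe_union]
    left
    exact_mod_cast TBE_sub_VE (Finset.mem_coe.mp he)
  have hTT2 : (↑(LRE X1 X2 (y - 2 * m) (y + 2 * m)) : Set Edg) ⊆ ↑(TT m y X1 X2) := by
    intro e he
    unfold TT
    rw [coe_union]
    right
    exact_mod_cast LRE_subset_RE (Finset.mem_coe.mp he)
  have hr' : Reach (((↑H : Set Edg) ∩ ↑(TT m y X1 X2)) ∩ ↑(RE 0 m (-1) (y + 2 * m))) (p, -1)
      (p', y + 2 * m) := by
    refine hr.mono ?_
    rintro e ⟨e1, e2⟩
    exact ⟨⟨e1, hTT1 e2⟩, by exact_mod_cast TBE_subset_RE (Finset.mem_coe.mp e2)⟩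
  have hs' : Reach (((↑H : Set Edg) ∩ ↑(TT m y X1 X2)) ∩ ↑(RE X1 X2 (y - 2 * m) (y + 2 * m)))
      (X1, q1) (X2, q1') := by
    refine hs.mono ?_
    rintro e ⟨e1, e2⟩
    exact ⟨⟨e1, hTT2 e2⟩, by exact_mod_cast LRE_subset_RE (Finset.mem_coe.mp e2)⟩
  have c1 := cross_meet (F := (↑H : Set Edg) ∩ ↑(TT m y X1 X2)) (A := X1) (a := 0) (b := m)
    (B := X2) (C := -1) (c := y - 2 * m) (d := y + 2 * m) (D := y + 2 * m) h1 (by omega) h2
    (by omega) (by omega) le_rfl hs' h1 h2 hr' (by show (-1:ℤ) ≤ y - 2 * m; omega) le_rfl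
  obtain ⟨w, hw1, hw2, hw3⟩ := first_exit (a := X1 - 1) (b := x) (c := y - 2 * m - 1)
    (d := y + 2 * m + 1) (u := (X1, q1)) (v := (X2, q1'))
    ⟨⟨by show X1 - 1 ≤ X1; omega, by show X1 ≤ x; omega⟩, by show y - 2 * m - 1 ≤ q1; omega,
      by show q1 ≤ y + 2 * m + 1; omega⟩ hs' (by right; left; show x ≤ X2; omega)
  have hw4 : inR X1 X2 (y - 2 * m) (y + 2 * m) w := by
    refine reach_inR (G := (↑H : Set Edg) ∩ ↑(TT m y X1 X2)) (u := (X1, q1))
      ⟨⟨by show X1 ≤ X1; omega, by show X1 ≤ X2; omega⟩, hq⟩ (hw3.mono ?_)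
    exact Set.inter_subset_left
  have hwx : w = (x, w.2) := by
    have : w.1 = x := by
      unfold inR at hw4
      omega
    rw [← this]
  refine ⟨p, w.2, hp, hw4.2, ?_⟩
  rw [← hwx]
  refine (c1.mono Set.inter_subset_left).symm.trans (hw3.mono ?_)
  exact Set.inter_subset_left.trans Set.inter_subset_left

theorem pr_CloQ {m x y X1 X2 : ℤ} {K : ℕ} {S : Finset Edg} (hm : 1 ≤ m) (hy : 2 * m ≤ y)
    (h1 : X1 ≤ 0) (h2 : m ≤ X2) (hx1 : X1 ≤ x) (hx2 : x ≤ X2) (hS : TT m y X1 X2 ⊆ S)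
    (k1 : y + 2 * m + 1 ≤ K * m) (k2 : X2 - X1 ≤ K * m) :
    ((1/2:ℝ)^(48 * (K + 1)))^2 ≤ P2 S (CloQ m x y X1 X2) := by
  set P : ℝ := (1/2:ℝ)^(48 * (K + 1)) with hP
  have hP0 : 0 ≤ P := by positivity
  have s0 : TBE 0 m (-1) (y + 2 * m) ⊆ S := by
    intro e he
    apply hS
    unfold TT
    rw [Finset.mem_union]
    left
    exact TBE_sub_VE he
  have s1 : LRE X1 X2 (y - 2 * m) (y + 2 * m) ⊆ S := by
    intro e he
    apply hS
    unfold TT
    rw [Finset.mem_union]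
    right
    exact LRE_subset_RE he
  have e0 := pr_TBc (1/2) s0
  have e1 := pr_LRc (1/2) s1
  have hK0 : (0:ℤ) ≤ K := Int.natCast_nonneg K
  have b0 : P ≤ P2 S (TBc 0 m (-1) (y + 2 * m)) := by
    unfold P2; rw [e0]
    rw [show m - 0 = m by ring]
    exact TUaux.hh_gen K (by omega) (by omega) (by omega)
  have b1 : P ≤ P2 S (LRc X1 X2 (y - 2 * m) (y + 2 * m)) := by
    unfold P2; rw [e1]
    rw [show y + 2 * m - (y - 2 * m) = 4 * m by ring]
    refine TUaux.hh_gen K (by omega) (by omega) ?_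
    nlinarith
  have j := Pr_harris okhalf2 (TBc_incr S 0 m (-1) (y + 2 * m))
    (LRc_incr S X1 X2 (y - 2 * m) (y + 2 * m))
  have k : P * P ≤ _ := (mul_le_mul b0 b1 hP0 (hP0.trans b0)).trans j
  rw [pow_two]
  refine k.trans (Pr_mono okhalf2 ?_)
  intro F _ hF
  exact clo_of hm hy h1 h2 hx1 hx2 hF.1 hF.2

/-- Along a dual path which crosses no edge of the explored cluster. -/
theorem dpath {a p : ℤ} {G K : Set Edg} (hK : ∀ e ∈ K, e ∉ CE a G) (hK0 : ∀ e ∈ K, 0 ≤ e.2.1)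
    (hKb : ∀ x', ((x', 0, true) : Edg) ∈ K → a ≤ x') {w : Vtx} (h : DReach K (p, -1) w) :
    (0 ≤ w.2 ∧ ¬ Lft a w G) ∨ w.2 = -1 := by
  induction h with
  | refl => right; rfl
  | @tail u v _ hs ih =>
    obtain ⟨⟨x', y', _ | _⟩, he, hc⟩ := hs
    · -- a vertical edge
      have hy' : 0 ≤ y' := hK0 _ he
      have hne := hK _ he
      have hL : Lft a (x' - 1, y') G ↔ Lft a (x', y') G := by
        have := Lft_right (a := a) (x := x' - 1) (y := y') (G := G) (by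
          rw [sub_add_cancel]; exact hne)
        rw [sub_add_cancel] at this
        exact this
      simp only [dsrc_false, dtgt_mk] at hc
      rcases hc with ⟨h1, h2⟩ | ⟨h1, h2⟩
      · rw [← h1] at ih
        rw [← h2]
        simp only at ih ⊢
        rcases ih with ih | ih
        · left; exact ⟨hy', fun h => ih.2 (hL.mpr h)⟩
        · omega
      · rw [← h2] at ih
        rw [← h1]
        simp only at ih ⊢
        rcases ih with ih | ih
        · left; exact ⟨hy', fun h => ih.2 (hL.mp h)⟩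
        · omega
    · -- a horizontal edge
      have hy' : 0 ≤ y' := hK0 _ he
      have hne := hK _ he
      simp only [dsrc_true, dtgt_mk] at hc
      rcases eq_or_lt_of_le hy' with h0 | h0
      · subst h0
        have hb := Lft_bot (hKb _ he) hne
        rcases hc with ⟨h1, h2⟩ | ⟨h1, h2⟩
        · rw [← h2]
          left
          exact ⟨le_rfl, hb⟩
        · rw [← h1]
          right
          show (0:ℤ) - 1 = -1
          ring
      · have hL : Lft a (x', y' - 1) G ↔ Lft a (x', y') G := by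
          have := Lft_up (a := a) (x := x') (y := y' - 1) (G := G) (by omega) (by
            rw [sub_add_cancel]; exact hne)
          rw [sub_add_cancel] at this
          exact this
        rcases hc with ⟨h1, h2⟩ | ⟨h1, h2⟩
        · rw [← h1] at ih
          rw [← h2]
          simp only at ih ⊢
          rcases ih with ih | ih
          · left; exact ⟨hy', fun h => ih.2 (hL.mpr h)⟩
          · omega
        · rw [← h2] at ih
          rw [← h1]
          simp only at ih ⊢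
          rcases ih with ih | ih
          · left; exact ⟨by omega, fun h => ih.2 (hL.mp h)⟩
          · omega

open Classical in
/-- The edges for the dual tube and for the square around the face. -/
noncomputable def SC (m x y X1 X2 n : ℤ) : Finset Edg :=
  (RE X1 (X2 + 1) 0 (y + 2 * m + 2)).filter (fun e => dl e ∈ TT m y X1 X2) ∪
    RE (x - n) (x + n) (y - n) (y + n)

theorem mem_SC {m x y X1 X2 n : ℤ} {e : Edg} : e ∈ SC m x y X1 X2 n ↔
    (e ∈ RE X1 (X2 + 1) 0 (y + 2 * m + 2) ∧ dl e ∈ TT m y X1 X2) ∨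
      e ∈ RE (x - n) (x + n) (y - n) (y + n) := by
  unfold SC
  rw [Finset.mem_union, Finset.mem_filter]

theorem TT_sub {m x y X1 X2 n : ℤ} (hy : 2 * m ≤ y) (h1 : X1 ≤ 0) (h2 : m ≤ X2) :
    TT m y X1 X2 ⊆ dmp (SC m x y X1 X2 n) := by
  intro e he
  rw [mem_dmp, mem_SC, Equiv.apply_symm_apply]
  left
  refine ⟨?_, he⟩
  unfold TT at he
  rw [Finset.mem_union] at he
  obtain ⟨p, q, _ | _⟩ := e
  · rw [mem_VE_false, mem_RE_false] at he
    rw [dls_f, mem_RE_true]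
    omega
  · rw [mem_VE_true, mem_RE_true] at he
    rw [dls_t, mem_RE_false]
    omega

/-- The closed tube: the face `(x, q)` is not enclosed. -/
theorem clo_geo {m x y X1 X2 n a : ℤ} {ω : sqLattice.edgeSet → Bool} (hy : 2 * m ≤ y)
    (ha : a ≤ 0) (hn : n ≤ y)
    (h : CloQ m x y X1 X2 (dmp (SC m x y X1 X2 n \ FF (SC m x y X1 X2 n) ω))) :
    ∃ q, (y - 2 * m ≤ q ∧ q ≤ y + 2 * m) ∧ ¬ Lft a (x, q) (opn ω) := by
  obtain ⟨p, q, hp, hq, hr⟩ := h
  refine ⟨q, hq, ?_⟩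
  have h1 : Reach (dl '' {e | (e ∈ SC m x y X1 X2 n ∧ e ∉ FF (SC m x y X1 X2 n) ω) ∧
      dl e ∈ TT m y X1 X2}) (p, -1) (x, q) := by
    refine hr.mono ?_
    rintro e ⟨e1, e2⟩
    rw [Finset.mem_coe, mem_dmp, Finset.mem_sdiff] at e1
    refine ⟨dl.symm e, ⟨e1, ?_⟩, Equiv.apply_symm_apply _ _⟩
    rw [Equiv.apply_symm_apply]
    exact Finset.mem_coe.mp e2
  rw [reach_dl] at h1
  have h2 := dpath (a := a) (G := opn ω) (by
    rintro e ⟨⟨e1, e2⟩, -⟩ hC
    exact e2 (mem_FF.mpr ⟨e1, hC.1.1⟩)) (by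
    rintro e ⟨⟨e1, -⟩, -⟩
    rw [mem_SC] at e1
    rcases e1 with ⟨e1, -⟩ | e1
    · exact (RE_ends e1).1.2.1
    · have : y - n ≤ e.2.1 := (RE_ends e1).1.2.1
      omega) (by
    rintro x' ⟨-, e3⟩
    unfold TT at e3
    rw [dl_t, Finset.mem_union, mem_VE_false, mem_RE_false] at e3
    omega) h1
  rcases h2 with h2 | h2
  · exact h2.2
  · simp only at h2
    omega

end Pool.Agent.U167.LP
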