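import Pool.Agent.U167.LP.Tail2

/-!
Lower bounds for the tails of the left-passage probabilities.
-/

set_option maxHeartbeats 1000000

namespace Pool.Agent.U167.LP

open H974 H731C H985LC Finset Pool.Agent.U167.HP MeasureTheory

/-- Along a dual path which crosses no edge of the explored cluster, and which starts at the free
part of the boundary. -/
theorem dpath' {a p : ℤ} {G K : Set Edg} (hK : ∀ e ∈ K, e ∉ CE a G) (hK0 : ∀ e ∈ K, 0 ≤ e.2.1)
    (hp : a ≤ p) {w : Vtx} (h : DReach K (p, -1) w) :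
    (0 ≤ w.2 ∧ ¬ Lft a w G) ∨ (w.2 = -1 ∧ (a ≤ w.1 ∨ ¬ Lft a (w.1, 0) G)) := by
  induction h with
  | refl => right; exact ⟨rfl, Or.inl hp⟩
  | @tail u v _ hs ih =>
    obtain ⟨⟨x', y', _ | _⟩, he, hc⟩ := hs
    · -- a vertical edge
      have hy' : 0 ≤ y' := hK0 _ he
      have hne := hK _ he
      have hL : Lft a (x' - 1, y') G ↔ Lft a (x', y') G := by
        have := Lft_right (a := a) (x := x' - 1) (y := y') (G := G) (by
          rw [sub_add_cancel]; exact hne)
        rw [sub_add_cancel] at this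
        exact this
      simp only [dsrc_false, dtgt_mk] at hc
      rcases hc with ⟨h1, h2⟩ | ⟨h1, h2⟩
      · rw [← h1] at ih
        rw [← h2]
        simp only at ih ⊢
        rcases ih with ih | ih
        · left; exact ⟨hy', fun h => ih.2 (hL.mpr h)⟩
        · omega
      · rw [← h2] at ih
        rw [← h1]
        simp only at ih ⊢
        rcases ih with ih | ih
        · left; exact ⟨hy', fun h => ih.2 (hL.mp h)⟩
        · omega
    · -- a horizontal edge
      have hy' : 0 ≤ y' := hK0 _ he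
      have hne := hK _ he
      simp only [dsrc_true, dtgt_mk] at hc
      rcases eq_or_lt_of_le hy' with h0 | h0
      · subst h0
        rcases hc with ⟨h1, h2⟩ | ⟨h1, h2⟩
        · rw [← h1] at ih
          rw [← h2]
          simp only at ih ⊢
          rcases ih with ih | ih
          · omega
          · left
            refine ⟨le_rfl, ?_⟩
            rcases ih.2 with h3 | h3
            · exact Lft_bot h3 hne
            · exact h3
        · rw [← h2] at ih
          rw [← h1]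
          simp only at ih ⊢
          rcases ih with ih | ih
          · right
            exact ⟨by ring, Or.inr ih.2⟩
          · omega
      · have hL : Lft a (x', y' - 1) G ↔ Lft a (x', y') G := by
          have := Lft_up (a := a) (x := x') (y := y' - 1) (G := G) (by omega) (by
            rw [sub_add_cancel]; exact hne)
          rw [sub_add_cancel] at this
          exact this
        rcases hc with ⟨h1, h2⟩ | ⟨h1, h2⟩
        · rw [← h1] at ih
          rw [← h2]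
          simp only at ih ⊢
          rcases ih with ih | ih
          · left; exact ⟨hy', fun h => ih.2 (hL.mpr h)⟩
          · omega
        · rw [← h2] at ih
          rw [← h1]
          simp only at ih ⊢
          rcases ih with ih | ih
          · left; exact ⟨by omega, fun h => ih.2 (hL.mp h)⟩
          · omega

theorem rt_compare' {x y r : ℤ} (hy : 1 ≤ y) (hr : y ≤ r) (hx : 0 < x) (hrx : r ≤ x) :
    (1 / 32 : ℝ) * ((y : ℝ) / (x + y)) ^ ((1 : ℝ) / 3) ≤
      ((((-x + r - (-x - r) + 1 : ℤ) : ℝ) * ((x - 0 + 1 : ℤ) : ℝ)) /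
        ((x - (-x - r) + 1 : ℤ) : ℝ) ^ 2) ^ ((1 : ℝ) / 3) := by
  refine (rt_compare hy hr hx hrx).trans (le_of_eq ?_)
  congr 1
  push_cast
  ring

open Classical in
/-- The edges for the dual events and for the square around the face. -/
noncomputable def SD (x n N : ℤ) (y : ℤ) : Finset Edg :=
  (RE (-N) (N + 1) 0 (N + 1)).filter (fun e => dl e ∈ VE (-N) N (-1) N) ∪
    RE (x - n) (x + n) (y - n) (y + n)

theorem mem_SD {x n N y : ℤ} {e : Edg} : e ∈ SD x n N y ↔
    (e ∈ RE (-N) (N + 1) 0 (N + 1) ∧ dl e ∈ VE (-N) N (-1) N) ∨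
      e ∈ RE (x - n) (x + n) (y - n) (y + n) := by
  unfold SD
  rw [Finset.mem_union, Finset.mem_filter]

theorem VE_sub_SD {x n N y : ℤ} : VE (-N) N (-1) N ⊆ dmp (SD x n N y) := by
  intro e he
  rw [mem_dmp, mem_SD, Equiv.apply_symm_apply]
  left
  refine ⟨?_, he⟩
  obtain ⟨p, q, _ | _⟩ := e
  · rw [mem_VE_false] at he
    rw [dls_f, mem_RE_true]
    omega
  · rw [mem_VE_true] at he
    rw [dls_t, mem_RE_false]
    omega

/-- The geometric part. -/
theorem dual_geo {x y r m N X : ℤ} {ω : sqLattice.edgeSet → Bool} (hm : 1 ≤ m) (hmy : m ≤ y)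
    (hr : r = 2 * y) (hx : X = -x) (hX : 24 * y ≤ X) (hN : N = 40 * X + 40) {n : ℤ} (hn : n ≤ y)
    (h : XHL (x - r) (x + r) 0 X (-N) N (-1) N x r (y - m) (2 * m)
      (dmp (SD x n N y \ FF (SD x n N y) ω))) :
    ∃ q, (y - m ≤ q ∧ q ≤ y + m) ∧ ¬ Lft 0 (x, q) (opn ω) := by
  obtain ⟨H, hH⟩ : ∃ H, H = dmp (SD x n N y \ FF (SD x n N y) ω) := ⟨_, rfl⟩
  rw [← hH] at h
  obtain ⟨⟨p, q, hp, hq, hpq⟩, ⟨⟨s, s', hs, hs', hT⟩, ⟨fr, fr', hr1, hr2, hR⟩,
      ⟨fl, fl', hl1, hl2, hL⟩⟩, ⟨u, u', hu, hu', hB⟩⟩ := h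
  have e2m : y - m + 2 * m = y + m := by ring
  rw [e2m] at hu hu' hB
  obtain ⟨G, hG⟩ : ∃ G : Set Edg, G = ↑H ∩ ↑(VE (-N) N (-1) N) := ⟨_, rfl⟩
  have iT : (↑H ∩ ↑(LRE (x - 3 * r) (x + 3 * r) (-1 + r) (-1 + 3 * r)) : Set Edg) ⊆
      G ∩ ↑(RE (x - 3 * r) (x + 3 * r) (-1 + r) (-1 + 3 * r)) := by
    rintro e ⟨e1, e2⟩
    rw [hG]
    exact ⟨⟨e1, Finset.mem_coe.mpr (VE_mono (by omega) (by omega) (by omega)
      (LRE_subset_VE (t := -1) (by omega) (Finset.mem_coe.mp e2)))⟩,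
      Finset.mem_coe.mpr (LRE_subset_RE (Finset.mem_coe.mp e2))⟩
  have iR : (↑H ∩ ↑(TBE (x + r) (x + 3 * r) (-1) (-1 + 3 * r)) : Set Edg) ⊆
      G ∩ ↑(RE (x + r) (x + 3 * r) (-1) (-1 + 3 * r)) := by
    rintro e ⟨e1, e2⟩
    rw [hG]
    exact ⟨⟨e1, Finset.mem_coe.mpr (VE_mono (by omega) (by omega) (by omega)
      (TBE_sub_VE (Finset.mem_coe.mp e2)))⟩,
      Finset.mem_coe.mpr (TBE_subset_RE (Finset.mem_coe.mp e2))⟩
  have iL : (↑H ∩ ↑(TBE (x - 3 * r) (x - r) (-1) (-1 + 3 * r)) : Set Edg) ⊆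
      G ∩ ↑(RE (x - 3 * r) (x - r) (-1) (-1 + 3 * r)) := by
    rintro e ⟨e1, e2⟩
    rw [hG]
    exact ⟨⟨e1, Finset.mem_coe.mpr (VE_mono (by omega) (by omega) (by omega)
      (TBE_sub_VE (Finset.mem_coe.mp e2)))⟩,
      Finset.mem_coe.mpr (TBE_subset_RE (Finset.mem_coe.mp e2))⟩
  have iB : (↑H ∩ ↑(LRE (x - 3 * r) (x + 3 * r) (y - m) (y + m)) : Set Edg) ⊆
      G ∩ ↑(RE (x - 3 * r) (x + 3 * r) (y - m) (y + m)) := by
    rintro e ⟨e1, e2⟩
    rw [hG]
    exact ⟨⟨e1, Finset.mem_coe.mpr (VE_mono (by omega) (by omega) (by omega)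
      (LRE_subset_VE (t := -1) (by omega) (Finset.mem_coe.mp e2)))⟩,
      Finset.mem_coe.mpr (LRE_subset_RE (Finset.mem_coe.mp e2))⟩
  have hG2 : G ⊆ G ∩ ↑(RE (-N) N (-1) N) := by
    intro e he
    refine ⟨he, ?_⟩
    rw [hG] at he
    exact Finset.mem_coe.mpr (VE_subset_RE (Finset.mem_coe.mp he.2))
  have hpq' : Reach (G ∩ ↑(RE (-N) N (-1) N)) (p, -1) (q, -1) := by
    rw [← hG] at hpq
    exact hpq.mono hG2
  have foot := arm_foot (G := G) (z := x) (t := -1) (r := r) (s := s) (s' := s')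
      (fr := fr) (fr' := fr') (fl := fl) (fl' := fl') (xi := p) (xo := q) (A := -N) (B := N)
      (D := N) (by omega) hr1 hl1 (hT.mono iT) (hR.mono iR) (hL.mono iL)
      (by omega) (by omega) (by omega) (by omega) hpq'
  have c1 := cross_meet (F := G) (A := x - 3 * r) (a := x - 3 * r) (b := x - r) (B := x + 3 * r)
    (C := -1) (c := y - m) (d := y + m) (D := -1 + 3 * r) le_rfl (by omega) (by omega) (by omega)
    (by omega) (by omega) (hB.mono iB) le_rfl (by simp only; omega) (hL.mono iL)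
    (by simp only; omega) (by simp only; omega)
  obtain ⟨w, hw1, hw2, hw3⟩ := first_exit (a := x - 3 * r - 1) (b := x) (c := y - m - 1)
    (d := y + m + 1) (u := (x - 3 * r, u)) (v := (x + 3 * r, u'))
    (by unfold inR; simp only; omega) (hB.mono iB) (by right; left; simp only; omega)
  have hw4 : inR (x - 3 * r) (x + 3 * r) (y - m) (y + m) w := by
    refine reach_inR (G := G) (u := (x - 3 * r, u)) (by unfold inR; simp only; omega)
      (hw3.mono ?_)
    exact Set.inter_subset_left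
  have hwx : w = (x, w.2) := by
    have : w.1 = x := by
      unfold inR at hw4
      omega
    rw [← this]
  have fin : Reach G (q, -1) (x, w.2) := by
    rw [← hwx]
    refine (hpq'.mono Set.inter_subset_left).symm.trans (foot.trans
      ((c1.mono Set.inter_subset_left).symm.trans (hw3.mono ?_)))
    exact Set.inter_subset_left.trans Set.inter_subset_left
  refine ⟨w.2, hw4.2, ?_⟩
  have h1 : Reach (dl '' {e | (e ∈ SD x n N y ∧ e ∉ FF (SD x n N y) ω) ∧
      dl e ∈ VE (-N) N (-1) N}) (q, -1) (x, w.2) := by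
    refine fin.mono ?_
    rw [hG]
    rintro e ⟨e1, e2⟩
    rw [Finset.mem_coe, hH, mem_dmp, Finset.mem_sdiff] at e1
    refine ⟨dl.symm e, ⟨e1, ?_⟩, Equiv.apply_symm_apply _ _⟩
    rw [Equiv.apply_symm_apply]
    exact Finset.mem_coe.mp e2
  rw [reach_dl] at h1
  have h2 := dpath' (a := 0) (G := opn ω) (by
    rintro e ⟨⟨e1, e2⟩, -⟩ hC
    exact e2 (mem_FF.mpr ⟨e1, hC.1.1⟩)) (by
    rintro e ⟨⟨e1, -⟩, -⟩
    rw [mem_SD] at e1
    rcases e1 with ⟨e1, -⟩ | e1
    · exact (RE_ends e1).1.2.1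
    · have : y - n ≤ e.2.1 := (RE_ends e1).1.2.1
      omega) hq.1 h1
  rcases h2 with h2 | h2
  · exact h2.2
  · have := hw4.2.1
    have := h2.1
    simp only at this
    omega

/-- The lower bound for the lower tail, away from the boundary. -/
theorem sp_lower_far' : ∃ c : ℝ, 0 < c ∧ ∃ y0 : ℤ, ∀ x y : ℤ, y0 ≤ y → 24 * y ≤ -x →
    c * ((y : ℝ) / (-x + y)) ^ ((1 : ℝ) / 3) ≤ 1 - sp x y := by
  obtain ⟨c, hc, hX⟩ := pr_XHL
  obtain ⟨C, hC, hb⟩ := barm_up
  obtain ⟨M, hM2, hM⟩ : ∃ M : ℕ, 5 ≤ M ∧ C * ((1 : ℝ) / M) ^ ((5 : ℝ) / 48) ≤ 1 / 2 := by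
    have h1 : Filter.Tendsto (fun M : ℕ => C * ((1 : ℝ) / M) ^ ((5 : ℝ) / 48)) Filter.atTop
        (nhds (C * 0 ^ ((5 : ℝ) / 48))) := by
      apply Filter.Tendsto.const_mul
      have h2 : Filter.Tendsto (fun M : ℕ => (1 : ℝ) / M) Filter.atTop (nhds 0) :=
        tendsto_const_div_atTop_nhds_zero_nat 1
      exact h2.rpow_const (Or.inr (by norm_num))
    rw [Real.zero_rpow (by norm_num), mul_zero] at h1
    have h3 := (h1.eventually (ge_mem_nhds (show (0:ℝ) < 1 / 2 by norm_num))).and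
      (Filter.eventually_ge_atTop 5)
    obtain ⟨M, h4, h5⟩ := h3.exists
    exact ⟨M, h5, h4⟩
  set P : ℝ := (1/2 : ℝ) ^ (48 * (12 * M + 1)) with hP
  have hP0 : 0 < P := by positivity
  refine ⟨c * (1 / 32 : ℝ) * P * (1 / 2), by positivity, M, ?_⟩
  intro x y hy hx
  have hM0 : (0:ℤ) < M := by omega
  obtain ⟨m, hmd⟩ : ∃ m : ℤ, m = y / M := ⟨_, rfl⟩
  have hm1 : 1 ≤ m := by
    rw [hmd, Int.le_ediv_iff_mul_le hM0]
    omega
  have hmy : M * m ≤ y := by
    have := Int.ediv_mul_le y (show (M:ℤ) ≠ 0 by omega)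
    rw [← hmd] at this
    linarith
  have hmy2 : y ≤ 2 * (M * m) := by
    have h1 : y < (m + 1) * M := by
      rw [hmd]
      exact Int.lt_ediv_add_one_mul_self _ hM0
    have h2 : (0:ℤ) ≤ (M:ℤ) * (m - 1) := mul_nonneg (by omega) (by omega)
    nlinarith
  have hm5 : 5 * m ≤ M * m := mul_le_mul_of_nonneg_right (by exact_mod_cast hM2) (by omega)
  obtain ⟨X, hXd⟩ : ∃ X, X = -x := ⟨_, rfl⟩
  have hxX : x = -X := by omega
  obtain ⟨N, hN⟩ : ∃ N, N = 40 * X + 40 := ⟨_, rfl⟩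
  obtain ⟨r, hr⟩ : ∃ r, r = 2 * y := ⟨_, rfl⟩
  obtain ⟨n, hn⟩ : ∃ n : ℕ, (n : ℤ) = y := ⟨y.toNat, by omega⟩
  obtain ⟨j, hj⟩ : ∃ j : ℕ, (j : ℤ) = m := ⟨m.toNat, by omega⟩
  obtain ⟨B, hB⟩ : ∃ B, B = SD x n N y := ⟨_, rfl⟩
  have hsub : VE (-N) N (-1) N ⊆ dmp B := by rw [hB]; exact VE_sub_SD
  have key := hX (x - r) (x + r) 0 X (-1) (-N) N N x r (y - m) (2 * m) (12 * M) (by omega)
    (by omega) (by omega) (by omega) (by omega) (by omega) (by omega) (by omega) (by omega)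
    (by omega) (by omega) (by push_cast; nlinarith) (by omega) (by omega) _ hsub
  have cmp := rt_compare' (x := X) (y := y) (r := r) (by omega) (by omega) (by omega) (by omega)
  rw [← hxX] at cmp
  have p2 : c * ((1 / 32 : ℝ) * ((y : ℝ) / (X + y)) ^ ((1 : ℝ) / 3)) * P ≤
      P2 (dmp B) (XHL (x - r) (x + r) 0 X (-N) N (-1) N x r (y - m) (2 * m)) := by
    refine le_trans ?_ key
    gcongr
  have p3 : 1 / 2 ≤ P2 B (fun F => ¬ SqA (x, y) j n F) := by
    have h1 : P2 B (SqA (x, y) j n) ≤ 1 / 2 := by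
      refine (pr_SqA _ _ _ _).trans ((hb j n (by omega) (by omega)).trans (le_trans ?_ hM))
      have hn0 : (0:ℝ) < n := by exact_mod_cast (by omega : 0 < n)
      have hM0' : (0:ℝ) < M := by exact_mod_cast (by omega : 0 < M)
      have hle : (j : ℝ) / n ≤ 1 / M := by
        rw [div_le_div_iff₀ hn0 hM0', one_mul]
        have : (j : ℤ) * M ≤ n := by rw [hj, hn]; linarith
        exact_mod_cast this
      gcongr
    have h2 := Pr_not (p := fun _ : Edg => (1/2 : ℝ)) B (SqA (x, y) j n)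
    unfold P2 at h1 ⊢
    rw [h2]
    linarith
  have q0 : 0 ≤ c * ((1 / 32 : ℝ) * ((y : ℝ) / (X + y)) ^ ((1 : ℝ) / 3)) * P := by
    have hy0 : (0:ℝ) < y := by exact_mod_cast (by omega : 0 < y)
    have hX0 : (0:ℝ) < X := by exact_mod_cast (by omega : 0 < X)
    positivity
  have p4 : c * ((1 / 32 : ℝ) * ((y : ℝ) / (X + y)) ^ ((1 : ℝ) / 3)) * P * (1 / 2) ≤
      P2 B (fun F => XHL (x - r) (x + r) 0 X (-N) N (-1) N x r (y - m) (2 * m) (dmp (B \ F)) ∧
      ¬ SqA (x, y) j n F) := by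
    have q1 := cf_dd okhalf2 (S := B) (A := fun F => XHL (x - r) (x + r) 0 X (-N) N (-1) N x r
        (y - m) (2 * m) (dmp (B \ F)))
      (B := fun F => ¬ SqA (x, y) j n F) (by
        intro F G h hG hF
        intro hF'
        apply hF
        refine XHL_incr (dmp B) _ _ _ _ _ _ _ _ _ _ _ _ _ _ ?_ ?_ hF'
        · intro e he
          rw [mem_dmp, mem_sdiff] at he ⊢
          exact ⟨he.1, fun h3 => he.2 (h h3)⟩
        · intro e he
          rw [mem_dmp] at he ⊢
          exact (mem_sdiff.mp he).1) (by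
        intro F G h hG hF
        simp only [not_not] at hF ⊢
        obtain ⟨u, v, u1, u2, u3, u4⟩ := hF
        exact ⟨u, v, u1, u2, u3, u4.mono (Set.inter_subset_inter_left _ (by exact_mod_cast h))⟩)
    refine le_trans ?_ q1
    have q2 := P2_dual B (XHL (x - r) (x + r) 0 X (-N) N (-1) N x r (y - m) (2 * m))
    unfold P2 at q2 p2 p3
    rw [q2]
    exact mul_le_mul p2 p3 (by norm_num) (q0.trans p2)
  rw [← real_event] at p4
  have hincl : {ω | (fun F => XHL (x - r) (x + r) 0 X (-N) N (-1) N x r (y - m) (2 * m)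
      (dmp (B \ F)) ∧ ¬ SqA (x, y) j n F) (FF B ω)} ⊆ (LE 0 (x, y))ᶜ := by
    rintro ω ⟨hQ, hS⟩
    obtain ⟨q, hq, g2⟩ := dual_geo (x := x) (y := y) (r := r) (m := m) (N := N) (X := X)
      (ω := ω) (n := n) hm1 (by omega) hr hXd (by omega) hN (by omega) (by rw [← hB]; exact hQ)
    have hnj := no_join (c := (x, y)) (j := j) (n := n) (by omega)
      (by show (n:ℤ) ≤ y; omega) (S := B) (by
        intro e he
        rw [hB, mem_SD]
        right
        exact he) hS
    have near : Lft 0 (x, y) (opn ω) ↔ Lft 0 (x, q) (opn ω) := by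
      refine Lft_near (c := (x, y)) (j := j) (by show (j:ℤ) ≤ y; omega) ?_ ?_ ?_
      · intro s v _ hv
        exact hnj s v hv
      · unfold inR
        simp only
        omega
      · unfold inR
        simp only
        omega
    intro h
    exact g2 (near.mp h)
  have h2 := measureReal_mono hincl (measure_ne_top (bondLaw half) _)
  rw [one_sub_sp]
  refine le_trans (le_of_eq ?_) (p4.trans h2)
  have e : (-x + y : ℝ) = X + y := by
    rw [hXd]
    push_cast
    ring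
  rw [e]
  ring

end Pool.Agent.U167.LP
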