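import Pool.Agent.U167.LP.Lim3
import Pool.Agent.U167.LP.Tail3

/-!
The left-passage probabilities: final forms of the bounds.
-/

set_option maxHeartbeats 1000000

namespace Pool.Agent.U167.LP

open H974 H731C MeasureTheory Filter Topology Set Pool.Agent.U167.HP

/-- The size of the tails. -/
noncomputable def tl (x y : ℝ) : ℝ := (y / (|x| + y)) ^ ((1 : ℝ) / 3)

theorem tl_nonneg {x y : ℝ} (hy : 0 < y) : 0 ≤ tl x y := by unfold tl; positivity

theorem tl_le_one {x y : ℝ} (hy : 0 < y) : tl x y ≤ 1 := by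
  unfold tl
  apply Real.rpow_le_one (by positivity) _ (by norm_num)
  rw [div_le_one (by positivity)]
  have := abs_nonneg x
  linarith

theorem third_two : (2:ℝ) ^ ((1:ℝ) / 3) ≤ 2 := by
  calc (2:ℝ) ^ ((1:ℝ) / 3) ≤ 2 ^ (1:ℝ) := Real.rpow_le_rpow_of_exponent_le (by norm_num) (by norm_num)
    _ = 2 := Real.rpow_one 2

theorem rt_tl {x y : ℤ} (hy : 1 ≤ y) : rt x y ≤ 2 * tl x y := by
  have hy1 : (1:ℝ) ≤ y := by exact_mod_cast hy
  have hx := abs_nonneg (x:ℝ)
  unfold rt tl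
  calc (((y:ℝ) + 1) / ((|x| : ℤ) + y + 1)) ^ ((1:ℝ) / 3) ≤ (2 * ((y:ℝ) / (|(x:ℝ)| + y))) ^ ((1:ℝ) / 3) := by
        apply Real.rpow_le_rpow (by push_cast; positivity) _ (by norm_num)
        push_cast
        rw [mul_div_assoc', div_le_div_iff₀ (by positivity) (by positivity)]
        nlinarith
    _ = 2 ^ ((1:ℝ) / 3) * ((y:ℝ) / (|(x:ℝ)| + y)) ^ ((1:ℝ) / 3) :=
        Real.mul_rpow (by norm_num) (by positivity)
    _ ≤ _ := by
        gcongr
        exact third_two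

theorem wt_sd {x y : ℤ} (hy : 1 ≤ y) : wt x y ≤ 2 * sd x y := by
  have hy1 : (1:ℝ) ≤ y := by exact_mod_cast hy
  have hx := abs_nonneg (x:ℝ)
  have h1 := rt_tl (x := x) hy
  have h2 := up_sd (x := x) (y := y) (by linarith)
  have e : wt x y = 1 / ((|x| : ℤ) + y + 1) * rt x y := rfl
  rw [e]
  have h3 : 1 / (((|x| : ℤ) : ℝ) + y + 1) ≤ 1 / (|(x:ℝ)| + y) := by
    push_cast
    apply one_div_le_one_div_of_le (by positivity)
    linarith
  have hr := (rt_pos (x := x) (show 0 ≤ y by omega)).le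
  calc 1 / (((|x| : ℤ) : ℝ) + y + 1) * rt x y ≤ 1 / (|(x:ℝ)| + y) * (2 * tl x y) := by
        apply mul_le_mul h3 h1 hr (by positivity)
    _ = 2 * (1 / (|(x:ℝ)| + y) * ((y:ℝ) / (|(x:ℝ)| + y)) ^ ((1 : ℝ) / 3)) := by
        unfold tl; ring
    _ ≤ _ := by linarith

theorem sd_le {x y : ℝ} (hy : 0 < y) : sd x y ≤ 1 / y := by
  rw [sd_eq hy]
  have : sk (x / y) ≤ 1 := by
    unfold sk
    apply Real.rpow_le_one_of_one_le_of_nonpos _ (by norm_num)
    have := sq_nonneg (x / y)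
    linarith
  have h2 : 0 ≤ 1 / y := by positivity
  nlinarith

theorem up_all : ∃ C : ℝ, 0 < C ∧ ∀ x y : ℤ, 1 ≤ y →
    df x y ≤ C * sd x y ∧ (0 ≤ x → sp x y ≤ C * tl x y) ∧ (x ≤ 0 → 1 - sp x y ≤ C * tl x y) := by
  obtain ⟨C3, hC3, h3⟩ := df_upper
  obtain ⟨C4, hC4, h4⟩ := sp_upper
  obtain ⟨C5, hC5, h5⟩ := sp_upper'
  refine ⟨2 * (C3 + C4 + C5), by positivity, ?_⟩
  intro x y hy
  have hy0 : (0:ℝ) < y := by exact_mod_cast (by omega : (0:ℤ) < y)
  have hs := sd_pos (x := x) hy0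
  have ht := tl_nonneg (x := x) hy0
  have hr := rt_tl (x := x) hy
  have hw := wt_sd (x := x) hy
  refine ⟨?_, ?_, ?_⟩
  · calc df x y ≤ C3 * wt x y := h3 x y (by omega)
      _ ≤ C3 * (2 * sd x y) := by gcongr
      _ ≤ 2 * (C3 + C4 + C5) * sd x y := by nlinarith
  · intro hx
    calc sp x y ≤ C4 * rt x y := h4 x y hx (by omega)
      _ ≤ C4 * (2 * tl x y) := by gcongr
      _ ≤ 2 * (C3 + C4 + C5) * tl x y := by nlinarith
  · intro hx
    calc 1 - sp x y ≤ C5 * rt x y := h5 x y hx (by omega)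
      _ ≤ C5 * (2 * tl x y) := by gcongr
      _ ≤ 2 * (C3 + C4 + C5) * tl x y := by nlinarith

/-- Lower bounds for the tails. -/
theorem low_all : ∃ c : ℝ, 0 < c ∧ ∃ y0 : ℤ, 1 ≤ y0 ∧ ∀ x y : ℤ, y0 ≤ y →
    (0 ≤ x → c * tl x y ≤ sp x y) ∧ (x ≤ 0 → c * tl x y ≤ 1 - sp x y) := by
  obtain ⟨c1, hc1, y1, hy1, h1⟩ := df_lower 26
  obtain ⟨c2, hc2, h2⟩ := sp_lower_far
  obtain ⟨c3, hc3, y3, h3⟩ := sp_lower_far'
  refine ⟨min c1 (min c2 c3), by positivity, max y1 (max 4 y3), by omega, ?_⟩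
  intro x y hy
  have hyy : (0:ℤ) < y := by omega
  have hy0 : (0:ℝ) < y := by exact_mod_cast hyy
  have ht := tl_nonneg (x := x) hy0
  have ht1 := tl_le_one (x := x) hy0
  have near : ∀ x' : ℤ, |x'| ≤ 25 * y → c1 ≤ sp x' y - sp (x' + y) y := by
    intro x' hx'
    obtain ⟨n, hn⟩ : ∃ n : ℕ, (n : ℤ) = y := ⟨y.toNat, by omega⟩
    have hsum := sum_df y n x'
    rw [hn] at hsum
    rw [← hsum]
    have : ∀ i ∈ Finset.range n, c1 / y ≤ df (x' + i) y := by
      intro i hi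
      rw [Finset.mem_range] at hi
      apply h1 _ _ (by omega)
      rw [abs_le] at hx' ⊢
      push_cast
      constructor <;> omega
    have hle := Finset.card_nsmul_le_sum _ _ _ this
    rw [Finset.card_range, nsmul_eq_mul] at hle
    refine le_trans (le_of_eq ?_) hle
    have : (n:ℝ) = y := by exact_mod_cast hn
    rw [this]
    field_simp
  constructor
  · intro hx
    rcases lt_or_ge x (24 * y) with h | h
    · have := near x (by rw [abs_of_nonneg hx]; omega)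
      have h0 := sp_nonneg (x + y) y
      have h4 : min c1 (min c2 c3) ≤ c1 := min_le_left _ _
      have h5 : 0 ≤ min c1 (min c2 c3) := by positivity
      nlinarith
    · have := h2 x y (by omega) h
      have e : tl x y = ((y : ℝ) / (x + y)) ^ ((1 : ℝ) / 3) := by
        unfold tl
        rw [abs_of_nonneg (by exact_mod_cast hx)]
      rw [e] at ht ⊢
      refine le_trans ?_ this
      gcongr
      exact (min_le_right _ _).trans (min_le_left _ _)
  · intro hx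
    rcases lt_or_ge (-x) (24 * y) with h | h
    · have := near (x - y) (by rw [abs_le]; omega)
      rw [sub_add_cancel] at this
      have h0 := sp_le_one (x - y) y
      have h4 : min c1 (min c2 c3) ≤ c1 := min_le_left _ _
      have h5 : 0 ≤ min c1 (min c2 c3) := by positivity
      nlinarith
    · have := h3 x y (by omega) h
      have e : tl x y = ((y : ℝ) / (-x + y)) ^ ((1 : ℝ) / 3) := by
        unfold tl
        rw [abs_of_nonpos (by exact_mod_cast hx)]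
      rw [e] at ht ⊢
      refine le_trans ?_ this
      gcongr
      exact (min_le_right _ _).trans (min_le_right _ _)

theorem tl_lim {φ : ℕ → ℕ} (hφ : Tendsto φ atTop atTop) {X Y : ℕ → ℤ} {x y : ℝ} (hy : 0 < y)
    (hX : Sc φ X x) (hY : Sc φ Y y) :
    Tendsto (fun j => tl (X j) (Y j)) atTop (𝓝 (tl x y)) := by
  have hd : 0 < |x| + y := by positivity
  have h1 := sc_quo hφ hY (sc_sum (sc_abs hX) hY) hd.ne'
  have h2 := h1.rpow_const (p := (1 : ℝ) / 3) (Or.inr (by norm_num))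
  refine h2.congr (fun j => ?_)
  unfold tl
  push_cast
  rfl

/-- Lower bounds for the tails of the limits. -/
theorem lim_low : ∃ c : ℝ, 0 < c ∧ ∀ (φ : ℕ → ℕ) (S ρ : ℝ → ℝ → ℝ), LPL φ S ρ →
    ∀ x y : ℝ, 0 < y → (0 ≤ x → c * tl x y ≤ S x y) ∧ (x ≤ 0 → c * tl x y ≤ 1 - S x y) := by
  obtain ⟨c, hc, y0, hy0, h⟩ := low_all
  refine ⟨c, hc, ?_⟩
  intro φ S ρ hl x y hy
  have hφ := hl.top
  have t1 := hl.cdf x y hy _ _ (sc_fl hφ x) (sc_fl hφ y)
  have t2 := (tl_lim hφ hy (sc_fl hφ x) (sc_fl hφ y)).const_mul c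
  constructor
  · intro hx
    refine le_of_tendsto_of_tendsto t2 t1 ?_
    filter_upwards [ev_ge hφ hy (sc_fl hφ y) y0] with j hj
    exact (h _ _ hj).1 (Int.floor_nonneg.mpr (by positivity))
  · intro hx
    refine le_of_tendsto_of_tendsto t2 (t1.const_sub 1) ?_
    filter_upwards [ev_ge hφ hy (sc_fl hφ y) y0] with j hj
    refine (h _ _ hj).2 ?_
    have : (⌊(φ j : ℝ) * x⌋ : ℤ) ≤ ⌊(0:ℝ)⌋ :=
      Int.floor_le_floor (mul_nonpos_of_nonneg_of_nonpos (Nat.cast_nonneg _) hx)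
    simpa using this

end Pool.Agent.U167.LP
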