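import Pool.Agent.U167.LP.Arm
import Pool.Agent.H160R2.SA.Arm

/-!
Two faces which are close to each other: Hölder bounds.
-/

set_option maxHeartbeats 1000000

namespace Pool.Agent.U167.LP

open H974 H731C H985LC Finset Pool.Agent.U167.HP MeasureTheory

/-- Box-to-boundary probabilities. -/
theorem barm_up : ∃ C : ℝ, 0 < C ∧ ∀ r n : ℕ, 1 ≤ r → 1 ≤ n →
    barm (1 / 2) r n ≤ C * ((r : ℝ) / n) ^ ((5 : ℝ) / 48) := by
  obtain ⟨c0, C0, hc0, hC0, har⟩ := Pool.Agent.H160R2.SA.arSharp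
  refine ⟨2 ^ 188 * (C0 / c0) * 3 ^ ((5 : ℝ) / 48) + 3, by positivity, fun r n hr hn => ?_⟩
  have hr0 : (0 : ℝ) < r := by exact_mod_cast hr
  have hn0 : (0 : ℝ) < n := by exact_mod_cast hn
  rcases Nat.lt_or_ge n (3 * r) with hs | hrn
  · have h1 := barm_le_one (q := 1 / 2) (by norm_num) (by norm_num) r n
    have h2 : (1 : ℝ) / 3 ≤ (r : ℝ) / n := by
      rw [div_le_div_iff₀ (by norm_num) hn0]
      have : (n : ℝ) ≤ 3 * r := by exact_mod_cast hs.le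
      linarith
    have h3 : (1 : ℝ) / 3 ≤ ((r : ℝ) / n) ^ ((5 : ℝ) / 48) := by
      calc (1 : ℝ) / 3 ≤ ((1 : ℝ) / 3) ^ ((5 : ℝ) / 48) := by
            have := Real.rpow_le_rpow_of_exponent_ge (x := (1:ℝ)/3) (by norm_num) (by norm_num)
              (show (5:ℝ)/48 ≤ 1 by norm_num)
            rw [Real.rpow_one] at this
            exact this
        _ ≤ _ := Real.rpow_le_rpow (by norm_num) h2 (by norm_num)
    have h4 : 0 ≤ 2 ^ 188 * (C0 / c0) * 3 ^ ((5 : ℝ) / 48) * ((r : ℝ) / n) ^ ((5 : ℝ) / 48) := by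
      positivity
    nlinarith
  have h1 := arm_glue (p := 1 / 2) le_rfl (by norm_num) (by omega : 0 < r) hrn
  have h2 := (har n (by omega)).2
  have h3 := (har (3 * r) (by omega)).1
  have h4 : (1 / 2 : ℝ) ^ 188 * (Pool.Agent.H160R2.CV.ar (3 * r) * barm (1 / 2) r n) ≤
      Pool.Agent.H160R2.CV.ar n := h1
  have hb := barm_nonneg (q := 1 / 2) (by norm_num) (by norm_num) r n
  have h5 : c0 * ((3 * r : ℕ) : ℝ) ^ (-(5 / 48 : ℝ)) * barm (1 / 2) r n ≤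
      2 ^ 188 * (C0 * (n : ℝ) ^ (-(5 / 48 : ℝ))) := by
    calc c0 * ((3 * r : ℕ) : ℝ) ^ (-(5 / 48 : ℝ)) * barm (1 / 2) r n
        ≤ Pool.Agent.H160R2.CV.ar (3 * r) * barm (1 / 2) r n := mul_le_mul_of_nonneg_right h3 hb
      _ = 2 ^ 188 * ((1 / 2 : ℝ) ^ 188 * (Pool.Agent.H160R2.CV.ar (3 * r) * barm (1 / 2) r n)) := by
          rw [← mul_assoc, ← mul_pow]; norm_num
      _ ≤ 2 ^ 188 * (C0 * (n : ℝ) ^ (-(5 / 48 : ℝ))) :=
          mul_le_mul_of_nonneg_left (h4.trans h2) (by positivity)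
  have e1 : ((3 * r : ℕ) : ℝ) ^ (-(5 / 48 : ℝ)) = (((3 * r : ℕ) : ℝ) ^ ((5 : ℝ) / 48))⁻¹ :=
    Real.rpow_neg (by positivity) _
  have e2 : (n : ℝ) ^ (-(5 / 48 : ℝ)) = ((n : ℝ) ^ ((5 : ℝ) / 48))⁻¹ :=
    Real.rpow_neg hn0.le _
  have e3 : ((3 * r : ℕ) : ℝ) ^ ((5 : ℝ) / 48) = 3 ^ ((5 : ℝ) / 48) * (r : ℝ) ^ ((5 : ℝ) / 48) := by
    push_cast
    exact Real.mul_rpow (by norm_num) hr0.le
  have e4 : ((r : ℝ) / n) ^ ((5 : ℝ) / 48) = (r : ℝ) ^ ((5 : ℝ) / 48) / (n : ℝ) ^ ((5 : ℝ) / 48) :=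
    Real.div_rpow hr0.le hn0.le _
  rw [e1, e2, e3] at h5
  rw [e4]
  have p1 : (0 : ℝ) < 3 ^ ((5 : ℝ) / 48) := by positivity
  have p2 : (0 : ℝ) < (r : ℝ) ^ ((5 : ℝ) / 48) := by positivity
  have p3 : (0 : ℝ) < (n : ℝ) ^ ((5 : ℝ) / 48) := by positivity
  calc barm (1 / 2) r n = (c0 * (3 ^ ((5 : ℝ) / 48) * (r : ℝ) ^ ((5 : ℝ) / 48))⁻¹ *
        barm (1 / 2) r n) * ((3 ^ ((5 : ℝ) / 48) * (r : ℝ) ^ ((5 : ℝ) / 48)) / c0) := by
        field_simp
    _ ≤ (2 ^ 188 * (C0 * ((n : ℝ) ^ ((5 : ℝ) / 48))⁻¹)) *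
        ((3 ^ ((5 : ℝ) / 48) * (r : ℝ) ^ ((5 : ℝ) / 48)) / c0) :=
        mul_le_mul_of_nonneg_right h5 (by positivity)
    _ = 2 ^ 188 * (C0 / c0) * 3 ^ ((5 : ℝ) / 48) *
        ((r : ℝ) ^ ((5 : ℝ) / 48) / (n : ℝ) ^ ((5 : ℝ) / 48)) := by field_simp
    _ ≤ _ := by
        apply mul_le_mul_of_nonneg_right _ (by positivity)
        linarith

/-- The square of radius `j` around `c` is joined to distance `n`. -/
def SqA (c : Vtx) (j n : ℕ) (F : Finset Edg) : Prop :=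
  ∃ u v : Vtx, inR (c.1 - j) (c.1 + j) (c.2 - j) (c.2 + j) u ∧
    inR (c.1 - n) (c.1 + n) (c.2 - n) (c.2 + n) v ∧
    (v.1 = c.1 - n ∨ v.1 = c.1 + n ∨ v.2 = c.2 - n ∨ v.2 = c.2 + n) ∧
    Reach (↑F ∩ ↑(RE (c.1 - n) (c.1 + n) (c.2 - n) (c.2 + n))) u v

theorem pr_SqA (S : Finset Edg) (x : Vtx) (r n : ℕ) : P2 S (SqA x r n) ≤ barm (1 / 2) r n := by
  obtain ⟨a, b⟩ := x
  refine le_trans (Pr_mono okhalf2 (B := fun F => BArm r n ((trl (-a) (-b)).mp F)) ?_) ?_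
  · rintro F _ ⟨u, w, k0, k1, k2, k3⟩
    have h1 := (trl (-a) (-b)).reach k3
    rw [LSym.image_inter, trl_RE, trl_ψ, trl_ψ] at h1
    have e : RE (a - n + -a) (a + n + -a) (b - n + -b) (b + n + -b) = boxE n := by
      unfold boxE; congr 1 <;> ring
    rw [e] at h1
    refine ⟨_, _, ?_, ?_, h1⟩
    · unfold inR at k0 ⊢; simp only at k0 ⊢; omega
    · unfold onB inR at *; simp only at *; omega
  · exact Pr_shift_le (q := 1 / 2) (by norm_num) (by norm_num) (trl (-a) (-b)) S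
      (fun F G h hF => hF.mono h) (fun F => BArm_local (Finset.Subset.refl _))

/-- If one of two close faces is enclosed and the other is not, then there is an arm. -/
theorem near_arm {a : ℤ} {c f g : Vtx} {j n : ℕ} (hjn : j ≤ n) (hn : (n : ℤ) ≤ c.2)
    (hf : inR (c.1 - j) (c.1 + j) (c.2 - j) (c.2 + j) f)
    (hg : inR (c.1 - j) (c.1 + j) (c.2 - j) (c.2 + j) g) {ω : sqLattice.edgeSet → Bool}
    (h : ¬ (Lft a f (opn ω) ↔ Lft a g (opn ω))) :
    SqA c j n (FF (RE (c.1 - n) (c.1 + n) (c.2 - n) (c.2 + n)) ω) := by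
  by_contra hcon
  apply h
  apply Lft_near (c := c) (j := j) (by omega) ?_ hf hg
  intro s v hs hv hr
  apply hcon
  obtain ⟨w, hw1, hw2, hw3⟩ := first_exit (a := c.1 - n) (b := c.1 + n) (c := c.2 - n)
    (d := c.2 + n) (u := v) (v := (s, 0)) (G := opn ω ∩ up)
    (by unfold inR at hv ⊢; omega) hr.symm (by
      right; right; left
      show (0:ℤ) ≤ c.2 - n
      omega)
  refine ⟨v, w, hv, hw1, hw2, ?_⟩
  rw [FF_coe, Set.inter_assoc, Set.inter_self]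
  exact hw3.mono (Set.inter_subset_inter_left _ Set.inter_subset_left)

theorem ind_le {E E' : Set (sqLattice.edgeSet → Bool)} (hE : MeasurableSet E)
    (hE' : MeasurableSet E') : |(bondLaw half).real E - (bondLaw half).real E'| ≤
    (bondLaw half).real {ω | ¬ (ω ∈ E ↔ ω ∈ E')} := by
  have e : {ω | ¬ (ω ∈ E ↔ ω ∈ E')} = (E \ E') ∪ (E' \ E) := by
    ext ω
    simp only [Set.mem_ofPred_eq, Set.mem_union, Set.mem_sdiff]
    tauto
  have h1 : (bondLaw half).real E ≤ (bondLaw half).real E' + (bondLaw half).real (E \ E') := by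
    refine (measureReal_mono (s₂ := E' ∪ (E \ E')) ?_ (measure_ne_top _ _)).trans
      (measureReal_union_le _ _)
    intro ω hω
    by_cases h : ω ∈ E'
    · exact Or.inl h
    · exact Or.inr ⟨hω, h⟩
  have h2 : (bondLaw half).real E' ≤ (bondLaw half).real E + (bondLaw half).real (E' \ E) := by
    refine (measureReal_mono (s₂ := E ∪ (E' \ E)) ?_ (measure_ne_top _ _)).trans
      (measureReal_union_le _ _)
    intro ω hω
    by_cases h : ω ∈ E
    · exact Or.inl h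
    · exact Or.inr ⟨hω, h⟩
  have h3 : (bondLaw half).real (E \ E') ≤ (bondLaw half).real {ω | ¬ (ω ∈ E ↔ ω ∈ E')} := by
    rw [e]
    exact measureReal_mono Set.subset_union_left (measure_ne_top _ _)
  have h4 : (bondLaw half).real (E' \ E) ≤ (bondLaw half).real {ω | ¬ (ω ∈ E ↔ ω ∈ E')} := by
    rw [e]
    exact measureReal_mono Set.subset_union_right (measure_ne_top _ _)
  rw [abs_le]
  constructor <;> linarith

/-- Hölder bound for the probability. -/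
theorem sp_near : ∃ C : ℝ, 0 < C ∧ ∀ x y x' y' : ℤ, ∀ j : ℕ, 1 ≤ j → 8 * (j : ℤ) ≤ y →
    |x - x'| ≤ j → |y - y'| ≤ j → |sp x y - sp x' y'| ≤ C * ((j : ℝ) / y) ^ ((5 : ℝ) / 48) := by
  obtain ⟨C, hC, hb⟩ := barm_up
  refine ⟨2 * C, by positivity, ?_⟩
  intro x y x' y' j hj hjy hx hy
  rw [abs_le] at hx hy
  obtain ⟨n, hn⟩ : ∃ n : ℕ, (n : ℤ) = y := ⟨y.toNat, by omega⟩
  have h1 := ind_le (LE_meas 0 (x, y)) (LE_meas 0 (x', y'))
  refine h1.trans ?_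
  have h2 : {ω | ¬ (ω ∈ LE 0 (x, y) ↔ ω ∈ LE 0 (x', y'))} ⊆
      {ω | SqA (x, y) j n (FF (RE (x - n) (x + n) (y - n) (y + n)) ω)} := by
    intro ω hω
    refine near_arm (c := (x, y)) (by omega) (by show (n:ℤ) ≤ y; omega) ?_ ?_ hω
    · unfold inR; simp only; omega
    · unfold inR; simp only; omega
  refine (measureReal_mono h2 (measure_ne_top _ _)).trans ?_
  rw [real_event]
  refine (pr_SqA _ _ _ _).trans ((hb j n hj (by omega)).trans ?_)
  have e : (n : ℝ) = y := by exact_mod_cast hn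
  rw [e]
  have hy0 : (0:ℝ) < y := by exact_mod_cast (by omega : (0:ℤ) < y)
  have : (0:ℝ) ≤ ((j : ℝ) / y) ^ ((5 : ℝ) / 48) := by positivity
  nlinarith

/-- Hölder bound for the difference. -/
theorem df_near : ∃ C : ℝ, 0 < C ∧ ∀ x y x' y' : ℤ, ∀ j : ℕ, 1 ≤ j → 8 * (j : ℤ) ≤ y →
    |x - x'| ≤ j → |y - y'| ≤ j →
    |df x y - df x' y'| ≤ C / y * ((j : ℝ) / y) ^ ((5 : ℝ) / 48) := by
  obtain ⟨C, hC, hb⟩ := barm_up
  obtain ⟨C1, hC1, ht⟩ := tau_le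
  refine ⟨32 * C1 * C, by positivity, ?_⟩
  intro x y x' y' j hj hjy hx hy
  rw [abs_le] at hx hy
  obtain ⟨n, hn⟩ : ∃ n : ℕ, n = y.toNat / 2 := ⟨_, rfl⟩
  obtain ⟨r, hr⟩ : ∃ r : ℤ, r = nm x y / 8 := ⟨_, rfl⟩
  have hny : (n : ℤ) = y / 2 := by omega
  have hnm1 : y ≤ nm x y := le_max_right _ _
  have hnm2 : |x| ≤ nm x y := le_max_left _ _
  have hnm3 : nm x y = |x| ∨ nm x y = y := max_choice _ _
  have hax := abs_cases x
  have hr1 : 1 ≤ r := by omega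
  have h1 := ind_le (DE_meas 0 (x, y)) (DE_meas 0 (x', y'))
  refine h1.trans ?_
  obtain ⟨A2, hA2⟩ : ∃ A2, A2 = RE (x - n) (x + n) (y - n) (y + n) := ⟨_, rfl⟩
  have hd : Disjoint (HB 0 r) A2 := by
    rw [Finset.disjoint_left]
    intro e he1 he2
    rw [hA2] at he2
    have g1 := (RE_ends he1).1
    have g2 := (RE_ends he2).1
    simp only [inR] at g1 g2
    omega
  have key := le2 (E := {ω | ¬ (ω ∈ DE 0 (x, y) ↔ ω ∈ DE 0 (x', y'))}) hd
    (fun F => TL 0 r F) (fun F => SqA (x, y) j n F)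
    (fun ω hω => by
      have h2 : ω ∈ DE 0 (x, y) ∨ ω ∈ DE 0 (x', y') := by
        have hω' : ¬ (ω ∈ DE 0 (x, y) ↔ ω ∈ DE 0 (x', y')) := hω
        tauto
      rcases h2 with h2 | h2
      · refine DE_tip (by omega) (by show (0:ℤ) ≤ y; omega) ?_ h2
        show x < 0 - r ∨ 0 + r ≤ x ∨ r ≤ y
        omega
      · refine DE_tip (by omega) (by show (0:ℤ) ≤ y'; omega) ?_ h2
        show x' < 0 - r ∨ 0 + r ≤ x' ∨ r ≤ y'
        omega)
    (fun ω hω => by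
      have h2 : ¬ (Lft 0 (x, y) (opn ω) ↔ Lft 0 (x', y') (opn ω)) ∨
          ¬ (Lft (0 - 1) (x, y) (opn ω) ↔ Lft (0 - 1) (x', y') (opn ω)) := by
        by_contra hcon
        push Not at hcon
        obtain ⟨q1, q2⟩ := hcon
        exact hω (and_congr q1 (not_congr q2))
      rw [hA2]
      rcases h2 with h2 | h2
      · refine near_arm (c := (x, y)) (by omega) (by show (n:ℤ) ≤ y; omega) ?_ ?_ h2
        · unfold inR; simp only; omega
        · unfold inR; simp only; omega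
      · refine near_arm (c := (x, y)) (by omega) (by show (n:ℤ) ≤ y; omega) ?_ ?_ h2
        · unfold inR; simp only; omega
        · unfold inR; simp only; omega)
  refine key.trans ?_
  rw [pr_TL (Finset.Subset.refl _)]
  have hr0 : (0:ℝ) < r := by exact_mod_cast (by omega : (0:ℤ) < r)
  have hy0 : (0:ℝ) < y := by exact_mod_cast (by omega : (0:ℤ) < y)
  have hn0 : (0:ℝ) < n := by exact_mod_cast (by omega : 0 < n)
  have hj0 : (0:ℝ) < j := by exact_mod_cast hj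
  have b1 : tau r ≤ 16 * C1 / y := by
    refine (ht r hr1).trans ?_
    rw [div_le_div_iff₀ hr0 hy0]
    have : (y:ℝ) ≤ 16 * r := by exact_mod_cast (by omega : y ≤ 16 * r)
    nlinarith
  have b2 : P2 A2 (fun F => SqA (x, y) j n F) ≤ 2 * C * ((j : ℝ) / y) ^ ((5 : ℝ) / 48) := by
    refine (pr_SqA _ _ _ _).trans ((hb j n hj (by omega)).trans ?_)
    have h3 : (j : ℝ) / n ≤ 4 * ((j : ℝ) / y) := by
      rw [mul_div_assoc', div_le_div_iff₀ hn0 hy0]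
      have : (y:ℝ) ≤ 4 * n := by exact_mod_cast (by omega : y ≤ 4 * n)
      nlinarith
    have h4 : ((j : ℝ) / n) ^ ((5 : ℝ) / 48) ≤ 2 * ((j : ℝ) / y) ^ ((5 : ℝ) / 48) := by
      calc ((j : ℝ) / n) ^ ((5 : ℝ) / 48) ≤ (4 * ((j : ℝ) / y)) ^ ((5 : ℝ) / 48) :=
            Real.rpow_le_rpow (by positivity) h3 (by norm_num)
        _ = 4 ^ ((5 : ℝ) / 48) * ((j : ℝ) / y) ^ ((5 : ℝ) / 48) :=
            Real.mul_rpow (by norm_num) (by positivity)
        _ ≤ 2 * ((j : ℝ) / y) ^ ((5 : ℝ) / 48) := by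
            apply mul_le_mul_of_nonneg_right _ (by positivity)
            calc (4:ℝ) ^ ((5 : ℝ) / 48) ≤ 4 ^ ((1 : ℝ) / 2) :=
                  Real.rpow_le_rpow_of_exponent_le (by norm_num) (by norm_num)
              _ = 2 := by
                  rw [show (4:ℝ) = 2 ^ (2:ℝ) by norm_num, ← Real.rpow_mul (by norm_num)]
                  norm_num
    calc C * ((j : ℝ) / n) ^ ((5 : ℝ) / 48) ≤ C * (2 * ((j : ℝ) / y) ^ ((5 : ℝ) / 48)) :=
          mul_le_mul_of_nonneg_left h4 hC.le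
      _ = _ := by ring
  calc tau r * P2 A2 (fun F => SqA (x, y) j n F)
      ≤ (16 * C1 / y) * (2 * C * ((j : ℝ) / y) ^ ((5 : ℝ) / 48)) :=
        mul_le_mul b1 b2 (Pr_nonneg okhalf2 _ _) (by positivity)
    _ = 32 * C1 * C / y * ((j : ℝ) / y) ^ ((5 : ℝ) / 48) := by ring

end Pool.Agent.U167.LP
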