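import Pool.Agent.U167.LP.Lft
import Pool.Agent.U167.HP.Arr2

/-!
The probability that a face is enclosed: measurability, translation invariance, monotonicity, and
the bound by the probability of a tip.
-/

set_option maxHeartbeats 1000000

namespace Pool.Agent.U167.LP

open H974 H731C Finset Pool.Agent.U167.HP MeasureTheory

variable {a a' : ℤ} {f g : Vtx} {G H : Set Edg}

theorem PR_N {φ : Edg → Bool} {u v : Vtx} {b : Bool} (h : PR φ (G ∩ up) u v b) :
    ∃ N : ℕ, PR φ (G ∩ ↑(RE (-(N:ℤ)) N 0 N)) u v b := by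
  have key : ∀ q : Vtx × Bool, Relation.ReflTransGen (Adj2 φ (G ∩ up)) (u, false) q →
      ∃ N : ℕ, PR φ (G ∩ ↑(RE (-(N:ℤ)) N 0 N)) u q.1 q.2 := by
    intro q h
    induction h with
    | refl => exact ⟨0, PR.refl⟩
    | @tail p q _ hs ih =>
      obtain ⟨N, hN⟩ := ih
      obtain ⟨⟨x, y, bo⟩, ⟨he, hup⟩, hcase, h2⟩ := hs
      have hy : 0 ≤ y := hup
      obtain ⟨M, hM1, hM2⟩ : ∃ M : ℕ, N ≤ M ∧ (x.natAbs + y.natAbs + 1) ≤ M :=
        ⟨N + (x.natAbs + y.natAbs + 1), by omega, by omega⟩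
      refine ⟨M, ?_⟩
      rw [h2]
      refine PR.tail' (hN.mono ?_) ⟨he, ?_⟩ hcase
      · apply Set.inter_subset_inter_right
        have := RE_mono' (N := N) (M := M) (by omega)
        exact_mod_cast this
      · cases bo
        · rw [mem_coe, mem_RE_false]; omega
        · rw [mem_coe, mem_RE_true]; omega
  exact key _ h

theorem Lft_iff_N : Lft a f G ↔ ∃ s t : ℤ, ∃ N : ℕ, (s ≤ a ∧ t ≤ a) ∧
    PR (cr f) (G ∩ ↑(RE (-(N:ℤ)) N 0 N)) (s, 0) (t, 0) true := by
  constructor
  · rintro ⟨s, t, hs, ht, hp⟩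
    obtain ⟨N, hN⟩ := PR_N hp
    exact ⟨s, t, N, ⟨hs, ht⟩, hN⟩
  · rintro ⟨s, t, N, ⟨hs, ht⟩, hp⟩
    exact ⟨s, t, hs, ht, hp.mono (Set.inter_subset_inter_right _ (RE_up N))⟩

/-- The event that `f` is enclosed. -/
def LE (a : ℤ) (f : Vtx) : Set (sqLattice.edgeSet → Bool) := {ω | Lft a f (opn ω)}

theorem LE_meas (a : ℤ) (f : Vtx) : MeasurableSet (LE a f) := by
  have : LE a f = ⋃ s : ℤ, ⋃ t : ℤ, ⋃ N : ℕ, {ω | (s ≤ a ∧ t ≤ a) ∧
      (fun F : Finset Edg => PR (cr f) (↑F : Set Edg) (s, 0) (t, 0) true)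
        (FF (RE (-(N:ℤ)) N 0 N) ω)} := by
    ext ω
    simp only [Set.mem_iUnion, Set.mem_ofPred_eq]
    show Lft a f (opn ω) ↔ _
    rw [Lft_iff_N]
    simp only [FF_coe]
  rw [this]
  refine MeasurableSet.iUnion (fun s => MeasurableSet.iUnion (fun t => MeasurableSet.iUnion
    (fun N => ?_)))
  by_cases h2 : s ≤ a ∧ t ≤ a
  · simp only [h2, true_and]
    exact meas_event (RE (-(N:ℤ)) N 0 N)
      (fun F : Finset Edg => PR (cr f) (↑F : Set Edg) (s, 0) (t, 0) true)
  · simp only [h2, false_and]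
    exact MeasurableSet.empty

theorem LE_mono {f : Vtx} (h : a ≤ a') : LE a f ⊆ LE a' f := fun _ hω => Lft.mono_a hω h

/-! ### Translations -/

/-- The shift of the edges. -/
def shE (s : ℤ) (e : Edg) : Edg := (e.1 + s, e.2)

theorem toE_shE (s : ℤ) (e : Edg) : toE (shE s e) = R752GL.TI.she s (toE e) := by
  apply Subtype.ext
  obtain ⟨x, y, _ | _⟩ := e
  · show s(src (x + s, y, false), tgt (x + s, y, false)) = Sym2.map _ s(src (x, y, false), tgt (x, y, false))
    rw [Sym2.map_mk]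
    rfl
  · show s(src (x + s, y, true), tgt (x + s, y, true)) = Sym2.map _ s(src (x, y, true), tgt (x, y, true))
    rw [Sym2.map_mk]
    show s((x + s, y), (x + s + 1, y)) = s((x + s, y), (x + 1 + s, y))
    rw [show x + s + 1 = x + 1 + s by ring]

theorem mem_opn_tr (s : ℤ) (ω : sqLattice.edgeSet → Bool) (e : Edg) :
    shE s e ∈ opn (R752GL.TI.tr s ω) ↔ e ∈ opn ω := by
  show R752GL.TI.tr s ω (toE (shE s e)) = true ↔ ω (toE e) = true
  rw [toE_shE, R752GL.TI.tr_apply]

theorem PR.map {φ ψ : Edg → Bool} {u v : Vtx} {b : Bool} (m : Vtx → Vtx) (k : Edg → Edg)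
    (h : PR φ G u v b) (hk : ∀ e ∈ G, k e ∈ H ∧ src (k e) = m (src e) ∧ tgt (k e) = m (tgt e) ∧
      ψ (k e) = φ e) : PR ψ H (m u) (m v) b := by
  have key : ∀ q : Vtx × Bool, Relation.ReflTransGen (Adj2 φ G) (u, false) q →
      PR ψ H (m u) (m q.1) q.2 := by
    intro q h
    induction h with
    | refl => exact PR.refl
    | @tail p q _ hs ih =>
      obtain ⟨e, he, h1, h2⟩ := hs
      obtain ⟨k1, k2, k3, k4⟩ := hk e he
      rw [h2, ← k4]
      refine ih.tail' k1 ?_
      rw [k2, k3]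
      rcases h1 with ⟨h3, h4⟩ | ⟨h3, h4⟩
      · left; rw [h3, h4]; exact ⟨rfl, rfl⟩
      · right; rw [h3, h4]; exact ⟨rfl, rfl⟩
  exact key _ h

theorem Lft_tr_le {s : ℤ} {x y : ℤ} {G H : Set Edg} (hGH : ∀ e ∈ G, shE s e ∈ H)
    (h : Lft a (x, y) G) : Lft (a + s) (x + s, y) H := by
  obtain ⟨i, j, hi, hj, hp⟩ := h
  refine ⟨i + s, j + s, by omega, by omega, ?_⟩
  refine hp.map (fun u => (u.1 + s, u.2)) (shE s) ?_
  rintro ⟨x', y', b⟩ ⟨he1, he2⟩
  refine ⟨⟨hGH _ he1, he2⟩, rfl, ?_, ?_⟩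
  · cases b
    · rfl
    · show ((x' + s + 1, y') : Vtx) = (x' + 1 + s, y')
      rw [show x' + s + 1 = x' + 1 + s by ring]
  · cases b
    · show cr (x + s, y) (x' + s, y', false) = cr (x, y) (x', y', false)
      rw [cr_false, cr_false]
      apply decide_eq_decide.mpr
      simp only
      omega
    · show cr (x + s, y) (x' + s, y', true) = cr (x, y) (x', y', true)
      rw [cr_true, cr_true]

theorem LE_tr (s : ℤ) (ω : sqLattice.edgeSet → Bool) (a x y : ℤ) :
    R752GL.TI.tr s ω ∈ LE (a + s) (x + s, y) ↔ ω ∈ LE a (x, y) := by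
  constructor
  · intro h
    have h2 : Lft (a + s + -s) (x + s + -s, y) (opn ω) := by
      refine Lft_tr_le (s := -s) (G := opn (R752GL.TI.tr s ω)) ?_ h
      rintro ⟨x', y', b⟩ he
      rw [← mem_opn_tr s]
      show ((x' + -s + s, y', b) : Edg) ∈ _
      rw [neg_add_cancel_right]
      exact he
    rw [add_neg_cancel_right, add_neg_cancel_right] at h2
    exact h2
  · intro h
    exact Lft_tr_le (fun e he => (mem_opn_tr s ω e).mpr he) h

theorem LE_shift (s a x y : ℤ) :
    (bondLaw half).real (LE (a + s) (x + s, y)) = (bondLaw half).real (LE a (x, y)) := by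
  have h1 : R752GL.TI.tr s ⁻¹' (LE (a + s) (x + s, y)) = LE a (x, y) := by
    ext ω
    exact LE_tr s ω a x y
  have h2 : (bondLaw half) (LE (a + s) (x + s, y)) = (bondLaw half) (LE a (x, y)) := by
    conv_lhs => rw [← R752GL.TI.map_tr s half]
    rw [MeasurableEquiv.map_apply, h1]
  rw [measureReal_def, measureReal_def, h2]

/-- The probability that the face `(x, y)` is enclosed, if the path starts at `0`. -/
noncomputable def sp (x y : ℤ) : ℝ := (bondLaw half).real (LE 0 (x, y))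

theorem sp_nonneg (x y : ℤ) : 0 ≤ sp x y := measureReal_nonneg

theorem sp_le_one (x y : ℤ) : sp x y ≤ 1 := measureReal_le_one

theorem sp_eq (a x y : ℤ) : (bondLaw half).real (LE a (x, y)) = sp (x - a) y := by
  have := LE_shift a 0 (x - a) y
  rw [zero_add, sub_add_cancel] at this
  exact this

/-- The event that the starting point matters. -/
def DE (v : ℤ) (f : Vtx) : Set (sqLattice.edgeSet → Bool) := LE v f \ LE (v - 1) f

theorem DE_meas (v : ℤ) (f : Vtx) : MeasurableSet (DE v f) := (LE_meas v f).diff (LE_meas _ f)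

/-- The difference of the probabilities. -/
noncomputable def df (x y : ℤ) : ℝ := (bondLaw half).real (DE 0 (x, y))

theorem df_nonneg (x y : ℤ) : 0 ≤ df x y := measureReal_nonneg

theorem DE_real (v x y : ℤ) : (bondLaw half).real (DE v (x, y)) = sp (x - v) y - sp (x - v + 1) y := by
  unfold DE
  have h := measureReal_diff (μ := bondLaw half) (s₁ := LE v (x, y)) (s₂ := LE (v - 1) (x, y))
    (LE_mono (by omega)) (LE_meas _ _)
  rw [h, sp_eq, sp_eq]
  congr 2
  ring

theorem df_eq (x y : ℤ) : df x y = sp x y - sp (x + 1) y := by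
  have := DE_real 0 x y
  rw [sub_zero] at this
  exact this

theorem DE_df (v x y : ℤ) : (bondLaw half).real (DE v (x, y)) = df (x - v) y := by
  rw [DE_real, df_eq]

theorem sp_anti {x x' y : ℤ} (h : x ≤ x') : sp x' y ≤ sp x y := by
  have h1 := sp_eq (x - x') x y
  rw [show x - (x - x') = x' by ring] at h1
  rw [← h1]
  exact measureReal_mono (LE_mono (by omega)) (measure_ne_top _ _)

/-- Sums of differences. -/
theorem sum_df (y : ℤ) (n : ℕ) : ∀ x : ℤ, ∑ i ∈ Finset.range n, df (x + i) y = sp x y - sp (x + n) y := by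
  induction n with
  | zero =>
    intro x
    simp
  | succ n ih =>
    intro x
    rw [Finset.sum_range_succ, ih, df_eq]
    push_cast
    rw [show x + ((n : ℤ) + 1) = x + n + 1 by ring]
    ring

theorem DE_tip {v r : ℤ} {f : Vtx} (hr : 0 ≤ r) (hy : 0 ≤ f.2)
    (hf : f.1 < v - r ∨ v + r ≤ f.1 ∨ r ≤ f.2) {ω : sqLattice.edgeSet → Bool} (h : ω ∈ DE v f) :
    TL v r (FF (HB v r) ω) := TL_of (tip_of hr hy hf h.1 h.2)

theorem real_event (S : Finset Edg) (Q : Finset Edg → Prop) :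
    (bondLaw half).real {ω | Q (FF S ω)} = P2 S Q := law_event half S Q

/-- The size of `(x, y)`. -/
def nm (x y : ℤ) : ℤ := max |x| y

/-- The bound for the difference. -/
theorem df_le : ∃ C : ℝ, 0 < C ∧ ∀ x y : ℤ, 0 ≤ y → df x y ≤ C / (nm x y + 1) := by
  obtain ⟨C, hC, ht⟩ := tau_le
  refine ⟨2 * C + 2, by positivity, ?_⟩
  intro x y hy
  have hn0 : 0 ≤ nm x y := le_max_of_le_right hy
  have hnr : (0:ℝ) < (nm x y : ℝ) + 1 := by
    have : (0:ℝ) ≤ (nm x y : ℝ) := by exact_mod_cast hn0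
    linarith
  rw [le_div_iff₀ hnr]
  rcases le_or_gt (nm x y) 1 with h | h
  · have h1 : df x y ≤ 1 := measureReal_le_one
    have h2 : (nm x y : ℝ) ≤ 1 := by exact_mod_cast h
    nlinarith [df_nonneg x y]
  · set r : ℤ := nm x y - 1 with hr
    have hr1 : 1 ≤ r := by omega
    have hf : x < 0 - r ∨ 0 + r ≤ x ∨ r ≤ y := by
      have h3 : nm x y = |x| ∨ nm x y = y := max_choice _ _
      rcases h3 with h3 | h3
      · rcases abs_cases x with ⟨h4, h5⟩ | ⟨h4, h5⟩
        · right; left; omega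
        · left; omega
      · right; right; omega
    have h1 : df x y ≤ tau r := by
      have h2 : DE 0 (x, y) ⊆ {ω | TL 0 r (FF (HB 0 r) ω)} := fun ω hω =>
        DE_tip (by omega) hy hf hω
      have h3 := measureReal_mono (μ := bondLaw half) h2 (measure_ne_top _ _)
      rw [real_event, pr_TL (Finset.Subset.refl _)] at h3
      exact h3
    have h4 := ht r hr1
    have hr0 : (0:ℝ) < r := by exact_mod_cast (by omega : (0:ℤ) < r)
    have h5 : (nm x y : ℝ) + 1 ≤ 3 * r := by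
      have : nm x y + 1 ≤ 3 * r := by omega
      exact_mod_cast this
    have h6 : tau r * r ≤ C := by
      rw [le_div_iff₀ hr0] at h4
      exact h4
    have ht0 := tau_nonneg r
    calc df x y * ((nm x y : ℝ) + 1) ≤ tau r * ((nm x y : ℝ) + 1) :=
          mul_le_mul_of_nonneg_right h1 hnr.le
      _ ≤ 2 * C + 2 := by
          have h7 : (nm x y : ℝ) + 1 = r + 2 := by
            rw [hr]; push_cast; ring
          rw [h7]
          have h8 : tau r ≤ 1 := Pr_le_one okhalf2 _ _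
          nlinarith

end Pool.Agent.U167.LP
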