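import Pool.Agent.U167.LP.Par

/-!
The faces on the left of the exploration path: topological lemmas.
-/

set_option maxHeartbeats 1000000

namespace Pool.Agent.U167.LP

open H974 H731C Finset Pool.Agent.U167.HP

/-- The edge crosses the half-line from the centre of the face `f` to the right. -/
def cr (f : Vtx) (e : Edg) : Bool := decide (e.2.2 = false ∧ e.2.1 = f.2 ∧ f.1 < e.1)

/-- The face `f` is enclosed by an open walk between two vertices `(s, 0)`, `(t, 0)`, `s, t ≤ a`. -/
def Lft (a : ℤ) (f : Vtx) (G : Set Edg) : Prop :=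
  ∃ s t, s ≤ a ∧ t ≤ a ∧ PR (cr f) (G ∩ up) (s, 0) (t, 0) true

variable {a a' : ℤ} {f g : Vtx} {G H : Set Edg}

theorem Lft.mono_a (h : Lft a f G) (ha : a ≤ a') : Lft a' f G := by
  obtain ⟨s, t, hs, ht, hp⟩ := h
  exact ⟨s, t, hs.trans ha, ht.trans ha, hp⟩

theorem Lft.mono (h : Lft a f G) (hGH : G ⊆ H) : Lft a f H := by
  obtain ⟨s, t, hs, ht, hp⟩ := h
  exact ⟨s, t, hs, ht, hp.mono (Set.inter_subset_inter_left _ hGH)⟩

theorem cr_false (f : Vtx) (x y : ℤ) : cr f (x, y, false) = decide (y = f.2 ∧ f.1 < x) := by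
  simp [cr]

theorem cr_true (f : Vtx) (x y : ℤ) : cr f (x, y, true) = false := by
  simp [cr]

/-- inside a half-box which does not contain `f` the parity is trivial -/
theorem cob_box {v r : ℤ} (hf : f.1 < v - r ∨ v + r ≤ f.1 ∨ r ≤ f.2) :
    ∃ A : Vtx → Bool, (∀ e ∈ (↑(HB v r) : Set Edg), cr f e = xor (A (src e)) (A (tgt e))) ∧
      (0 ≤ f.2 → ∀ i : ℤ, A (i, 0) = false) := by
  by_cases h : f.1 < v - r
  · refine ⟨fun u => decide (f.2 < u.2), ?_, ?_⟩
    · rintro ⟨x, y, _ | _⟩ he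
      · rw [mem_coe, mem_RE_false] at he
        rw [cr_false, src_mk, tgt_false]
        by_cases h1 : f.2 < y
        · have : ¬ (y = f.2 ∧ f.1 < x) := by omega
          have h2 : f.2 < y + 1 := by omega
          simp [this, h1, h2]
        · by_cases h2 : y = f.2
          · have h3 : f.1 < x := by omega
            simp [h2, h3]
          · have h3 : ¬ f.2 < y + 1 := by omega
            simp [h1, h2, h3]
      · rw [cr_true, src_mk, tgt_true]
        simp
    · intro h0 i
      simp only [decide_eq_false_iff_not]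
      omega
  · refine ⟨fun _ => false, ?_, fun _ _ => rfl⟩
    rintro ⟨x, y, _ | _⟩ he
    · rw [mem_coe, mem_RE_false] at he
      rw [cr_false]
      have : ¬ (y = f.2 ∧ f.1 < x) := by omega
      simp [this]
    · rw [cr_true]
      rfl

/-- **The tip.** If `f` is enclosed after the starting point has been moved to `v`, but not
before, then there is a tip at `v`. -/
theorem tip_of {v r : ℤ} (hr : 0 ≤ r) (hy : 0 ≤ f.2)
    (hf : f.1 < v - r ∨ v + r ≤ f.1 ∨ r ≤ f.2) (h1 : Lft v f G) (h2 : ¬ Lft (v - 1) f G) :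
    tipL v r G := by
  by_contra hT
  obtain ⟨A, hA1, hA2⟩ := cob_box (v := v) (r := r) hf
  have hA3 := hA2 hy
  have hpar : ∀ {w : ℤ} {b : Bool}, PR (cr f) (G ∩ ↑(HB v r)) (v, 0) (w, 0) b → b = false := by
    intro w b h
    have := h.cob A (fun e he => hA1 e he.2)
    rw [this, hA3, hA3]
    rfl
  have hHB : G ∩ (↑(HB v r) : Set Edg) ⊆ G ∩ up := by
    rintro ⟨x, y, _ | _⟩ ⟨h1, h2⟩
    · refine ⟨h1, ?_⟩
      rw [mem_coe, mem_RE_false] at h2
      show 0 ≤ y
      omega
    · refine ⟨h1, ?_⟩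
      rw [mem_coe, mem_RE_true] at h2
      show 0 ≤ y
      omega
  obtain ⟨s, t, hs, ht, hp⟩ := h1
  by_cases hex : ∃ w, v - r ≤ w ∧ w < v ∧ Reach (G ∩ ↑(HB v r)) (v, 0) (w, 0)
  · obtain ⟨w, hw1, hw2, hw3⟩ := hex
    obtain ⟨b, hb⟩ := exists_PR (cr f) hw3
    have hb0 := hpar hb
    subst hb0
    have hb' := hb.mono hHB
    -- replace `v` by `w`
    have e1 : ∃ s', s' ≤ v - 1 ∧ PR (cr f) (G ∩ up) (s', 0) (t, 0) true := by
      by_cases h : s = v
      · subst h
        refine ⟨w, by omega, ?_⟩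
        have := hb'.symm.trans hp
        simpa using this
      · exact ⟨s, by omega, hp⟩
    obtain ⟨s', hs', hp'⟩ := e1
    apply h2
    by_cases h : t = v
    · subst h
      refine ⟨s', w, hs', by omega, ?_⟩
      have := hp'.trans hb'
      simpa using this
    · exact ⟨s', t, hs', by omega, hp'⟩
  · push Not at hex
    have hno : ∀ u, onH v 0 r u → ¬ Reach (G ∩ ↑(HB v r)) (v, 0) u := by
      intro u hu hreach
      exact hT ⟨⟨u, hu, hreach⟩, hex⟩
    by_cases h : s = v
    · subst h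
      have := hpar (stay hr hno hp)
      simp at this
    · by_cases h' : t = v
      · subst h'
        have := hpar (stay hr hno hp.symm)
        simp at this
      · exact h2 ⟨s, t, by omega, by omega, hp⟩

/-- The edges of the clusters of the `(s, 0)`, `s ≤ a`. -/
def CE (a : ℤ) (G : Set Edg) : Set Edg := {e | e ∈ G ∩ up ∧ ∃ s, s ≤ a ∧ Reach (G ∩ up) (s, 0) (src e)}

theorem CE_sub : CE a G ⊆ G ∩ up := fun _ h => h.1

theorem PR.toCE {φ : Edg → Bool} {s : ℤ} (hs : s ≤ a) {w : Vtx} {b : Bool}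
    (h : PR φ (G ∩ up) (s, 0) w b) : PR φ (CE a G) (s, 0) w b := by
  have key : ∀ q : Vtx × Bool, Relation.ReflTransGen (Adj2 φ (G ∩ up)) ((s, 0), false) q →
      Reach (G ∩ up) (s, 0) q.1 ∧ PR φ (CE a G) (s, 0) q.1 q.2 := by
    intro q h
    induction h with
    | refl => exact ⟨Reach.refl _ _, PR.refl⟩
    | @tail p q _ hs ih =>
      obtain ⟨e, he, h1, h2⟩ := hs
      obtain ⟨ih1, ih2⟩ := ih
      have h3 : Reach (G ∩ up) (s, 0) q.1 := ih1.tail ⟨e, he, h1⟩
      refine ⟨h3, ?_⟩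
      have h4 : e ∈ CE a G := by
        refine ⟨he, s, by assumption, ?_⟩
        rcases h1 with ⟨h5, -⟩ | ⟨h5, -⟩
        · rw [h5]; exact ih1
        · rw [h5]; exact h3
      rw [h2]
      exact ih2.tail' h4 h1
  exact (key _ h).2

theorem Lft_iff_CE : Lft a f G ↔ ∃ s t, s ≤ a ∧ t ≤ a ∧ PR (cr f) (CE a G) (s, 0) (t, 0) true := by
  constructor
  · rintro ⟨s, t, hs, ht, hp⟩
    exact ⟨s, t, hs, ht, hp.toCE hs⟩
  · rintro ⟨s, t, hs, ht, hp⟩
    exact ⟨s, t, hs, ht, hp.mono CE_sub⟩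

/-- the change from one face to another -/
theorem Lft_change (A : Vtx → Bool)
    (hA : ∀ e ∈ CE a G, cr g e = xor (cr f e) (xor (A (src e)) (A (tgt e))))
    (hA0 : ∀ s, s ≤ a → A (s, 0) = false) : Lft a f G ↔ Lft a g G := by
  rw [Lft_iff_CE, Lft_iff_CE]
  constructor
  · rintro ⟨s, t, hs, ht, hp⟩
    refine ⟨s, t, hs, ht, ?_⟩
    have := hp.change (ψ := cr g) A hA
    rw [hA0 s hs, hA0 t ht] at this
    simpa using this
  · rintro ⟨s, t, hs, ht, hp⟩
    refine ⟨s, t, hs, ht, ?_⟩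
    have := hp.change (ψ := cr f) A (by
      intro e he
      rw [hA e he, Bool.xor_assoc, Bool.xor_self, Bool.xor_false])
    rw [hA0 s hs, hA0 t ht] at this
    simpa using this

/-- horizontal neighbours -/
theorem Lft_right {x y : ℤ} (h : ((x + 1, y, false) : Edg) ∉ CE a G) :
    Lft a (x, y) G ↔ Lft a (x + 1, y) G := by
  apply Lft_change (fun _ => false)
  · rintro ⟨x', y', _ | _⟩ he
    · rw [cr_false, cr_false]
      simp only [Bool.xor_false]
      apply decide_eq_decide.mpr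
      have : ¬ (x' = x + 1 ∧ y' = y) := by
        rintro ⟨rfl, rfl⟩
        exact h he
      omega
    · rw [cr_true, cr_true]
      rfl
  · intro _ _
    rfl

/-- vertical neighbours -/
theorem Lft_up {x y : ℤ} (hy : 0 ≤ y) (h : ((x, y + 1, true) : Edg) ∉ CE a G) :
    Lft a (x, y) G ↔ Lft a (x, y + 1) G := by
  apply Lft_change (fun u => decide (u.2 = y + 1 ∧ x < u.1))
  · rintro ⟨x', y', _ | _⟩ he
    · rw [cr_false, cr_false, src_mk, tgt_false]
      simp only
      by_cases h1 : x < x'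
      · by_cases h2 : y' = y
        · have e1 : ¬ y' = y + 1 := by omega
          have e2 : y' + 1 = y + 1 := by omega
          simp [h1, h2]
        · have e2 : ¬ y' + 1 = y + 1 := by omega
          simp [h1, h2]
      · simp [h1]
    · rw [cr_true, cr_true, src_mk, tgt_true]
      simp only [Bool.false_xor]
      have : ¬ (x' = x ∧ y' = y + 1) := by
        rintro ⟨rfl, rfl⟩
        exact h he
      by_cases h2 : y' = y + 1
      · have h3 : x < x' ↔ x < x' + 1 := by omega
        simp [h2, h3]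
      · simp [h2]
  · intro s hs
    simp only [decide_eq_false_iff_not]
    omega

/-- the bottom row -/
theorem Lft_bot {x : ℤ} (hx : a ≤ x) (h : ((x, 0, true) : Edg) ∉ CE a G) : ¬ Lft a (x, 0) G := by
  rw [Lft_iff_CE]
  rintro ⟨s, t, hs, ht, hp⟩
  have := hp.cob (fun u => decide (u.2 = 0 ∧ x < u.1)) (by
    rintro ⟨x', y', _ | _⟩ he
    · have hup : 0 ≤ y' := he.1.2
      rw [cr_false, src_mk, tgt_false]
      simp only
      have e2 : ¬ y' + 1 = 0 := by omega
      simp [e2]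
    · rw [cr_true, src_mk, tgt_true]
      simp only
      have : ¬ (x' = x ∧ y' = 0) := by
        rintro ⟨rfl, rfl⟩
        exact h he
      by_cases h2 : y' = 0
      · have h3 : x < x' ↔ x < x' + 1 := by omega
        simp [h2, h3]
      · simp [h2])
  have e1 : ¬ x < s := by omega
  have e2 : ¬ x < t := by omega
  simp [e1, e2] at this

/-- The vertical segment from the face `f` down to the axis: the edges which it crosses. -/
def Dn (f : Vtx) : Set Edg := {e | e.2.2 = true ∧ e.1 = f.1 ∧ 0 ≤ e.2.1 ∧ e.2.1 ≤ f.2}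

theorem cob_dn {e : Edg} (he : e ∈ up) (hd : e ∉ Dn f) :
    cr f e = xor (decide (f.1 < (src e).1 ∧ (src e).2 ≤ f.2))
      (decide (f.1 < (tgt e).1 ∧ (tgt e).2 ≤ f.2)) := by
  obtain ⟨x', y', _ | _⟩ := e
  · rw [cr_false, src_mk, tgt_false]
    simp only
    by_cases h1 : f.1 < x'
    · by_cases h2 : y' = f.2
      · simp [h1, h2]
      · by_cases h3 : y' ≤ f.2
        · have e2 : y' + 1 ≤ f.2 := by omega
          simp [h1, h2, h3, e2]
        · have e2 : ¬ y' + 1 ≤ f.2 := by omega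
          simp [h1, h2, h3, e2]
    · simp [h1]
  · rw [cr_true, src_mk, tgt_true]
    simp only
    have hup : 0 ≤ y' := he
    have : ¬ (x' = f.1 ∧ y' ≤ f.2) := by
      rintro ⟨h1, h2⟩
      exact hd ⟨rfl, h1, hup, h2⟩
    by_cases h2 : y' ≤ f.2
    · have h3 : f.1 < x' ↔ f.1 < x' + 1 := by omega
      simp [h2, h3]
    · simp [h2]

/-- a walk which encloses `f` crosses the vertical segment below `f` -/
theorem Lft.hit (h : Lft a f G) (ha : a ≤ f.1) :
    ∃ s y, s ≤ a ∧ 0 ≤ y ∧ y ≤ f.2 ∧ Reach (G ∩ up) (s, 0) (f.1, y) := by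
  by_contra hcon
  push Not at hcon
  obtain ⟨s, t, hs, ht, hp⟩ := Lft_iff_CE.mp h
  have := hp.cob (fun u => decide (f.1 < u.1 ∧ u.2 ≤ f.2)) (by
    intro e he
    apply cob_dn he.1.2
    rintro ⟨h1, h2, h3, h4⟩
    obtain ⟨s', hs', hr⟩ := he.2
    apply hcon s' e.2.1 hs' h3 h4
    rw [← h2]
    exact hr)
  have e1 : ¬ f.1 < s := by omega
  have e2 : ¬ f.1 < t := by omega
  simp [e1, e2] at this

/-- a path over the segment below `f` encloses `f` -/
theorem Lft_of_over {s t : ℤ} (hf : 0 ≤ f.2) (hs : s ≤ f.1) (ht : f.1 < t) (hta : t ≤ a)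
    (h : Reach ((G ∩ up) \ Dn f) (s, 0) (t, 0)) : Lft a f G := by
  obtain ⟨b, hb⟩ := exists_PR (cr f) h
  have hb1 := hb.cob (fun u => decide (f.1 < u.1 ∧ u.2 ≤ f.2)) (fun e he => cob_dn he.1.2 he.2)
  have e1 : ¬ f.1 < s := by omega
  simp only [e1, ht, hf, false_and, and_self, decide_true, decide_false, Bool.false_xor] at hb1
  subst hb1
  exact ⟨s, t, by omega, hta, hb.mono Set.diff_subset⟩

/-- horizontal moves -/
theorem Lft_hor {y : ℤ} (n : ℕ) : ∀ x : ℤ,
    (∀ i, x < i → i ≤ x + n → ((i, y, false) : Edg) ∉ CE a G) →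
    (Lft a (x, y) G ↔ Lft a (x + n, y) G) := by
  induction n with
  | zero =>
    intro x _
    simp
  | succ n ih =>
    intro x h
    rw [Lft_right (h (x + 1) (by omega) (by push_cast; omega)),
      ih (x + 1) (fun i h1 h2 => h i (by omega) (by push_cast; omega))]
    rw [show x + 1 + (n : ℤ) = x + ((n + 1 : ℕ) : ℤ) by push_cast; ring]

/-- vertical moves -/
theorem Lft_ver {x : ℤ} (n : ℕ) : ∀ y : ℤ, 0 ≤ y →
    (∀ j, y < j → j ≤ y + n → ((x, j, true) : Edg) ∉ CE a G) →
    (Lft a (x, y) G ↔ Lft a (x, y + n) G) := by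
  induction n with
  | zero =>
    intro y _ _
    simp
  | succ n ih =>
    intro y hy h
    rw [Lft_up hy (h (y + 1) (by omega) (by push_cast; omega)),
      ih (y + 1) (by omega) (fun i h1 h2 => h i (by omega) (by push_cast; omega))]
    rw [show y + 1 + (n : ℤ) = y + ((n + 1 : ℕ) : ℤ) by push_cast; ring]

/-- If no vertex of the square of radius `j` around `c` is joined to the left half-axis, then the
faces in the square are all enclosed or all not enclosed. -/
theorem Lft_near {c : Vtx} {j : ℤ} (hc : j ≤ c.2)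
    (hno : ∀ s v, s ≤ a → inR (c.1 - j) (c.1 + j) (c.2 - j) (c.2 + j) v →
      ¬ Reach (G ∩ up) (s, 0) v) {g : Vtx}
    (hf : inR (c.1 - j) (c.1 + j) (c.2 - j) (c.2 + j) f)
    (hg : inR (c.1 - j) (c.1 + j) (c.2 - j) (c.2 + j) g) : Lft a f G ↔ Lft a g G := by
  have hout : ∀ e : Edg, inR (c.1 - j) (c.1 + j) (c.2 - j) (c.2 + j) (src e) → e ∉ CE a G := by
    rintro e h1 ⟨-, s, hs, h2⟩
    exact hno s _ hs h1 h2
  obtain ⟨x, y⟩ := f
  obtain ⟨x', y'⟩ := g
  obtain ⟨⟨f1, f2⟩, f3, f4⟩ := hf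
  obtain ⟨⟨g1, g2⟩, g3, g4⟩ := hg
  simp only at f1 f2 f3 f4 g1 g2 g3 g4
  have hh : Lft a (x, y) G ↔ Lft a (x', y) G := by
    rcases le_total x x' with h | h
    · obtain ⟨n, hn⟩ := Int.eq_ofNat_of_zero_le (sub_nonneg.mpr h)
      have e : x' = x + n := by omega
      rw [e]
      apply Lft_hor
      intro i h1 h2
      apply hout
      refine ⟨⟨?_, ?_⟩, ?_, ?_⟩ <;> simp only [src_mk] <;> omega
    · obtain ⟨n, hn⟩ := Int.eq_ofNat_of_zero_le (sub_nonneg.mpr h)
      have e : x = x' + n := by omega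
      rw [e]
      symm
      apply Lft_hor
      intro i h1 h2
      apply hout
      refine ⟨⟨?_, ?_⟩, ?_, ?_⟩ <;> simp only [src_mk] <;> omega
  have hv : Lft a (x', y) G ↔ Lft a (x', y') G := by
    rcases le_total y y' with h | h
    · obtain ⟨n, hn⟩ := Int.eq_ofNat_of_zero_le (sub_nonneg.mpr h)
      have e : y' = y + n := by omega
      rw [e]
      apply Lft_ver _ _ (by omega)
      intro i h1 h2
      apply hout
      refine ⟨⟨?_, ?_⟩, ?_, ?_⟩ <;> simp only [src_mk] <;> omega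
    · obtain ⟨n, hn⟩ := Int.eq_ofNat_of_zero_le (sub_nonneg.mpr h)
      have e : y = y' + n := by omega
      rw [e]
      symm
      apply Lft_ver _ _ (by omega)
      intro i h1 h2
      apply hout
      refine ⟨⟨?_, ?_⟩, ?_, ?_⟩ <;> simp only [src_mk] <;> omega
  exact hh.trans hv

end Pool.Agent.U167.LP
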