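import Pool.Agent.U167.LP.Clo
import Pool.Agent.H985R6.LC.TCF

/-!
The lower bound for the difference.
-/

set_option maxHeartbeats 1000000

namespace Pool.Agent.U167.LP

open H974 H731C H985LC Finset Pool.Agent.U167.HP MeasureTheory

theorem no_join {c : Vtx} {j n : ℕ} (hjn : j ≤ n) (hn : (n : ℤ) ≤ c.2)
    {ω : sqLattice.edgeSet → Bool} {S : Finset Edg}
    (hS : RE (c.1 - n) (c.1 + n) (c.2 - n) (c.2 + n) ⊆ S)
    (h : ¬ SqA c j n (FF S ω)) (s : ℤ) (v : Vtx)
    (hv : inR (c.1 - j) (c.1 + j) (c.2 - j) (c.2 + j) v) :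
    ¬ Reach (opn ω ∩ up) (s, 0) v := by
  intro hr
  apply h
  obtain ⟨w, hw1, hw2, hw3⟩ := first_exit (a := c.1 - n) (b := c.1 + n) (c := c.2 - n)
    (d := c.2 + n) (u := v) (v := (s, 0)) (G := opn ω ∩ up)
    (by unfold inR at hv ⊢; omega) hr.symm (by
      right; right; left
      show (0:ℤ) ≤ c.2 - n
      omega)
  refine ⟨v, w, hv, hw1, hw2, ?_⟩
  rw [FF_coe]
  refine hw3.mono ?_
  rintro e ⟨⟨e1, -⟩, e2⟩
  exact ⟨⟨e1, by exact_mod_cast hS (Finset.mem_coe.mp e2)⟩, e2⟩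

theorem real_and {A1 A2 : Finset Edg} (h12 : Disjoint A1 A2) (E1 E2 : Finset Edg → Prop) :
    (bondLaw half).real {ω | E1 (FF A1 ω) ∧ E2 (FF A2 ω)} = P2 A1 E1 * P2 A2 E2 := by
  have h3 := indep3 h12 (Finset.disjoint_empty_right A1) (Finset.disjoint_empty_right A2) E1 E2
    (fun _ => True)
  have h4 : P2 ∅ (fun _ => True) = 1 := by
    have := real_event ∅ (fun _ => True)
    rw [← this]
    have e : {ω : sqLattice.edgeSet → Bool | (fun _ : Finset Edg => True) (FF ∅ ω)} = Set.univ := by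
      ext ω
      simp
    rw [e]
    exact probReal_univ
  rw [h4, mul_one] at h3
  rw [← h3]
  congr 1
  ext ω
  simp

theorem df_lower (K : ℕ) : ∃ c : ℝ, 0 < c ∧ ∃ y0 : ℤ, 1 ≤ y0 ∧ ∀ x y : ℤ, y0 ≤ y →
    |x| ≤ K * y → c / y ≤ df x y := by
  obtain ⟨C, hC, hb⟩ := barm_up
  -- the size of the square around the face
  obtain ⟨M, hM2, hM⟩ : ∃ M : ℕ, 5 ≤ M ∧ C * ((4 : ℝ) / M) ^ ((5 : ℝ) / 48) ≤ 1 / 2 := by
    have h1 : Filter.Tendsto (fun M : ℕ => C * ((4 : ℝ) / M) ^ ((5 : ℝ) / 48)) Filter.atTop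
        (nhds (C * 0 ^ ((5 : ℝ) / 48))) := by
      apply Filter.Tendsto.const_mul
      have h2 : Filter.Tendsto (fun M : ℕ => (4 : ℝ) / M) Filter.atTop (nhds 0) :=
        tendsto_const_div_atTop_nhds_zero_nat 4
      exact h2.rpow_const (Or.inr (by norm_num))
    rw [Real.zero_rpow (by norm_num), mul_zero] at h1
    have h3 := (h1.eventually (ge_mem_nhds (show (0:ℝ) < 1 / 2 by norm_num))).and
      (Filter.eventually_ge_atTop 5)
    obtain ⟨M, h4, h5⟩ := h3.exists
    exact ⟨M, h5, h4⟩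
  obtain ⟨K', hK'⟩ : ∃ K' : ℕ, K' = 4 * M * K + 6 * M + 8 := ⟨_, rfl⟩
  set P : ℝ := (1/2:ℝ)^(48 * (K' + 1)) with hP
  have hP0 : 0 < P := by positivity
  refine ⟨P ^ 7 / 8, by positivity, 2 * M, by omega, ?_⟩
  intro x y hy hx
  obtain ⟨m, hmd⟩ : ∃ m : ℤ, m = y / (2 * M) := ⟨_, rfl⟩
  have hM0 : (0:ℤ) < 2 * M := by omega
  have hm1 : 1 ≤ m := by
    rw [hmd, Int.le_ediv_iff_mul_le hM0]
    omega
  have hmy : 2 * (M * m) ≤ y := by
    have := Int.ediv_mul_le y (show (2 * (M:ℤ)) ≠ 0 by omega)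
    rw [← hmd] at this
    nlinarith
  have hmy2 : y ≤ 4 * (M * m) := by
    have h1 : y < (m + 1) * (2 * M) := by
      rw [hmd]
      exact Int.lt_ediv_add_one_mul_self _ hM0
    have h2 : (0:ℤ) ≤ (M:ℤ) * (m - 1) := mul_nonneg (by omega) (by omega)
    nlinarith
  obtain ⟨T, hT⟩ : ∃ T : ℤ, T = M * m := ⟨_, rfl⟩
  rw [← hT] at hmy hmy2
  have hT5 : 5 * m ≤ T := by
    rw [hT]
    exact mul_le_mul_of_nonneg_right (by exact_mod_cast hM2) (by omega)
  obtain ⟨U, hU⟩ : ∃ U : ℤ, U = K * T := ⟨_, rfl⟩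
  have hxU : |x| ≤ 4 * U := by
    refine hx.trans ?_
    rw [hU]
    have : (0:ℤ) ≤ K := Int.natCast_nonneg K
    nlinarith
  have hKm : (K' : ℤ) * m = 4 * U + 6 * T + 8 * m := by
    rw [hK', hU, hT]
    push_cast
    ring
  have hax := abs_cases x
  obtain ⟨l, hl⟩ : ∃ l, l = min 0 x - 2 * T := ⟨_, rfl⟩
  obtain ⟨r, hr⟩ : ∃ r, r = max 0 x + 2 * T := ⟨_, rfl⟩
  obtain ⟨t, ht⟩ : ∃ t, t = y + 2 * T := ⟨_, rfl⟩
  obtain ⟨X1, hX1⟩ : ∃ X1, X1 = min 0 x - 2 * m := ⟨_, rfl⟩
  obtain ⟨X2, hX2⟩ : ∃ X2, X2 = max 0 x + 2 * m := ⟨_, rfl⟩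
  obtain ⟨n, hn⟩ : ∃ n : ℕ, (n : ℤ) = T := ⟨T.toNat, by omega⟩
  obtain ⟨j, hj⟩ : ∃ j : ℕ, (j : ℤ) = 4 * m := ⟨(4 * m).toNat, by omega⟩
  have a1 : 0 ≤ 4 * U := (abs_nonneg x).trans hxU
  -- probabilities
  have p1 := pr_OpT (m := m) (l := l) (r := r) (t := t) (K := K') hm1 (by omega) (by omega)
    (by omega) (by rw [hKm]; omega) (by rw [hKm]; omega)
  obtain ⟨B, hB⟩ : ∃ B, B = SC m x y X1 X2 n := ⟨_, rfl⟩
  have hsub : TT m y X1 X2 ⊆ dmp B := by
    rw [hB]
    exact TT_sub (by omega) (by omega) (by omega)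
  have p2 := pr_CloQ (m := m) (x := x) (y := y) (X1 := X1) (X2 := X2) (K := K') (S := dmp B) hm1
    (by omega) (by omega) (by omega) (by omega) (by omega) hsub (by rw [hKm]; omega)
    (by rw [hKm]; omega)
  have p3 : 1 / 2 ≤ P2 B (fun F => ¬ SqA (x, y) j n F) := by
    have h1 : P2 B (SqA (x, y) j n) ≤ 1 / 2 := by
      refine (pr_SqA _ _ _ _).trans ((hb j n (by omega) (by omega)).trans ?_)
      have e : (j : ℝ) / n = 4 / M := by
        have e1 : (j : ℝ) = 4 * m := by exact_mod_cast hj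
        have e2 : (n : ℝ) = M * m := by
          have : (n : ℤ) = M * m := by rw [hn, hT]
          exact_mod_cast this
        have hm0 : (0:ℝ) < m := by exact_mod_cast (by omega : (0:ℤ) < m)
        have hM0' : (0:ℝ) < M := by exact_mod_cast (by omega : 0 < M)
        rw [e1, e2]
        field_simp
      rw [e]
      exact hM
    have h2 := Pr_not (p := fun _ : Edg => (1/2 : ℝ)) B (SqA (x, y) j n)
    unfold P2 at h1 ⊢
    rw [h2]
    linarith
  have p4 : P ^ 2 * (1 / 2) ≤ P2 B (fun F => CloQ m x y X1 X2 (dmp (B \ F)) ∧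
      ¬ SqA (x, y) j n F) := by
    have q1 := cf_dd okhalf2 (S := B) (A := fun F => CloQ m x y X1 X2 (dmp (B \ F)))
      (B := fun F => ¬ SqA (x, y) j n F) (by
        intro F G h hG hF hG2
        apply hF
        refine hG2.mono ?_
        intro e he
        rw [mem_dmp, mem_sdiff] at he ⊢
        exact ⟨he.1, fun h3 => he.2 (h h3)⟩) (by
        intro F G h hG hF
        simp only [not_not] at hF ⊢
        obtain ⟨u, v, u1, u2, u3, u4⟩ := hF
        exact ⟨u, v, u1, u2, u3, u4.mono (Set.inter_subset_inter_left _ (by exact_mod_cast h))⟩)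
    refine le_trans ?_ q1
    have q2 := P2_dual B (CloQ m x y X1 X2)
    unfold P2 at q2 p2 p3
    rw [q2]
    exact mul_le_mul p2 p3 (by norm_num) ((by positivity : (0:ℝ) ≤ _).trans p2)
  have hd : Disjoint (TO m l r t) B := by
    rw [Finset.disjoint_left]
    intro e he1 he2
    rw [hB, mem_SC] at he2
    rw [mem_TO] at he1
    unfold TT at he2
    rw [Finset.mem_union] at he2
    obtain ⟨p, q, _ | _⟩ := e
    · simp only [mem_RE_false, dl_f, mem_VE_true, mem_RE_true] at he1 he2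
      omega
    · simp only [mem_RE_true, dl_t, mem_VE_false, mem_RE_false] at he1 he2
      omega
  have p5 := real_and hd (OpT m l r t)
    (fun F => CloQ m x y X1 X2 (dmp (B \ F)) ∧ ¬ SqA (x, y) j n F)
  have p6 : P ^ 7 * (1 / 2) ≤ (bondLaw half).real {ω | OpT m l r t (FF (TO m l r t) ω) ∧
      (fun F => CloQ m x y X1 X2 (dmp (B \ F)) ∧ ¬ SqA (x, y) j n F) (FF B ω)} := by
    rw [p5]
    calc P ^ 7 * (1 / 2) = P ^ 5 * (P ^ 2 * (1 / 2)) := by ring
      _ ≤ _ := mul_le_mul p1 p4 (by positivity) ((by positivity : (0:ℝ) ≤ P ^ 5).trans p1)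
  -- the union
  obtain ⟨N, hN⟩ : ∃ N : ℕ, (N : ℤ) = 3 * m := ⟨(3 * m).toNat, by omega⟩
  have hcov : {ω | OpT m l r t (FF (TO m l r t) ω) ∧
      (fun F => CloQ m x y X1 X2 (dmp (B \ F)) ∧ ¬ SqA (x, y) j n F) (FF B ω)} ⊆
      ⋃ k ∈ Finset.range (N + 1), DE (k : ℤ) (x + k, y) := by
    rintro ω ⟨hO, hQ, hS⟩
    have g1 : Lft (3 * m) (x, y) (opn ω) :=
      open_geo (F := FF (TO m l r t) ω) hm1 (by omega) (by omega) (by omega) (by omega)
        (by omega) (by omega) (by rw [FF_coe]) hO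
    obtain ⟨q, hq, g2⟩ := clo_geo (m := m) (x := x) (y := y) (X1 := X1) (X2 := X2)
      (n := n) (ω := ω) (a := -1) (by omega) (by omega) (by omega)
      (by rw [← hB]; exact hQ)
    have hnj := no_join (c := (x, y)) (j := j) (n := n) (by omega)
      (by show (n:ℤ) ≤ y; omega) (S := B) (by
        intro e he
        rw [hB, mem_SC]
        right
        exact he) hS
    have near : ∀ (a : ℤ) (g : Vtx), inR (x - j) (x + j) (y - j) (y + j) g →
        (Lft a (x, y) (opn ω) ↔ Lft a g (opn ω)) := by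
      intro a g hg
      refine Lft_near (c := (x, y)) (j := j) (by show (j:ℤ) ≤ y; omega) ?_ ?_ hg
      · intro s v _ hv
        exact hnj s v hv
      · unfold inR
        simp only
        omega
    have g3 : ¬ Lft (-1) (x, y) (opn ω) := by
      intro h
      apply g2
      refine (near (-1) (x, q) ?_).mp h
      unfold inR
      simp only
      omega
    have hex : ∃ k : ℕ, Lft (k : ℤ) (x, y) (opn ω) := ⟨N, by rw [hN]; exact g1⟩
    classical
    have hk1 := Nat.find_spec hex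
    have hk2 : Nat.find hex ≤ N := Nat.find_min' hex (by rw [hN]; exact g1)
    have hk3 : ¬ Lft ((Nat.find hex : ℤ) - 1) (x, y) (opn ω) := by
      intro h
      rcases Nat.eq_zero_or_pos (Nat.find hex) with h0 | h0
      · rw [h0] at h
        exact g3 (by simpa using h)
      · have := Nat.find_min hex (m := Nat.find hex - 1) (by omega)
        apply this
        rw [Nat.cast_sub (by omega)]
        exact_mod_cast h
    rw [Set.mem_iUnion₂]
    refine ⟨Nat.find hex, Finset.mem_range.mpr (by omega), ?_, ?_⟩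
    · refine (near _ _ ?_).mp hk1
      unfold inR
      simp only
      omega
    · intro h
      apply hk3
      refine (near _ _ ?_).mpr h
      unfold inR
      simp only
      omega
  have p7 := (measureReal_mono hcov (measure_ne_top (bondLaw half) _)).trans
    (measureReal_biUnion_finset_le _ _)
  have e7 : ∑ k ∈ Finset.range (N + 1), (bondLaw half).real (DE (k : ℤ) (x + k, y)) =
      (N + 1) * df x y := by
    have : ∀ k ∈ Finset.range (N + 1), (bondLaw half).real (DE (k : ℤ) (x + k, y)) = df x y := by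
      intro k _
      rw [DE_df, add_sub_cancel_right]
    rw [Finset.sum_congr rfl this, Finset.sum_const, Finset.card_range, nsmul_eq_mul]
    push_cast
    ring
  rw [e7] at p7
  have hyR : (0:ℝ) < y := by exact_mod_cast (by omega : (0:ℤ) < y)
  rw [div_le_iff₀ hyR]
  have hNy : (N : ℝ) + 1 ≤ y := by
    have : (N : ℤ) + 1 ≤ y := by omega
    exact_mod_cast this
  have h8 := df_nonneg x y
  have h9 : ((N:ℝ) + 1) * df x y ≤ y * df x y := mul_le_mul_of_nonneg_right hNy h8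
  have h10 := p6.trans p7
  have hP7 : 0 < P ^ 7 := by positivity
  linarith

end Pool.Agent.U167.LP
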