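import Pool.Agent.U167.HP.Arr5
import Pool.Agent.U167.LP.Low
import Pool.Agent.U167.LP.Bdry

/-!
Scaling limits of the left-passage probabilities.
-/

set_option maxHeartbeats 1000000

namespace Pool.Agent.U167.LP

open H974 H731C MeasureTheory Filter Topology Set Pool.Agent.U167.HP

/-- A scaling limit of the left-passage probabilities. -/
structure LPL (φ : ℕ → ℕ) (S ρ : ℝ → ℝ → ℝ) : Prop where
  top : Tendsto φ atTop atTop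
  cdf : ∀ x y, 0 < y → ∀ X Y : ℕ → ℤ, Sc φ X x → Sc φ Y y →
    Tendsto (fun j => sp (X j) (Y j)) atTop (𝓝 (S x y))
  loc : ∀ x y, 0 < y → ∀ X Y : ℕ → ℤ, Sc φ X x → Sc φ Y y →
    Tendsto (fun j => (φ j : ℝ) * df (X j) (Y j)) atTop (𝓝 (ρ x y))

theorem close : ∃ C : ℝ, 0 < C ∧ ∀ (φ x y δ : ℝ), 0 < φ → 0 < δ → 32 * δ ≤ y → 1 ≤ φ * δ →
    ∀ X Y X' Y' : ℤ, |(X : ℝ) - φ * x| ≤ φ * δ → |(Y : ℝ) - φ * y| ≤ φ * δ →
      |(X' : ℝ) - φ * x| ≤ φ * δ → |(Y' : ℝ) - φ * y| ≤ φ * δ →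
      |sp X Y - sp X' Y'| ≤ C * (δ / y) ^ ((5 : ℝ) / 48) ∧
      |φ * df X Y - φ * df X' Y'| ≤ C / y * (δ / y) ^ ((5 : ℝ) / 48) := by
  obtain ⟨C1, hC1, h1⟩ := sp_near
  obtain ⟨C2, hC2, h2⟩ := df_near
  refine ⟨6 * C1 + 12 * C2, by positivity, ?_⟩
  intro φ x y δ hφ hδ hδy hφδ X Y X' Y' hX hY hX' hY'
  have hy : 0 < y := by linarith
  obtain ⟨j, hj⟩ : ∃ j : ℕ, j = ⌈2 * (φ * δ)⌉₊ := ⟨_, rfl⟩
  have j1 : 2 * (φ * δ) ≤ j := by rw [hj]; exact Nat.le_ceil _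
  have j2 : (j : ℝ) < 2 * (φ * δ) + 1 := by
    rw [hj]
    exact Nat.ceil_lt_add_one (by positivity)
  have hφy : φ * (32 * δ) ≤ φ * y := mul_le_mul_of_nonneg_left hδy hφ.le
  have hj0 : (0:ℝ) < j := by linarith
  have hj1 : 1 ≤ j := by
    have : 0 < j := by exact_mod_cast hj0
    omega
  have aX := abs_le.mp hX
  have aX' := abs_le.mp hX'
  have aY := abs_le.mp hY
  have aY' := abs_le.mp hY'
  have hYl : φ * y / 2 ≤ Y := by nlinarith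
  have hY0 : (0:ℝ) < Y := lt_of_lt_of_le (by positivity) hYl
  have c1 : 8 * (j : ℤ) ≤ Y := by
    have : 8 * (j : ℝ) ≤ Y := by nlinarith
    exact_mod_cast this
  have c2 : |X - X'| ≤ j := by
    have : |(X : ℝ) - X'| ≤ j := by
      rw [abs_le]
      constructor <;> linarith
    exact_mod_cast this
  have c3 : |Y - Y'| ≤ j := by
    have : |(Y : ℝ) - Y'| ≤ j := by
      rw [abs_le]
      constructor <;> linarith
    exact_mod_cast this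
  have hq : ((j : ℝ) / Y) ^ ((5 : ℝ) / 48) ≤ 6 * (δ / y) ^ ((5 : ℝ) / 48) := by
    have e1 : (j : ℝ) / Y ≤ 6 * (δ / y) := by
      rw [mul_div_assoc', div_le_div_iff₀ hY0 hy]
      have : (j : ℝ) ≤ 3 * (φ * δ) := by linarith
      calc (j : ℝ) * y ≤ 3 * (φ * δ) * y := by gcongr
        _ = 6 * δ * (φ * y / 2) := by ring
        _ ≤ 6 * δ * Y := by gcongr
    calc ((j : ℝ) / Y) ^ ((5 : ℝ) / 48) ≤ (6 * (δ / y)) ^ ((5 : ℝ) / 48) :=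
          Real.rpow_le_rpow (by positivity) e1 (by norm_num)
      _ = 6 ^ ((5 : ℝ) / 48) * (δ / y) ^ ((5 : ℝ) / 48) :=
          Real.mul_rpow (by norm_num) (by positivity)
      _ ≤ 6 * (δ / y) ^ ((5 : ℝ) / 48) := by
          gcongr
          calc (6:ℝ) ^ ((5 : ℝ) / 48) ≤ 6 ^ (1:ℝ) :=
                Real.rpow_le_rpow_of_exponent_le (by norm_num) (by norm_num)
            _ = 6 := Real.rpow_one 6
  have hr0 : 0 ≤ (δ / y) ^ ((5 : ℝ) / 48) := by positivity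
  constructor
  · refine (h1 X Y X' Y' j hj1 c1 c2 c3).trans ?_
    calc C1 * ((j : ℝ) / Y) ^ ((5 : ℝ) / 48) ≤ C1 * (6 * (δ / y) ^ ((5 : ℝ) / 48)) := by gcongr
      _ = 6 * C1 * (δ / y) ^ ((5 : ℝ) / 48) := by ring
      _ ≤ (6 * C1 + 12 * C2) * (δ / y) ^ ((5 : ℝ) / 48) := by
          gcongr
          linarith
  · rw [← mul_sub, abs_mul, abs_of_pos hφ]
    have h3 := h2 X Y X' Y' j hj1 c1 c2 c3
    have e2 : φ * (C2 / Y) ≤ 2 * C2 / y := by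
      rw [mul_div_assoc', div_le_div_iff₀ hY0 hy]
      calc φ * C2 * y = 2 * C2 * (φ * y / 2) := by ring
        _ ≤ 2 * C2 * Y := by gcongr
    calc φ * |df X Y - df X' Y'| ≤ φ * (C2 / Y * ((j : ℝ) / Y) ^ ((5 : ℝ) / 48)) := by gcongr
      _ = φ * (C2 / Y) * ((j : ℝ) / Y) ^ ((5 : ℝ) / 48) := by ring
      _ ≤ 2 * C2 / y * (6 * (δ / y) ^ ((5 : ℝ) / 48)) := by
          gcongr
      _ = 12 * C2 / y * (δ / y) ^ ((5 : ℝ) / 48) := by ring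
      _ ≤ (6 * C1 + 12 * C2) / y * (δ / y) ^ ((5 : ℝ) / 48) := by
          gcongr
          linarith

theorem exists_small {C y ε : ℝ} (hC : 0 < C) (hy : 0 < y) (hε : 0 < ε) :
    ∃ δ : ℝ, 0 < δ ∧ 32 * δ ≤ y ∧ C * (δ / y) ^ ((5 : ℝ) / 48) ≤ ε ∧
      C / y * (δ / y) ^ ((5 : ℝ) / 48) ≤ ε := by
  have h1 : ∀ D : ℝ, Tendsto (fun δ : ℝ => D * (δ / y) ^ ((5 : ℝ) / 48)) (𝓝[>] 0) (𝓝 0) := by
    intro D
    have h2 : Tendsto (fun δ : ℝ => δ / y) (𝓝 0) (𝓝 (0 / y)) := tendsto_id.div_const y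
    rw [zero_div] at h2
    have h3 := (h2.rpow_const (p := (5 : ℝ) / 48) (Or.inr (by norm_num))).const_mul D
    rw [Real.zero_rpow (by norm_num), mul_zero] at h3
    exact h3.mono_left nhdsWithin_le_nhds
  have e1 := (h1 C).eventually (ge_mem_nhds hε)
  have e2 := (h1 (C / y)).eventually (ge_mem_nhds hε)
  have e3 : ∀ᶠ δ : ℝ in 𝓝[>] 0, 32 * δ ≤ y := by
    have : Tendsto (fun δ : ℝ => 32 * δ) (𝓝 0) (𝓝 (32 * 0)) := tendsto_id.const_mul 32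
    rw [mul_zero] at this
    exact (this.mono_left nhdsWithin_le_nhds).eventually (ge_mem_nhds hy)
  obtain ⟨δ, h4, h5, h6, h7⟩ := (e1.and (e2.and (e3.and self_mem_nhdsWithin))).exists
  exact ⟨δ, h7, h6, h4, h5⟩

/-- Eventually within distance `φ δ`. -/
theorem ev_near {φ : ℕ → ℕ} (hφ : Tendsto φ atTop atTop) {X : ℕ → ℤ} {x δ : ℝ} (hX : Sc φ X x)
    (hδ : 0 < δ) : ∀ᶠ j in atTop, (0:ℝ) < φ j ∧ 1 ≤ (φ j : ℝ) * δ ∧
      |(X j : ℝ) - φ j * x| ≤ φ j * δ := by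
  obtain ⟨K, hK⟩ := exists_nat_gt (1 / δ)
  have hK0 : (0:ℝ) < K := lt_trans (by positivity) hK
  filter_upwards [hφ.eventually_ge_atTop K, (Metric.tendsto_nhds.mp hX) δ hδ] with j h1 h2
  have h3 : (K : ℝ) ≤ φ j := by exact_mod_cast h1
  have h4 : (0:ℝ) < φ j := by linarith
  refine ⟨h4, ?_, ?_⟩
  · rw [div_lt_iff₀ hδ] at hK
    nlinarith
  · rw [Real.dist_eq] at h2
    have e : (X j : ℝ) - φ j * x = φ j * ((X j : ℝ) / φ j - x) := by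
      field_simp
    rw [e, abs_mul, abs_of_pos h4]
    exact mul_le_mul_of_nonneg_left h2.le h4.le

theorem ev_close {C : ℝ} (hc : ∀ (φ x y δ : ℝ), 0 < φ → 0 < δ → 32 * δ ≤ y → 1 ≤ φ * δ →
    ∀ X Y X' Y' : ℤ, |(X : ℝ) - φ * x| ≤ φ * δ → |(Y : ℝ) - φ * y| ≤ φ * δ →
      |(X' : ℝ) - φ * x| ≤ φ * δ → |(Y' : ℝ) - φ * y| ≤ φ * δ →
      |sp X Y - sp X' Y'| ≤ C * (δ / y) ^ ((5 : ℝ) / 48) ∧
      |φ * df X Y - φ * df X' Y'| ≤ C / y * (δ / y) ^ ((5 : ℝ) / 48)) {φ : ℕ → ℕ}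
    (hφ : Tendsto φ atTop atTop) {X Y X' Y' : ℕ → ℤ} {x y x' y' δ : ℝ} (hδ : 0 < δ)
    (hy : 32 * δ ≤ y) (hX : Sc φ X x) (hY : Sc φ Y y) (hX' : Sc φ X' x') (hY' : Sc φ Y' y')
    (hx' : |x' - x| ≤ δ / 2) (hy' : |y' - y| ≤ δ / 2) :
    ∀ᶠ j in atTop, |sp (X j) (Y j) - sp (X' j) (Y' j)| ≤ C * (δ / y) ^ ((5 : ℝ) / 48) ∧
      |φ j * df (X j) (Y j) - φ j * df (X' j) (Y' j)| ≤ C / y * (δ / y) ^ ((5 : ℝ) / 48) := by
  filter_upwards [ev_near hφ hX hδ, ev_near hφ hY hδ, ev_near hφ hX' (half_pos hδ),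
    ev_near hφ hY' (half_pos hδ)] with j h1 h2 h3 h4
  obtain ⟨a1, a2, a3⟩ := h1
  have tri : ∀ (Z : ℤ) (z z' : ℝ), |(Z : ℝ) - φ j * z'| ≤ φ j * (δ / 2) → |z' - z| ≤ δ / 2 →
      |(Z : ℝ) - φ j * z| ≤ φ j * δ := by
    intro Z z z' b1 b2
    have e : (Z : ℝ) - φ j * z = ((Z : ℝ) - φ j * z') + φ j * (z' - z) := by ring
    rw [e]
    refine (abs_add_le _ _).trans ?_
    rw [abs_mul, abs_of_pos a1]
    have := mul_le_mul_of_nonneg_left b2 a1.le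
    linarith
  exact hc (φ j) x y δ a1 hδ hy a2 _ _ _ _ a3 h2.2.2 (tri _ _ _ h3.2.2 hx') (tri _ _ _ h4.2.2 hy')

/-- Existence of scaling limits along subsequences. -/
theorem exists_lpl {N : ℕ → ℕ} (hN : Tendsto N atTop atTop) :
    ∃ ψ : ℕ → ℕ, StrictMono ψ ∧ ∃ S ρ, LPL (N ∘ ψ) S ρ := by
  obtain ⟨C, hC, hc⟩ := close
  obtain ⟨Cu, hCu, hu⟩ := df_upper
  -- the diagonal argument
  have hB : ∀ a : (ℚ × {q : ℚ // 0 < q}) × Bool, ∃ B : ℝ, ∀ k, |(if a.2 = true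
      then sp ⌊(N k : ℝ) * a.1.1⌋ ⌊(N k : ℝ) * (a.1.2 : ℚ)⌋
      else (N k : ℝ) * df ⌊(N k : ℝ) * a.1.1⌋ ⌊(N k : ℝ) * (a.1.2 : ℚ)⌋)| ≤ B := by
    rintro ⟨⟨q, ⟨r, hr⟩⟩, b⟩
    cases b with
    | true =>
      refine ⟨1, fun k => ?_⟩
      simp only [if_true]
      rw [abs_of_nonneg (sp_nonneg _ _)]
      exact sp_le_one _ _
    | false =>
      have hr0 : (0:ℝ) < r := by exact_mod_cast hr
      refine ⟨Cu / r, fun k => ?_⟩
      simp only [Bool.false_eq_true, if_false]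
      rw [abs_of_nonneg (mul_nonneg (Nat.cast_nonneg _) (df_nonneg _ _))]
      have hy0 : 0 ≤ ⌊(N k : ℝ) * (r : ℚ)⌋ := Int.floor_nonneg.mpr (by positivity)
      have h1 := hu ⌊(N k : ℝ) * (q : ℚ)⌋ ⌊(N k : ℝ) * (r : ℚ)⌋ hy0
      have h2 : wt ⌊(N k : ℝ) * (q : ℚ)⌋ ⌊(N k : ℝ) * (r : ℚ)⌋ ≤
          1 / ((⌊(N k : ℝ) * (r : ℚ)⌋ : ℤ) + 1) := by
        unfold wt
        have hd := pos_den (x := ⌊(N k : ℝ) * (q : ℚ)⌋) hy0
        have hy1 : (0:ℝ) ≤ ((⌊(N k : ℝ) * (r : ℚ)⌋ : ℤ) : ℝ) := by exact_mod_cast hy0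
        have hx1 : (0:ℝ) ≤ ((|⌊(N k : ℝ) * (q : ℚ)⌋| : ℤ) : ℝ) := by
          exact_mod_cast abs_nonneg _
        calc _ ≤ 1 / (((|⌊(N k : ℝ) * (q : ℚ)⌋| : ℤ) : ℝ) + (⌊(N k : ℝ) * (r : ℚ)⌋ : ℤ) + 1) * 1 := by
              apply mul_le_mul_of_nonneg_left _ (by positivity)
              apply Real.rpow_le_one (by positivity) _ (by norm_num)
              rw [div_le_one hd]
              linarith
          _ ≤ _ := by
              rw [mul_one]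
              apply one_div_le_one_div_of_le (by positivity)
              linarith
      have h3 : (N k : ℝ) * r ≤ ((⌊(N k : ℝ) * (r : ℚ)⌋ : ℤ) : ℝ) + 1 :=
        (Int.lt_floor_add_one _).le
      have hy1 : (0:ℝ) ≤ ((⌊(N k : ℝ) * (r : ℚ)⌋ : ℤ) : ℝ) := by exact_mod_cast hy0
      calc (N k : ℝ) * df ⌊(N k : ℝ) * (q : ℚ)⌋ ⌊(N k : ℝ) * (r : ℚ)⌋
          ≤ N k * (Cu * (1 / ((⌊(N k : ℝ) * (r : ℚ)⌋ : ℤ) + 1))) := by
            gcongr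
            exact h1.trans (mul_le_mul_of_nonneg_left h2 hCu.le)
        _ = Cu * N k / (((⌊(N k : ℝ) * (r : ℚ)⌋ : ℤ) : ℝ) + 1) := by ring
        _ ≤ Cu / r := by
            rw [div_le_div_iff₀ (by positivity) hr0]
            nlinarith
  obtain ⟨ψ, hψ, hl⟩ := An.diag hB
  have hφ : Tendsto (N ∘ ψ) atTop atTop := hN.comp hψ.tendsto_atTop
  refine ⟨ψ, hψ, ?_⟩
  have lim : ∀ x y : ℝ, 0 < y →
      (∃ l, Tendsto (fun j => sp ⌊((N ∘ ψ) j : ℝ) * x⌋ ⌊((N ∘ ψ) j : ℝ) * y⌋) atTop (𝓝 l)) ∧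
      ∃ l, Tendsto (fun j => ((N ∘ ψ) j : ℝ) * df ⌊((N ∘ ψ) j : ℝ) * x⌋ ⌊((N ∘ ψ) j : ℝ) * y⌋)
        atTop (𝓝 l) := by
    intro x y hy
    have key : ∀ ε : ℝ, 0 < ε → ∃ q : ℚ, ∃ r : {q : ℚ // 0 < q}, ∀ᶠ j in atTop,
        |sp ⌊((N ∘ ψ) j : ℝ) * x⌋ ⌊((N ∘ ψ) j : ℝ) * y⌋ -
          sp ⌊((N ∘ ψ) j : ℝ) * q⌋ ⌊((N ∘ ψ) j : ℝ) * (r : ℚ)⌋| ≤ ε ∧
        |((N ∘ ψ) j : ℝ) * df ⌊((N ∘ ψ) j : ℝ) * x⌋ ⌊((N ∘ ψ) j : ℝ) * y⌋ -
          ((N ∘ ψ) j : ℝ) * df ⌊((N ∘ ψ) j : ℝ) * q⌋ ⌊((N ∘ ψ) j : ℝ) * (r : ℚ)⌋| ≤ ε := by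
      intro ε hε
      obtain ⟨δ, h1, h2, h3, h4⟩ := exists_small hC hy hε
      obtain ⟨q, q1, q2⟩ := exists_rat_btwn (show x < x + δ / 2 by linarith)
      obtain ⟨r, r1, r2⟩ := exists_rat_btwn (show y < y + δ / 2 by linarith)
      have hr0 : (0:ℝ) < r := by linarith
      refine ⟨q, ⟨r, by exact_mod_cast hr0⟩, ?_⟩
      have := ev_close hc hφ (x := x) (y := y) (x' := q) (y' := r) h1 h2 (sc_fl hφ x) (sc_fl hφ y)
        (sc_fl hφ q) (sc_fl hφ r) (by rw [abs_le]; constructor <;> linarith)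
        (by rw [abs_le]; constructor <;> linarith)
      filter_upwards [this] with j hj
      exact ⟨hj.1.trans h3, hj.2.trans h4⟩
    constructor
    · apply An.conv_of_close
      intro ε hε
      obtain ⟨q, r, h⟩ := key ε hε
      refine ⟨_, ?_, h.mono (fun j hj => hj.1)⟩
      obtain ⟨l, hl'⟩ := hl ((q, r), true)
      exact ⟨l, by simpa using hl'⟩
    · apply An.conv_of_close
      intro ε hε
      obtain ⟨q, r, h⟩ := key ε hε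
      refine ⟨_, ?_, h.mono (fun j hj => hj.2)⟩
      obtain ⟨l, hl'⟩ := hl ((q, r), false)
      exact ⟨l, by simpa using hl'⟩
  choose! S hS using fun x y hy => (lim x y hy).1
  choose! ρ hρ using fun x y hy => (lim x y hy).2
  refine ⟨S, ρ, hφ, ?_, ?_⟩
  · intro x y hy X Y hX hY
    refine An.tendsto_of_close (hS x y hy) ?_
    intro ε hε
    obtain ⟨δ, h1, h2, h3, h4⟩ := exists_small hC hy hε
    have := ev_close hc hφ h1 h2 hX hY (sc_fl hφ x) (sc_fl hφ y) (by simp; linarith)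
      (by simp; linarith)
    exact this.mono (fun j hj => hj.1.trans h3)
  · intro x y hy X Y hX hY
    refine An.tendsto_of_close (hρ x y hy) ?_
    intro ε hε
    obtain ⟨δ, h1, h2, h3, h4⟩ := exists_small hC hy hε
    have := ev_close hc hφ h1 h2 hX hY (sc_fl hφ x) (sc_fl hφ y) (by simp; linarith)
      (by simp; linarith)
    exact this.mono (fun j hj => hj.2.trans h4)

end Pool.Agent.U167.LP
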