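import Pool.Agent.U167.LP.Lim

/-!
Scaling limits of the left-passage probabilities: regularity and bounds.
-/

set_option maxHeartbeats 1000000

namespace Pool.Agent.U167.LP

open H974 H731C MeasureTheory Filter Topology Set Pool.Agent.U167.HP

theorem df_sum {C : ℝ} (hC : 0 < C) (h2 : ∀ x y x' y' : ℤ, ∀ j : ℕ, 1 ≤ j → 8 * (j : ℤ) ≤ y →
    |x - x'| ≤ j → |y - y'| ≤ j →
    |df x y - df x' y'| ≤ C / y * ((j : ℝ) / y) ^ ((5 : ℝ) / 48)) {X Y : ℤ} {n : ℕ}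
    (hn : 1 ≤ n) (hY : 8 * (n : ℤ) ≤ Y) :
    |sp X Y - sp (X + n) Y - n * df X Y| ≤ C * ((n : ℝ) / Y) * ((n : ℝ) / Y) ^ ((5 : ℝ) / 48) := by
  rw [← sum_df Y n X]
  have e : ∑ i ∈ Finset.range n, df (X + i) Y - n * df X Y =
      ∑ i ∈ Finset.range n, (df (X + i) Y - df X Y) := by
    rw [Finset.sum_sub_distrib, Finset.sum_const, Finset.card_range, nsmul_eq_mul]
  rw [e]
  refine (Finset.abs_sum_le_sum_abs _ _).trans ?_
  calc ∑ i ∈ Finset.range n, |df (X + i) Y - df X Y|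
      ≤ ∑ _i ∈ Finset.range n, C / Y * ((n : ℝ) / Y) ^ ((5 : ℝ) / 48) := by
        apply Finset.sum_le_sum
        intro i hi
        rw [Finset.mem_range] at hi
        apply h2 _ _ _ _ n hn hY
        · rw [add_sub_cancel_left, Nat.abs_cast]
          exact_mod_cast hi.le
        · simp
    _ = C * ((n : ℝ) / Y) * ((n : ℝ) / Y) ^ ((5 : ℝ) / 48) := by
        rw [Finset.sum_const, Finset.card_range, nsmul_eq_mul]
        ring

/-- Everything about the limits. -/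
structure LPP (C : ℝ) (S ρ : ℝ → ℝ → ℝ) : Prop where
  anti : ∀ x x' y, 0 < y → x ≤ x' → S x' y ≤ S x y
  nonneg : ∀ x y, 0 < y → 0 ≤ S x y
  le_one : ∀ x y, 0 < y → S x y ≤ 1
  upper : ∀ x y, 0 < y → ρ x y ≤ C * (1 / (|x| + y) * (y / (|x| + y)) ^ ((1 : ℝ) / 3))
  tail : ∀ x y, 0 < y → 0 ≤ x → S x y ≤ C * (y / (|x| + y)) ^ ((1 : ℝ) / 3)
  tail' : ∀ x y, 0 < y → x ≤ 0 → 1 - S x y ≤ C * (y / (|x| + y)) ^ ((1 : ℝ) / 3)
  hol : ∀ x y x' y' h, 0 < y → 0 < h → 8 * h < y → |x' - x| ≤ h → |y' - y| ≤ h →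
    |S x' y' - S x y| ≤ C * (h / y) ^ ((5 : ℝ) / 48)
  holρ : ∀ x y x' y' h, 0 < y → 0 < h → 8 * h < y → |x' - x| ≤ h → |y' - y| ≤ h →
    |ρ x' y' - ρ x y| ≤ C / y * (h / y) ^ ((5 : ℝ) / 48)
  inc : ∀ x y h, 0 < y → 0 < h → 8 * h < y →
    |S x y - S (x + h) y - h * ρ x y| ≤ C * (h / y) * (h / y) ^ ((5 : ℝ) / 48)

theorem sc_abs {φ : ℕ → ℕ} {X : ℕ → ℤ} {x : ℝ} (hX : Sc φ X x) :
    Sc φ (fun j => |X j|) |x| := by
  refine (Tendsto.abs hX).congr (fun j => ?_)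
  push_cast
  rw [abs_div, Nat.abs_cast]

theorem sc_sum {φ : ℕ → ℕ} {X Y : ℕ → ℤ} {x y : ℝ} (hX : Sc φ X x) (hY : Sc φ Y y) :
    Sc φ (fun j => X j + Y j) (x + y) := by
  refine (Tendsto.add hX hY).congr (fun j => ?_)
  push_cast
  ring

/-- Quotients of sequences of the same order. -/
theorem sc_quo {φ : ℕ → ℕ} (hφ : Tendsto φ atTop atTop) {X Y : ℕ → ℤ} {x y : ℝ} (hX : Sc φ X x)
    (hY : Sc φ Y y) (hy : y ≠ 0) : Tendsto (fun j => (X j : ℝ) / Y j) atTop (𝓝 (x / y)) := by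
  refine (Tendsto.div hX hY hy).congr' ?_
  filter_upwards [hφ.eventually_gt_atTop 0] with j hj
  have : (φ j : ℝ) ≠ 0 := by
    have : (0:ℝ) < φ j := by exact_mod_cast hj
    exact this.ne'
  rw [Pi.div_apply, div_div_div_cancel_right₀ this]

theorem rt_lim {φ : ℕ → ℕ} (hφ : Tendsto φ atTop atTop) {X Y : ℕ → ℤ} {x y : ℝ} (hy : 0 < y)
    (hX : Sc φ X x) (hY : Sc φ Y y) :
    Tendsto (fun j => rt (X j) (Y j)) atTop (𝓝 ((y / (|x| + y)) ^ ((1 : ℝ) / 3))) := by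
  have hd : 0 < |x| + y := by positivity
  have h1 := sc_quo hφ (sc_add hφ hY 1) (sc_add hφ (sc_sum (sc_abs hX) hY) 1) hd.ne'
  have h2 := h1.rpow_const (p := (1 : ℝ) / 3) (Or.inr (by norm_num))
  refine h2.congr (fun j => ?_)
  unfold rt
  push_cast
  rfl

theorem wt_lim {φ : ℕ → ℕ} (hφ : Tendsto φ atTop atTop) {X Y : ℕ → ℤ} {x y : ℝ} (hy : 0 < y)
    (hX : Sc φ X x) (hY : Sc φ Y y) :
    Tendsto (fun j => (φ j : ℝ) * wt (X j) (Y j)) atTop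
      (𝓝 (1 / (|x| + y) * (y / (|x| + y)) ^ ((1 : ℝ) / 3))) := by
  have hd : 0 < |x| + y := by positivity
  have h1 := sc_add hφ (sc_sum (sc_abs hX) hY) 1
  have h2 : Tendsto (fun j => 1 / (((|X j| + Y j + 1 : ℤ) : ℝ) / φ j)) atTop
      (𝓝 (1 / (|x| + y))) := tendsto_const_nhds.div h1 hd.ne'
  refine (h2.mul (rt_lim hφ hy hX hY)).congr (fun j => ?_)
  unfold rt wt
  push_cast
  rw [one_div_div]
  ring

theorem props : ∃ C : ℝ, 1 ≤ C ∧ ∀ (φ : ℕ → ℕ) (S ρ : ℝ → ℝ → ℝ), LPL φ S ρ → LPP C S ρ := by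
  obtain ⟨C1, hC1, h1⟩ := sp_near
  obtain ⟨C2, hC2, h2⟩ := df_near
  obtain ⟨C3, hC3, h3⟩ := df_upper
  obtain ⟨C4, hC4, h4⟩ := sp_upper
  obtain ⟨C5, hC5, h5⟩ := sp_upper'
  refine ⟨C1 + C2 + C3 + C4 + C5 + 1, by linarith, ?_⟩
  intro φ S ρ h
  have hφ := h.top
  have cS : ∀ x y, 0 < y → Tendsto (fun j => sp ⌊(φ j : ℝ) * x⌋ ⌊(φ j : ℝ) * y⌋) atTop
      (𝓝 (S x y)) := fun x y hy => h.cdf x y hy _ _ (sc_fl hφ x) (sc_fl hφ y)
  have cρ : ∀ x y, 0 < y → Tendsto (fun j => (φ j : ℝ) * df ⌊(φ j : ℝ) * x⌋ ⌊(φ j : ℝ) * y⌋)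
      atTop (𝓝 (ρ x y)) := fun x y hy => h.loc x y hy _ _ (sc_fl hφ x) (sc_fl hφ y)
  have evY : ∀ y : ℝ, 0 < y → ∀ᶠ j in atTop, 1 ≤ ⌊(φ j : ℝ) * y⌋ :=
    fun y hy => ev_ge hφ hy (sc_fl hφ y) 1
  -- the sequence of distances
  have hj : ∀ x y x' y' δ : ℝ, 0 < y → 0 < δ → 8 * δ < y → |x' - x| ≤ δ → |y' - y| ≤ δ →
      ∃ n : ℕ → ℕ, Tendsto (fun j => (n j : ℝ) / ((⌊(φ j : ℝ) * y⌋ : ℤ) : ℝ)) atTop (𝓝 (δ / y)) ∧
        ∀ᶠ j in atTop, (0:ℝ) < φ j ∧ 1 ≤ n j ∧ 8 * (n j : ℤ) ≤ ⌊(φ j : ℝ) * y⌋ ∧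
          |⌊(φ j : ℝ) * x'⌋ - ⌊(φ j : ℝ) * x⌋| ≤ n j ∧
          |⌊(φ j : ℝ) * y'⌋ - ⌊(φ j : ℝ) * y⌋| ≤ n j := by
    intro x y x' y' δ hy hδ hδy hx' hy'
    refine ⟨fun j => (⌊(φ j : ℝ) * δ⌋ + 2).toNat, ?_, ?_⟩
    · have := sc_quo hφ (sc_add hφ (sc_fl hφ δ) 2) (sc_fl hφ y) hy.ne'
      refine this.congr' ?_
      filter_upwards [ev_ge hφ hδ (sc_fl hφ δ) 1] with j hj
      congr 1
      have e : (((⌊(φ j : ℝ) * δ⌋ + 2).toNat : ℕ) : ℤ) = ⌊(φ j : ℝ) * δ⌋ + 2 :=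
        Int.toNat_of_nonneg (by omega)
      exact_mod_cast e.symm
    · have h8 : ∀ᶠ j in atTop, (8:ℝ) * ((φ j : ℝ) * δ + 2) ≤ φ j * y - 1 := by
        obtain ⟨K, hK⟩ := exists_nat_gt (17 / (y - 8 * δ))
        filter_upwards [hφ.eventually_ge_atTop K] with j hj
        have h9 : (K : ℝ) ≤ φ j := by exact_mod_cast hj
        have h10 : 0 < y - 8 * δ := by linarith
        rw [div_lt_iff₀ h10] at hK
        nlinarith
      filter_upwards [ev_ge hφ hδ (sc_fl hφ δ) 1, h8, hφ.eventually_gt_atTop 0] with j hj1 hj2 hj3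
      have hφ0 : (0:ℝ) < φ j := by exact_mod_cast hj3
      have e : (((⌊(φ j : ℝ) * δ⌋ + 2).toNat : ℕ) : ℤ) = ⌊(φ j : ℝ) * δ⌋ + 2 :=
        Int.toNat_of_nonneg (by omega)
      have f1 := Int.floor_le ((φ j : ℝ) * δ)
      have f2 := Int.lt_floor_add_one ((φ j : ℝ) * δ)
      have dist : ∀ u v : ℝ, |u - v| ≤ δ → |⌊(φ j : ℝ) * u⌋ - ⌊(φ j : ℝ) * v⌋| ≤
          ⌊(φ j : ℝ) * δ⌋ + 2 := by
        intro u v huv
        have g1 := Int.floor_le ((φ j : ℝ) * u)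
        have g2 := Int.lt_floor_add_one ((φ j : ℝ) * u)
        have g3 := Int.floor_le ((φ j : ℝ) * v)
        have g4 := Int.lt_floor_add_one ((φ j : ℝ) * v)
        have g5 : |(φ j : ℝ) * u - φ j * v| ≤ φ j * δ := by
          rw [← mul_sub, abs_mul, abs_of_pos hφ0]
          exact mul_le_mul_of_nonneg_left huv hφ0.le
        rw [abs_le] at g5
        have : |((⌊(φ j : ℝ) * u⌋ : ℤ) : ℝ) - ⌊(φ j : ℝ) * v⌋| < ⌊(φ j : ℝ) * δ⌋ + 2 := by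
          rw [abs_lt]
          constructor <;> linarith
        exact_mod_cast this.le
      refine ⟨hφ0, by omega, ?_, ?_, ?_⟩
      · rw [e]
        rw [Int.le_floor]
        push_cast
        linarith
      · rw [e]; exact dist _ _ hx'
      · rw [e]; exact dist _ _ hy'
  have rp : ∀ u : ℝ, 0 ≤ u → 0 ≤ u ^ ((5 : ℝ) / 48) := fun u hu => Real.rpow_nonneg hu _
  refine ⟨?_, ?_, ?_, ?_, ?_, ?_, ?_, ?_, ?_⟩
  · intro x x' y hy hxx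
    refine le_of_tendsto_of_tendsto' (cS x' y hy) (cS x y hy) (fun j => ?_)
    exact sp_anti (Int.floor_le_floor (by gcongr))
  · intro x y hy
    exact ge_of_tendsto' (cS x y hy) (fun j => sp_nonneg _ _)
  · intro x y hy
    exact le_of_tendsto' (cS x y hy) (fun j => sp_le_one _ _)
  · intro x y hy
    have t1 := (wt_lim hφ hy (sc_fl hφ x) (sc_fl hφ y)).const_mul C3
    have h6 : ρ x y ≤ C3 * (1 / (|x| + y) * (y / (|x| + y)) ^ ((1 : ℝ) / 3)) := by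
      refine le_of_tendsto_of_tendsto (cρ x y hy) t1 ?_
      filter_upwards [evY y hy] with j hj
      calc (φ j : ℝ) * df ⌊(φ j : ℝ) * x⌋ ⌊(φ j : ℝ) * y⌋
          ≤ φ j * (C3 * wt ⌊(φ j : ℝ) * x⌋ ⌊(φ j : ℝ) * y⌋) := by
            gcongr
            exact h3 _ _ (by omega)
        _ = C3 * (φ j * wt ⌊(φ j : ℝ) * x⌋ ⌊(φ j : ℝ) * y⌋) := by ring
    refine h6.trans ?_
    gcongr
    linarith
  · intro x y hy hx
    have t1 := (rt_lim hφ hy (sc_fl hφ x) (sc_fl hφ y)).const_mul C4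
    have h6 : S x y ≤ C4 * (y / (|x| + y)) ^ ((1 : ℝ) / 3) := by
      refine le_of_tendsto_of_tendsto (cS x y hy) t1 ?_
      filter_upwards [evY y hy] with j hj
      exact h4 _ _ (Int.floor_nonneg.mpr (by positivity)) (by omega)
    refine h6.trans ?_
    gcongr
    linarith
  · intro x y hy hx
    have t1 := (rt_lim hφ hy (sc_fl hφ x) (sc_fl hφ y)).const_mul C5
    have h6 : 1 - S x y ≤ C5 * (y / (|x| + y)) ^ ((1 : ℝ) / 3) := by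
      refine le_of_tendsto_of_tendsto ((cS x y hy).const_sub 1) t1 ?_
      filter_upwards [evY y hy] with j hj
      refine h5 _ _ ?_ (by omega)
      have : (⌊(φ j : ℝ) * x⌋ : ℤ) ≤ ⌊(0:ℝ)⌋ :=
        Int.floor_le_floor (mul_nonpos_of_nonneg_of_nonpos (Nat.cast_nonneg _) hx)
      simpa using this
    refine h6.trans ?_
    gcongr
    linarith
  · intro x y x' y' δ hy hδ hδy hx' hy'
    have hy'0 : 0 < y' := by
      rw [abs_le] at hy'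
      linarith
    obtain ⟨n, n1, n2⟩ := hj x y x' y' δ hy hδ hδy hx' hy'
    have t1 := (n1.rpow_const (p := (5 : ℝ) / 48) (Or.inr (by norm_num))).const_mul C1
    have t2 := ((cS x' y' hy'0).sub (cS x y hy)).abs
    have h6 : |S x' y' - S x y| ≤ C1 * (δ / y) ^ ((5 : ℝ) / 48) := by
      refine le_of_tendsto_of_tendsto t2 t1 ?_
      filter_upwards [n2] with j hj
      obtain ⟨-, b1, b2, b3, b4⟩ := hj
      rw [abs_sub_comm] at b3 b4 ⊢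
      exact h1 _ _ _ _ (n j) b1 b2 b3 b4
    refine h6.trans ?_
    gcongr
    linarith
  · intro x y x' y' δ hy hδ hδy hx' hy'
    have hy'0 : 0 < y' := by
      rw [abs_le] at hy'
      linarith
    obtain ⟨n, n1, n2⟩ := hj x y x' y' δ hy hδ hδy hx' hy'
    have t0 : Tendsto (fun j => C2 / (((⌊(φ j : ℝ) * y⌋ : ℤ) : ℝ) / φ j)) atTop (𝓝 (C2 / y)) :=
      tendsto_const_nhds.div (sc_fl hφ y) hy.ne'
    have t1 := t0.mul (n1.rpow_const (p := (5 : ℝ) / 48) (Or.inr (by norm_num)))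
    have t2 := ((cρ x' y' hy'0).sub (cρ x y hy)).abs
    have h6 : |ρ x' y' - ρ x y| ≤ C2 / y * (δ / y) ^ ((5 : ℝ) / 48) := by
      refine le_of_tendsto_of_tendsto t2 t1 ?_
      filter_upwards [n2] with j hj
      obtain ⟨b0, b1, b2, b3, b4⟩ := hj
      rw [← mul_sub, abs_mul, abs_of_pos b0]
      rw [abs_sub_comm] at b3 b4
      rw [abs_sub_comm]
      have := h2 _ _ _ _ (n j) b1 b2 b3 b4
      calc (φ j : ℝ) * |df ⌊(φ j : ℝ) * x⌋ ⌊(φ j : ℝ) * y⌋ - df ⌊(φ j : ℝ) * x'⌋ ⌊(φ j : ℝ) * y'⌋|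
          ≤ φ j * (C2 / (⌊(φ j : ℝ) * y⌋ : ℤ) * ((n j : ℝ) / (⌊(φ j : ℝ) * y⌋ : ℤ)) ^
            ((5 : ℝ) / 48)) := by gcongr
        _ = _ := by
            rw [div_div_eq_mul_div]
            ring
    refine h6.trans ?_
    gcongr
    linarith
  · intro x y δ hy hδ hδy
    have hn : ∃ n : ℕ → ℕ, Sc φ (fun j => (n j : ℤ)) δ ∧ (∀ᶠ j in atTop, (1 ≤ n j ∧
        8 * (n j : ℤ) ≤ ⌊(φ j : ℝ) * y⌋) ∧
        ⌊(φ j : ℝ) * x⌋ + n j = ⌊(φ j : ℝ) * (x + δ)⌋) := by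
      have hs : Sc φ (fun j => ⌊(φ j : ℝ) * (x + δ)⌋ - ⌊(φ j : ℝ) * x⌋) δ := by
        have := sc_sum (sc_fl hφ (x + δ)) (sc_neg (sc_fl hφ x))
        rw [show x + δ + -x = δ by ring] at this
        exact this
      refine ⟨fun j => (⌊(φ j : ℝ) * (x + δ)⌋ - ⌊(φ j : ℝ) * x⌋).toNat, ?_, ?_⟩
      · refine Tendsto.congr' ?_ hs
        filter_upwards [ev_ge hφ hδ hs 1] with j hj
        rw [Int.toNat_of_nonneg (by omega)]
      · have h8 := sc_sum (sc_fl hφ y) (sc_neg (sc_sum hs (sc_sum hs (sc_sum hs (sc_sum hs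
          (sc_sum hs (sc_sum hs (sc_sum hs hs))))))))
        have h9 := ev_ge hφ (by linarith) h8 1
        filter_upwards [ev_ge hφ hδ hs 1, h9] with j hj hj9
        rw [Int.toNat_of_nonneg (by omega)]
        refine ⟨⟨by omega, by omega⟩, by ring⟩
    obtain ⟨n, n1, n2⟩ := hn
    have q1 := sc_quo hφ n1 (sc_fl hφ y) hy.ne'
    have t1 := (q1.const_mul C2).mul (q1.rpow_const (p := (5 : ℝ) / 48) (Or.inr (by norm_num)))
    have t2 := (((cS x y hy).sub (cS (x + δ) y hy)).sub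
      (Tendsto.mul n1 (cρ x y hy))).abs
    have h6 : |S x y - S (x + δ) y - δ * ρ x y| ≤ C2 * (δ / y) * (δ / y) ^ ((5 : ℝ) / 48) := by
      refine le_of_tendsto_of_tendsto t2 t1 ?_
      filter_upwards [n2, hφ.eventually_gt_atTop 0] with j hj hj0
      have hφ0 : (0:ℝ) < φ j := by exact_mod_cast hj0
      obtain ⟨⟨b1, b2⟩, b3⟩ := hj
      have := df_sum hC2 h2 (X := ⌊(φ j : ℝ) * x⌋) b1 b2
      rw [b3] at this
      have e : ((n j : ℤ) : ℝ) / φ j * ((φ j : ℝ) * df ⌊(φ j : ℝ) * x⌋ ⌊(φ j : ℝ) * y⌋) =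
          n j * df ⌊(φ j : ℝ) * x⌋ ⌊(φ j : ℝ) * y⌋ := by
        field_simp
        push_cast
        ring
      rw [e]
      push_cast
      exact this
    refine h6.trans ?_
    gcongr
    linarith

/-- The lower bound for the density. -/
theorem lower (K : ℕ) : ∃ c : ℝ, 0 < c ∧ ∀ (φ : ℕ → ℕ) (S ρ : ℝ → ℝ → ℝ), LPL φ S ρ →
    ∀ x y : ℝ, 0 < y → |x| ≤ K * y → c / y ≤ ρ x y := by
  obtain ⟨c, hc, y0, hy0, h1⟩ := df_lower (K + 1)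
  refine ⟨c, hc, ?_⟩
  intro φ S ρ h x y hy hxy
  have hφ := h.top
  have t0 : Tendsto (fun j => c / (((⌊(φ j : ℝ) * y⌋ : ℤ) : ℝ) / φ j)) atTop (𝓝 (c / y)) :=
    tendsto_const_nhds.div (sc_fl hφ y) hy.ne'
  refine le_of_tendsto_of_tendsto t0 (h.loc x y hy _ _ (sc_fl hφ x) (sc_fl hφ y)) ?_
  have q1 := sc_quo hφ (sc_abs (sc_fl hφ x)) (sc_fl hφ y) hy.ne'
  have q2 : |x| / y < K + 1 := by
    rw [div_lt_iff₀ hy]
    nlinarith
  filter_upwards [q1.eventually_lt_const q2, ev_ge hφ hy (sc_fl hφ y) y0,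
    hφ.eventually_gt_atTop 0] with j a1 a2 a3
  have hφ0 : (0:ℝ) < φ j := by exact_mod_cast a3
  have hY0 : (0:ℝ) < ((⌊(φ j : ℝ) * y⌋ : ℤ) : ℝ) := by
    exact_mod_cast (by omega : (0:ℤ) < ⌊(φ j : ℝ) * y⌋)
  rw [div_lt_iff₀ hY0] at a1
  have h2 := h1 ⌊(φ j : ℝ) * x⌋ ⌊(φ j : ℝ) * y⌋ a2 (by
    have : ((|⌊(φ j : ℝ) * x⌋| : ℤ) : ℝ) ≤ ((K + 1 : ℕ) * ⌊(φ j : ℝ) * y⌋ : ℤ) := by
      push_cast
      push_cast at a1
      exact a1.le
    exact_mod_cast this)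
  calc c / (((⌊(φ j : ℝ) * y⌋ : ℤ) : ℝ) / φ j) = φ j * (c / ((⌊(φ j : ℝ) * y⌋ : ℤ) : ℝ)) := by
        rw [div_div_eq_mul_div]
        ring
    _ ≤ _ := by gcongr

end Pool.Agent.U167.LP
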