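import Pool.Agent.U167.LP.Lim2

/-!
Scaling limits of the left-passage probabilities: the density, and Schramm's formula.
-/

set_option maxHeartbeats 1000000

namespace Pool.Agent.U167.LP

open H974 H731C MeasureTheory Filter Topology Set Pool.Agent.U167.HP

/-- Schramm's density, without normalisation. -/
noncomputable def sk (u : ℝ) : ℝ := (1 + u ^ 2) ^ (-((2 : ℝ) / 3))

theorem sk_pos (u : ℝ) : 0 < sk u := by unfold sk; positivity

theorem sk_cont : Continuous sk := by
  unfold sk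
  apply Continuous.rpow_const (by fun_prop)
  intro u
  left
  positivity

theorem sk_int : Integrable sk := by
  have := integrable_rpow_neg_one_add_norm_sq (E := ℝ) (μ := volume) (r := 4 / 3) (by simp; norm_num)
  refine this.congr (Eventually.of_forall (fun u => ?_))
  unfold sk
  simp only [Real.norm_eq_abs, sq_abs]
  congr 1
  norm_num

/-- Schramm's density at height `y`. -/
noncomputable def sd (x y : ℝ) : ℝ := y ^ ((1 : ℝ) / 3) / (x ^ 2 + y ^ 2) ^ ((2 : ℝ) / 3)

theorem sd_eq {x y : ℝ} (hy : 0 < y) : sd x y = 1 / y * sk (x / y) := by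
  unfold sd sk
  have e : 1 + (x / y) ^ 2 = (x ^ 2 + y ^ 2) / y ^ 2 := by
    field_simp
    ring
  rw [e, Real.rpow_neg (by positivity), Real.div_rpow (by positivity) (by positivity), inv_div]
  have e2 : (y ^ 2 : ℝ) ^ ((2 : ℝ) / 3) = y ^ ((4 : ℝ) / 3) := by
    rw [← Real.rpow_natCast, ← Real.rpow_mul hy.le]
    norm_num
  have e3 : y ^ ((4 : ℝ) / 3) = y * y ^ ((1 : ℝ) / 3) := by
    conv_rhs => rw [← Real.rpow_one_add' hy.le (by norm_num)]
    norm_num
  rw [e2, e3]
  field_simp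

theorem sd_pos {x y : ℝ} (hy : 0 < y) : 0 < sd x y := by
  unfold sd
  positivity

theorem up_sd {x y : ℝ} (hy : 0 < y) :
    1 / (|x| + y) * (y / (|x| + y)) ^ ((1 : ℝ) / 3) ≤ sd x y := by
  have hd : 0 < |x| + y := by positivity
  unfold sd
  rw [Real.div_rpow hy.le hd.le, one_div, ← mul_div_assoc, inv_mul_eq_div, div_div]
  apply div_le_div_of_nonneg_left (by positivity) (by positivity)
  have e1 : (|x| + y) * (|x| + y) ^ ((1 : ℝ) / 3) = ((|x| + y) ^ 2) ^ ((2 : ℝ) / 3) := by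
    rw [← Real.rpow_one_add' hd.le (by norm_num), ← Real.rpow_natCast, ← Real.rpow_mul hd.le]
    norm_num
  rw [e1]
  apply Real.rpow_le_rpow (by positivity) _ (by norm_num)
  have := abs_nonneg x
  nlinarith [sq_abs x]

theorem sd_int {y : ℝ} (hy : 0 < y) : Integrable (fun x => sd x y) := by
  have h1 := (sk_int.comp_div hy.ne').const_mul (1 / y)
  refine h1.congr (Eventually.of_forall (fun x => ?_))
  exact (sd_eq hy).symm

section limits
variable {C : ℝ} {S ρ : ℝ → ℝ → ℝ}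

theorem LPP.two (hP : LPP C S ρ) {x y h : ℝ} (hy : 0 < y) (h8 : 8 * |h| < y) :
    |S (x + h) y - S x y + h * ρ x y| ≤ |h| * (2 * C / y * (|h| / y) ^ ((5 : ℝ) / 48)) := by
  rcases lt_trichotomy h 0 with h0 | h0 | h0
  · have ha : |h| = -h := abs_of_neg h0
    have hh : 0 < -h := by linarith
    have i1 := hP.inc (x + h) y (-h) hy hh (by rw [ha] at h8; exact h8)
    have i2 := hP.holρ x y (x + h) y (-h) hy hh (by rw [ha] at h8; exact h8)
      (by rw [add_sub_cancel_left, ha]) (by simpa using hh.le)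
    rw [show x + h + -h = x by ring] at i1
    have e : S (x + h) y - S x y + h * ρ x y =
        (S (x + h) y - S x y - -h * ρ (x + h) y) + -h * (ρ (x + h) y - ρ x y) := by ring
    rw [e]
    refine (abs_add_le _ _).trans ?_
    rw [abs_mul (-h), abs_of_pos hh, ha]
    calc _ ≤ C * (-h / y) * (-h / y) ^ ((5 : ℝ) / 48) + -h * (C / y * (-h / y) ^ ((5 : ℝ) / 48)) :=
          add_le_add i1 (mul_le_mul_of_nonneg_left i2 hh.le)
      _ = _ := by ring
  · subst h0
    simp
  · have ha : |h| = h := abs_of_pos h0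
    rw [ha] at h8 ⊢
    have i1 := hP.inc x y h hy h0 h8
    have e : S (x + h) y - S x y + h * ρ x y = -(S x y - S (x + h) y - h * ρ x y) := by ring
    rw [e, abs_neg]
    have h3 : 0 ≤ C * (h / y) * (h / y) ^ ((5 : ℝ) / 48) := (abs_nonneg _).trans i1
    calc _ ≤ C * (h / y) * (h / y) ^ ((5 : ℝ) / 48) := i1
      _ ≤ C * (h / y) * (h / y) ^ ((5 : ℝ) / 48) + C * (h / y) * (h / y) ^ ((5 : ℝ) / 48) := by
          linarith
      _ = _ := by ring

theorem LPP.der (hC : 1 ≤ C) (hP : LPP C S ρ) {x y : ℝ} (hy : 0 < y) :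
    HasDerivAt (fun u => S u y) (-(ρ x y)) x := by
  rw [hasDerivAt_iff_isLittleO_nhds_zero, Asymptotics.isLittleO_iff]
  intro c hc
  obtain ⟨δ, d1, d2, d3, d4⟩ := exists_small (C := 2 * C) (by linarith) hy hc
  have : ∀ᶠ h : ℝ in 𝓝 0, |h| < δ / 2 := by
    have := (continuous_abs (G := ℝ)).tendsto 0
    rw [abs_zero] at this
    exact this.eventually_lt_const (by positivity)
  filter_upwards [this] with h hh
  have i := hP.two (x := x) hy (h := h) (by linarith)
  rw [smul_neg, smul_eq_mul, sub_neg_eq_add, Real.norm_eq_abs, Real.norm_eq_abs]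
  refine i.trans ?_
  rw [mul_comm c]
  apply mul_le_mul_of_nonneg_left _ (abs_nonneg h)
  refine le_trans ?_ d4
  gcongr
  linarith

theorem LPP.contρ (hC : 1 ≤ C) (hP : LPP C S ρ) {y : ℝ} (hy : 0 < y) :
    Continuous (fun x => ρ x y) := by
  rw [continuous_iff_continuousAt]
  intro x
  rw [Metric.continuousAt_iff']
  intro ε hε
  obtain ⟨δ, d1, d2, d3, d4⟩ := exists_small (C := C) (by linarith) hy (half_pos hε)
  filter_upwards [Metric.ball_mem_nhds x d1] with u hu
  rw [Metric.mem_ball, Real.dist_eq] at hu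
  rw [Real.dist_eq]
  have := hP.holρ x y u y δ hy d1 (by linarith) hu.le (by simpa using d1.le)
  linarith

theorem LPP.upper' (hC : 1 ≤ C) (hP : LPP C S ρ) {x y : ℝ} (hy : 0 < y) :
    ρ x y ≤ C * sd x y :=
  (hP.upper x y hy).trans (mul_le_mul_of_nonneg_left (up_sd hy) (by linarith))

theorem LPP.topS (hP : LPP C S ρ) {y : ℝ} (hy : 0 < y) :
    Tendsto (fun x => S x y) atTop (𝓝 0) := by
  have h1 : Tendsto (fun x : ℝ => C * (y / (|x| + y)) ^ ((1 : ℝ) / 3)) atTop (𝓝 0) := by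
    have h2 : Tendsto (fun x : ℝ => y / (|x| + y)) atTop (𝓝 0) :=
      tendsto_const_nhds.div_atTop (tendsto_atTop_add_const_right atTop y tendsto_abs_atTop_atTop)
    have h3 := (h2.rpow_const (p := (1 : ℝ) / 3) (Or.inr (by norm_num))).const_mul C
    rwa [Real.zero_rpow (by norm_num), mul_zero] at h3
  refine tendsto_of_tendsto_of_tendsto_of_le_of_le' tendsto_const_nhds h1
    (Eventually.of_forall (fun x => hP.nonneg x y hy)) ?_
  filter_upwards [eventually_ge_atTop 0] with x hx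
  exact hP.tail x y hy hx

theorem LPP.botS (hP : LPP C S ρ) {y : ℝ} (hy : 0 < y) :
    Tendsto (fun x => S x y) atBot (𝓝 1) := by
  have h1 : Tendsto (fun x : ℝ => 1 - C * (y / (|x| + y)) ^ ((1 : ℝ) / 3)) atBot (𝓝 1) := by
    have h2 : Tendsto (fun x : ℝ => y / (|x| + y)) atBot (𝓝 0) :=
      tendsto_const_nhds.div_atTop (tendsto_atTop_add_const_right atBot y tendsto_abs_atBot_atTop)
    have h3 := ((h2.rpow_const (p := (1 : ℝ) / 3) (Or.inr (by norm_num))).const_mul C).const_sub 1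
    rwa [Real.zero_rpow (by norm_num), mul_zero, sub_zero] at h3
  refine tendsto_of_tendsto_of_tendsto_of_le_of_le' h1 tendsto_const_nhds ?_
    (Eventually.of_forall (fun x => hP.le_one x y hy))
  filter_upwards [eventually_le_atBot 0] with x hx
  have := hP.tail' x y hy hx
  linarith

theorem LPP.nonnegρ (hC : 1 ≤ C) (hP : LPP C S ρ) {x y : ℝ} (hy : 0 < y) : 0 ≤ ρ x y := by
  have h1 := hP.der hC (x := x) hy
  have h2 : deriv (fun u => S u y) x ≤ 0 := by
    apply Antitone.deriv_nonpos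
    intro a b hab
    exact hP.anti a b y hy hab
  rw [h1.deriv] at h2
  linarith

theorem LPP.int (hC : 1 ≤ C) (hP : LPP C S ρ) {y : ℝ} (hy : 0 < y) :
    Integrable (fun x => ρ x y) := by
  refine ((sd_int hy).const_mul C).mono' (hP.contρ hC hy).aestronglyMeasurable ?_
  refine Eventually.of_forall (fun x => ?_)
  rw [Real.norm_eq_abs, abs_of_nonneg (hP.nonnegρ hC hy)]
  exact hP.upper' hC hy

theorem LPP.int_eq (hC : 1 ≤ C) (hP : LPP C S ρ) {x y : ℝ} (hy : 0 < y) :
    ∫ u in Ioi x, ρ u y = S x y := by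
  have h1 := integral_Ioi_of_hasDerivAt_of_tendsto' (a := x) (f := fun u => S u y)
    (f' := fun u => -(ρ u y)) (fun u _ => hP.der hC hy) (hP.int hC hy).neg.integrableOn
    (hP.topS hy)
  rw [integral_neg] at h1
  linarith

theorem LPP.total (hC : 1 ≤ C) (hP : LPP C S ρ) {y : ℝ} (hy : 0 < y) :
    ∫ u, ρ u y = 1 := by
  have h1 := integral_of_hasDerivAt_of_tendsto (f := fun u => S u y)
    (f' := fun u => -(ρ u y)) (fun u => hP.der hC hy) (hP.int hC hy).neg (hP.botS hy)
    (hP.topS hy)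
  rw [integral_neg] at h1
  linarith

end limits

/-! ### Convergence of the whole family -/

theorem full_local {F : ℝ → ℝ → ℝ} (hF : ∀ x y, 0 < y →
    Tendsto (fun M : ℕ => sp ⌊(M : ℝ) * x⌋ ⌊(M : ℝ) * y⌋) atTop (𝓝 (F x y))) {x y : ℝ}
    (hy : 0 < y) : HasDerivAt (fun u => F u y) (deriv (fun u => F u y) x) x ∧
    Tendsto (fun M : ℕ => (M : ℝ) * df ⌊(M : ℝ) * x⌋ ⌊(M : ℝ) * y⌋) atTop
      (𝓝 (-deriv (fun u => F u y) x)) := by
  obtain ⟨C, hC, hP⟩ := props
  have key : ∀ φ : ℕ → ℕ, Tendsto φ atTop atTop → ∃ ψ : ℕ → ℕ, ∃ ρ : ℝ,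
      HasDerivAt (fun u => F u y) (-ρ) x ∧ Tendsto (fun j => ((φ (ψ j) : ℕ) : ℝ) *
        df ⌊((φ (ψ j) : ℕ) : ℝ) * x⌋ ⌊((φ (ψ j) : ℕ) : ℝ) * y⌋) atTop (𝓝 ρ) := by
    intro φ hφ
    obtain ⟨ψ, hψ, S, ρ, h⟩ := exists_lpl hφ
    have e : (fun u => F u y) = (fun u => S u y) := by
      ext r
      have t1 := h.cdf r y hy _ _ (sc_fl h.top r) (sc_fl h.top y)
      have t2 := (hF r y hy).comp h.top
      exact tendsto_nhds_unique t2 t1
    refine ⟨ψ, ρ x y, ?_, ?_⟩
    · rw [e]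
      exact (hP _ _ _ h).der hC hy
    · exact h.loc x y hy _ _ (sc_fl h.top x) (sc_fl h.top y)
  constructor
  · obtain ⟨ψ, ρ, h1, -⟩ := key id tendsto_id
    exact h1.differentiableAt.hasDerivAt
  · apply tendsto_of_subseq_tendsto
    intro φ hφ
    obtain ⟨ψ, ρ, h1, h2⟩ := key φ hφ
    refine ⟨ψ, ?_⟩
    rw [h1.deriv, neg_neg]
    exact h2

theorem local_full {ρ : ℝ → ℝ → ℝ} (hρ : ∀ x y, 0 < y →
    Tendsto (fun M : ℕ => (M : ℝ) * df ⌊(M : ℝ) * x⌋ ⌊(M : ℝ) * y⌋) atTop (𝓝 (ρ x y)))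
    {x y : ℝ} (hy : 0 < y) :
    Tendsto (fun M : ℕ => sp ⌊(M : ℝ) * x⌋ ⌊(M : ℝ) * y⌋) atTop
      (𝓝 (∫ u in Ioi x, ρ u y)) := by
  obtain ⟨C, hC, hP⟩ := props
  apply tendsto_of_subseq_tendsto
  intro φ hφ
  obtain ⟨ψ, hψ, S, ρ', h⟩ := exists_lpl hφ
  refine ⟨ψ, ?_⟩
  have e : (fun u => ρ' u y) = (fun u => ρ u y) := by
    ext r
    have t1 := h.loc r y hy _ _ (sc_fl h.top r) (sc_fl h.top y)
    have t2 := (hρ r y hy).comp h.top
    exact tendsto_nhds_unique t1 t2
  have h1 : ∫ u in Ioi x, ρ u y = S x y := by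
    rw [← (hP _ _ _ h).int_eq hC hy, e]
  rw [h1]
  exact h.cdf x y hy _ _ (sc_fl h.top x) (sc_fl h.top y)

/-! ### Schramm's formula -/

/-- Schramm's function. -/
noncomputable def sf (t : ℝ) : ℝ := (∫ u in Ioi t, sk u) / ∫ u, sk u

theorem sk_total : 0 < ∫ u, sk u := by
  rw [integral_pos_iff_support_of_nonneg (fun u => (sk_pos u).le) sk_int]
  have : Function.support sk = Set.univ := by
    ext u
    simp [(sk_pos u).ne']
  rw [this]
  simp

theorem sf_eq {x y : ℝ} (hy : 0 < y) : ∫ u in Ioi x, sd u y / ∫ u, sk u = sf (x / y) := by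
  unfold sf
  rw [integral_div]
  congr 1
  have h1 : ∀ u, sd u y = 1 / y * sk (1 / y * u) := by
    intro u
    rw [sd_eq hy]
    congr 2
    ring
  simp only [h1]
  rw [integral_const_mul, integral_comp_mul_left_Ioi sk x (by positivity : 0 < 1 / y)]
  rw [smul_eq_mul, show 1 / y * x = x / y by ring]
  field_simp

theorem sf_der {x y : ℝ} (hy : 0 < y) :
    HasDerivAt (fun u => sf (u / y)) (-(sd x y / ∫ u, sk u)) x := by
  have hI : Integrable (fun u => sd u y / ∫ u, sk u) := (sd_int hy).div_const _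
  have hc : Continuous (fun u => sd u y / ∫ u, sk u) := by
    have : (fun u => sd u y / ∫ u, sk u) = fun u => 1 / y * sk (u / y) / ∫ u, sk u := by
      ext u
      rw [sd_eq hy]
    rw [this]
    exact ((sk_cont.comp (continuous_id.div_const y)).const_mul _).div_const _
  have e : (fun u => sf (u / y)) = fun u => sf (0 / y) - ∫ v in (0:ℝ)..u, sd v y / ∫ u, sk u := by
    ext u
    rw [← sf_eq hy, ← sf_eq hy]
    have := intervalIntegral.integral_Ioi_sub_Ioi' (f := fun u => sd u y / ∫ u, sk u)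
      (a := 0) (b := u) (μ := volume) hI.integrableOn hI.integrableOn
    rw [← this]
    ring
  rw [e]
  have h2 := (intervalIntegral.integral_hasDerivAt_right (hc.intervalIntegrable 0 x)
    (hc.stronglyMeasurableAtFilter _ _) hc.continuousAt)
  exact h2.const_sub _

/-- Schramm's formula is equivalent to its local form. -/
theorem schramm_iff :
    (∀ x y, 0 < y →
      Tendsto (fun M : ℕ => sp ⌊(M : ℝ) * x⌋ ⌊(M : ℝ) * y⌋) atTop (𝓝 (sf (x / y)))) ↔
    ∀ x y, 0 < y →
      Tendsto (fun M : ℕ => (M : ℝ) * df ⌊(M : ℝ) * x⌋ ⌊(M : ℝ) * y⌋) atTop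
        (𝓝 (sd x y / ∫ u, sk u)) := by
  constructor
  · intro h x y hy
    have := (full_local (F := fun x y => sf (x / y)) h (x := x) hy).2
    rwa [(sf_der hy).deriv, neg_neg] at this
  · intro h x y hy
    have := local_full (ρ := fun x y => sd x y / ∫ u, sk u) h (x := x) hy
    rwa [sf_eq hy] at this

end Pool.Agent.U167.LP
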