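import Pool.Agent.U167.LP.Hol
import Pool.Agent.H985R6.LC.TTU

/-!
The lower bound for the difference: the open tube around the face.
-/

set_option maxHeartbeats 1000000

namespace Pool.Agent.U167.LP

open H974 H731C H985LC Finset Pool.Agent.U167.HP MeasureTheory

/-- The tube: from the boundary points `2m, …, 3m` to the right, up, to the left and down. -/
noncomputable def TO (m l r t : ℤ) : Finset Edg :=
  RE (2 * m) (3 * m) 0 m ∪ (RE (2 * m) (r + m) 0 m ∪ (RE r (r + m) 0 (t + m) ∪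
    (RE (l - m) (r + m) t (t + m) ∪ RE (l - m) l 0 (t + m))))

theorem mem_TO {m l r t : ℤ} {e : Edg} : e ∈ TO m l r t ↔ e ∈ RE (2 * m) (3 * m) 0 m ∨
    e ∈ RE (2 * m) (r + m) 0 m ∨ e ∈ RE r (r + m) 0 (t + m) ∨
    e ∈ RE (l - m) (r + m) t (t + m) ∨ e ∈ RE (l - m) l 0 (t + m) := by
  unfold TO
  simp only [Finset.mem_union]

/-- The open crossings of the parts of the tube. -/
def OpT (m l r t : ℤ) (F : Finset Edg) : Prop :=
  TBc (2 * m) (3 * m) 0 m F ∧ (LRc (2 * m) (r + m) 0 m F ∧ (TBc r (r + m) 0 (t + m) F ∧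
    (LRc (l - m) (r + m) t (t + m) F ∧ TBc (l - m) l 0 (t + m) F)))

theorem sub_TB' {a b c d : ℤ} {F : Set Edg} {u v : Vtx} (h : Reach (F ∩ ↑(TBE a b c d)) u v) :
    Reach (F ∩ ↑(RE a b c d)) u v :=
  h.mono (Set.inter_subset_inter_right _ (by exact_mod_cast TBE_subset_RE))

theorem sub_LR' {a b c d : ℤ} {F : Set Edg} {u v : Vtx} (h : Reach (F ∩ ↑(LRE a b c d)) u v) :
    Reach (F ∩ ↑(RE a b c d)) u v :=
  h.mono (Set.inter_subset_inter_right _ (by exact_mod_cast LRE_subset_RE))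

theorem open_geo {m l r t x y : ℤ} {F : Finset Edg} {G : Set Edg} (hm : 1 ≤ m) (hl : l ≤ x)
    (hl0 : l < 0) (hr : x < r) (hr3 : 3 * m ≤ r) (hy : m < y) (ht : y < t)
    (hF : (↑F : Set Edg) ⊆ G ∩ ↑(TO m l r t)) (h : OpT m l r t F) : Lft (3 * m) (x, y) G := by
  obtain ⟨⟨x0, x0', h01, h02, h03⟩, ⟨y1, y1', h11, h12, h13⟩, ⟨x2, x2', h21, h22, h23⟩,
    ⟨y3, y3', h31, h32, h33⟩, ⟨x4, x4', h41, h42, h43⟩⟩ := h
  have c1 := cross_meet (F := (↑F : Set Edg)) (A := 2 * m) (a := 2 * m) (b := 3 * m) (B := r + m)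
    (C := 0) (c := 0) (d := m) (D := m) le_rfl (by omega) (by omega) le_rfl (by omega) le_rfl
    (sub_LR' h13) le_rfl (by show 3 * m ≤ r + m; omega) (sub_TB' h03) le_rfl le_rfl
  have c2 := cross_meet (F := (↑F : Set Edg)) (A := 2 * m) (a := r) (b := r + m) (B := r + m)
    (C := 0) (c := 0) (d := m) (D := t + m) (by omega) (by omega) le_rfl le_rfl (by omega)
    (by omega) (sub_LR' h13) (by show 2 * m ≤ r; omega) le_rfl (sub_TB' h23) le_rfl
    (by show m ≤ t + m; omega)
  have c3 := cross_meet (F := (↑F : Set Edg)) (A := l - m) (a := r) (b := r + m) (B := r + m)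
    (C := 0) (c := t) (d := t + m) (D := t + m) (by omega) (by omega) le_rfl (by omega) (by omega)
    le_rfl (sub_LR' h33) (by show l - m ≤ r; omega) le_rfl (sub_TB' h23)
    (by show (0:ℤ) ≤ t; omega) le_rfl
  have c4 := cross_meet (F := (↑F : Set Edg)) (A := l - m) (a := l - m) (b := l) (B := r + m)
    (C := 0) (c := t) (d := t + m) (D := t + m) le_rfl (by omega) (by omega) (by omega) (by omega)
    le_rfl (sub_LR' h33) le_rfl (by show l ≤ r + m; omega) (sub_TB' h43)
    (by show (0:ℤ) ≤ t; omega) le_rfl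
  have i : ∀ {a b c d : ℤ} {u v : Vtx}, Reach ((↑F : Set Edg) ∩ ↑(RE a b c d)) u v →
      Reach (↑F : Set Edg) u v := fun h => h.mono Set.inter_subset_left
  have key : Reach (↑F : Set Edg) (x0, 0) (x4, 0) :=
    (i c1).symm.trans ((i c2).trans ((i c3).symm.trans (i c4)))
  have hup : (↑F : Set Edg) ⊆ G ∩ up := by
    intro e he
    refine ⟨(hF he).1, ?_⟩
    have h2 := (mem_TO (e := e)).mp (Finset.mem_coe.mp (hF he).2)
    obtain ⟨p, q, _ | _⟩ := e
    · simp only [mem_RE_false] at h2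
      show 0 ≤ q
      omega
    · simp only [mem_RE_true] at h2
      show 0 ≤ q
      omega
  obtain ⟨b, hb⟩ := exists_PR (cr (x, y)) key
  have hb1 := hb.cob (fun u => decide (u.2 ≤ y ∧ l < u.1)) (by
    intro e he
    have h2 := (mem_TO (e := e)).mp (Finset.mem_coe.mp (hF he).2)
    obtain ⟨p, q, _ | _⟩ := e
    · simp only [mem_RE_false] at h2
      rw [cr_false, src_mk, tgt_false]
      simp only
      by_cases hq : q = y
      · subst hq
        by_cases hp : l < p
        · have h3 : x < p := by omega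
          have h4 : ¬ q + 1 ≤ q := by omega
          simp [hp, h3, h4]
        · have h3 : ¬ x < p := by omega
          simp [hp, h3]
      · by_cases hq2 : q ≤ y
        · have h4 : q + 1 ≤ y := by omega
          simp [hq, hq2, h4]
        · have h4 : ¬ q + 1 ≤ y := by omega
          simp [hq, hq2, h4]
    · simp only [mem_RE_true] at h2
      rw [cr_true, src_mk, tgt_true]
      simp only
      by_cases hq2 : q ≤ y
      · have h3 : l < p ↔ l < p + 1 := by omega
        simp [hq2, h3]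
      · simp [hq2])
  have e1 : (0:ℤ) ≤ y ∧ l < x0 := ⟨by omega, by omega⟩
  have e2 : ¬ ((0:ℤ) ≤ y ∧ l < x4) := by omega
  have e3 : b = true := by
    rw [hb1]
    show xor (decide ((0:ℤ) ≤ y ∧ l < x0)) (decide ((0:ℤ) ≤ y ∧ l < x4)) = true
    rw [decide_eq_true e1, decide_eq_false e2]
    rfl
  subst e3
  exact ⟨x0, x4, h01.2, by omega, hb.mono hup⟩

theorem pr_OpT {m l r t : ℤ} {K : ℕ} (hm : 1 ≤ m) (hl0 : l < 0) (hr3 : 3 * m ≤ r) (ht : 0 ≤ t)
    (h1 : r - l + 2 * m ≤ K * m) (h2 : t + m ≤ K * m) :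
    ((1/2:ℝ)^(48 * (K + 1)))^5 ≤ P2 (TO m l r t) (OpT m l r t) := by
  set P : ℝ := (1/2:ℝ)^(48 * (K + 1)) with hP
  have hP0 : 0 ≤ P := by positivity
  have s0 : TBE (2 * m) (3 * m) 0 m ⊆ TO m l r t := by
    intro e he; rw [mem_TO]; left; exact TBE_subset_RE he
  have s1 : LRE (2 * m) (r + m) 0 m ⊆ TO m l r t := by
    intro e he; rw [mem_TO]; right; left; exact LRE_subset_RE he
  have s2 : TBE r (r + m) 0 (t + m) ⊆ TO m l r t := by
    intro e he; rw [mem_TO]; right; right; left; exact TBE_subset_RE he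
  have s3 : LRE (l - m) (r + m) t (t + m) ⊆ TO m l r t := by
    intro e he; rw [mem_TO]; right; right; right; left; exact LRE_subset_RE he
  have s4 : TBE (l - m) l 0 (t + m) ⊆ TO m l r t := by
    intro e he; rw [mem_TO]; right; right; right; right; exact TBE_subset_RE he
  have e0 := pr_TBc (1/2) s0
  have e1 := pr_LRc (1/2) s1
  have e2 := pr_TBc (1/2) s2
  have e3 := pr_LRc (1/2) s3
  have e4 := pr_TBc (1/2) s4
  have hKm : m ≤ K * m := by omega
  have b0 : P ≤ P2 (TO m l r t) (TBc (2 * m) (3 * m) 0 m) := by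
    unfold P2; rw [e0]
    rw [show 3 * m - 2 * m = m by ring]
    exact TUaux.hh_gen K (by omega) (by omega) (by omega)
  have b1 : P ≤ P2 (TO m l r t) (LRc (2 * m) (r + m) 0 m) := by
    unfold P2; rw [e1]
    rw [show m - 0 = m by ring]
    exact TUaux.hh_gen K (by omega) (by omega) (by omega)
  have b2 : P ≤ P2 (TO m l r t) (TBc r (r + m) 0 (t + m)) := by
    unfold P2; rw [e2]
    rw [show r + m - r = m by ring]
    exact TUaux.hh_gen K (by omega) (by omega) (by omega)
  have b3 : P ≤ P2 (TO m l r t) (LRc (l - m) (r + m) t (t + m)) := by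
    unfold P2; rw [e3]
    rw [show t + m - t = m by ring]
    exact TUaux.hh_gen K (by omega) (by omega) (by omega)
  have b4 : P ≤ P2 (TO m l r t) (TBc (l - m) l 0 (t + m)) := by
    unfold P2; rw [e4]
    rw [show l - (l - m) = m by ring]
    exact TUaux.hh_gen K (by omega) (by omega) (by omega)
  have i0 := TBc_incr (TO m l r t) (2 * m) (3 * m) 0 m
  have i1 := LRc_incr (TO m l r t) (2 * m) (r + m) 0 m
  have i2 := TBc_incr (TO m l r t) r (r + m) 0 (t + m)
  have i3 := LRc_incr (TO m l r t) (l - m) (r + m) t (t + m)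
  have i4 := TBc_incr (TO m l r t) (l - m) l 0 (t + m)
  have i34 : IncrE (TO m l r t) (fun F => LRc (l - m) (r + m) t (t + m) F ∧
      TBc (l - m) l 0 (t + m) F) := fun F G h hG hF => ⟨i3 F G h hG hF.1, i4 F G h hG hF.2⟩
  have i234 : IncrE (TO m l r t) (fun F => TBc r (r + m) 0 (t + m) F ∧
      (LRc (l - m) (r + m) t (t + m) F ∧ TBc (l - m) l 0 (t + m) F)) :=
    fun F G h hG hF => ⟨i2 F G h hG hF.1, i34 F G h hG hF.2⟩
  have i1234 : IncrE (TO m l r t) (fun F => LRc (2 * m) (r + m) 0 m F ∧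
      (TBc r (r + m) 0 (t + m) F ∧
      (LRc (l - m) (r + m) t (t + m) F ∧ TBc (l - m) l 0 (t + m) F))) :=
    fun F G h hG hF => ⟨i1 F G h hG hF.1, i234 F G h hG hF.2⟩
  have j34 := Pr_harris okhalf2 i3 i4
  have j234 := Pr_harris okhalf2 i2 i34
  have j1234 := Pr_harris okhalf2 i1 i234
  have j := Pr_harris okhalf2 i0 i1234
  have k34 : P * P ≤ _ := (mul_le_mul b3 b4 hP0 (hP0.trans b3)).trans j34
  have k234 : P * (P * P) ≤ _ := (mul_le_mul b2 k34 (by positivity) (hP0.trans b2)).trans j234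
  have k1234 : P * (P * (P * P)) ≤ _ :=
    (mul_le_mul b1 k234 (by positivity) (hP0.trans b1)).trans j1234
  have k : P * (P * (P * (P * P))) ≤ _ :=
    (mul_le_mul b0 k1234 (by positivity) (hP0.trans b0)).trans j
  calc P ^ 5 = P * (P * (P * (P * P))) := by ring
    _ ≤ _ := k

end Pool.Agent.U167.LP
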