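import Pool.Agent.U167.HP.Inf

/-!
Walks with a parity: the number of the edges of a walk with `φ e = true`, modulo two.
-/

set_option maxHeartbeats 1000000

namespace Pool.Agent.U167.LP

open H974 H731C Finset Pool.Agent.U167.HP

/-- A step of a walk together with the parity. -/
def Adj2 (φ : Edg → Bool) (G : Set Edg) (p q : Vtx × Bool) : Prop :=
  ∃ e ∈ G, ((src e = p.1 ∧ tgt e = q.1) ∨ (src e = q.1 ∧ tgt e = p.1)) ∧ q.2 = xor p.2 (φ e)

/-- There is a walk of `G` from `u` to `v` such that `b` is the parity of the number of its edges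
with `φ e = true`. -/
def PR (φ : Edg → Bool) (G : Set Edg) (u v : Vtx) (b : Bool) : Prop :=
  Relation.ReflTransGen (Adj2 φ G) (u, false) (v, b)

variable {φ ψ : Edg → Bool} {G H : Set Edg} {u v w : Vtx} {a b c : Bool}

theorem PR.refl : PR φ G u u false := Relation.ReflTransGen.refl

theorem Adj2.shift {p q : Vtx × Bool} (h : Adj2 φ G p q) (c : Bool) :
    Adj2 φ G (p.1, xor c p.2) (q.1, xor c q.2) := by
  obtain ⟨e, he, h1, h2⟩ := h
  refine ⟨e, he, h1, ?_⟩
  simp only
  rw [h2, Bool.xor_assoc]

theorem Adj2.symm {p q : Vtx × Bool} (h : Adj2 φ G p q) : Adj2 φ G q p := by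
  obtain ⟨e, he, h1, h2⟩ := h
  refine ⟨e, he, h1.symm, ?_⟩
  rw [h2, Bool.xor_assoc, Bool.xor_self, Bool.xor_false]

theorem shift_all {p q : Vtx × Bool} (h : Relation.ReflTransGen (Adj2 φ G) p q) (c : Bool) :
    Relation.ReflTransGen (Adj2 φ G) (p.1, xor c p.2) (q.1, xor c q.2) := by
  induction h with
  | refl => exact Relation.ReflTransGen.refl
  | tail _ hs ih => exact ih.tail (hs.shift c)

theorem symm_all {p q : Vtx × Bool} (h : Relation.ReflTransGen (Adj2 φ G) p q) :
    Relation.ReflTransGen (Adj2 φ G) q p := by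
  induction h with
  | refl => exact Relation.ReflTransGen.refl
  | tail _ hs ih => exact Relation.ReflTransGen.head hs.symm ih

theorem PR.trans (h : PR φ G u v b) (h' : PR φ G v w c) : PR φ G u w (xor b c) := by
  have h2 := shift_all h' b
  simp only [Bool.xor_false] at h2
  exact Relation.ReflTransGen.trans h h2

theorem PR.symm (h : PR φ G u v b) : PR φ G v u b := by
  have h2 := shift_all (symm_all h) b
  simp only [Bool.xor_false, Bool.xor_self] at h2
  exact h2

theorem PR.mono (hGH : G ⊆ H) (h : PR φ G u v b) : PR φ H u v b := by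
  unfold PR at h ⊢
  generalize hp : ((u, false) : Vtx × Bool) = p at h ⊢
  generalize hq : (v, b) = q at h ⊢
  clear hp hq
  induction h with
  | refl => exact Relation.ReflTransGen.refl
  | tail _ hs ih =>
    obtain ⟨e, he, h1⟩ := hs
    exact ih.tail ⟨e, hGH he, h1⟩

theorem PR.reach (h : PR φ G u v b) : Reach G u v := by
  have key : ∀ p q : Vtx × Bool, Relation.ReflTransGen (Adj2 φ G) p q → Reach G p.1 q.1 := by
    intro p q h
    induction h with
    | refl => exact Relation.ReflTransGen.refl
    | tail _ hs ih =>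
      obtain ⟨e, he, h1, -⟩ := hs
      exact ih.tail ⟨e, he, h1⟩
  exact key _ _ h

theorem PR.tail' (h : PR φ G u v b) {e : Edg} (he : e ∈ G)
    (hc : (src e = v ∧ tgt e = w) ∨ (src e = w ∧ tgt e = v)) : PR φ G u w (xor b (φ e)) :=
  Relation.ReflTransGen.tail h ⟨e, he, hc, rfl⟩

theorem exists_PR (φ : Edg → Bool) (h : Reach G u v) : ∃ b, PR φ G u v b := by
  induction h with
  | refl => exact ⟨false, PR.refl⟩
  | tail _ hs ih =>
    obtain ⟨b, hb⟩ := ih
    obtain ⟨e, he, hc⟩ := hs
    exact ⟨_, hb.tail' he hc⟩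

theorem bx1 (x y z w t : Bool) : xor (xor x y) (xor z w) = xor (xor x (xor z t)) (xor y (xor t w)) := by
  revert x y z w t
  decide

theorem bx2 (x y z w t : Bool) : xor (xor x y) (xor z w) = xor (xor x (xor z t)) (xor y (xor w t)) := by
  revert x y z w t
  decide

/-- Change of the parity function by a coboundary. -/
theorem PR.change (A : Vtx → Bool) (h : PR φ G u v b)
    (hA : ∀ e ∈ G, ψ e = xor (φ e) (xor (A (src e)) (A (tgt e)))) :
    PR ψ G u v (xor b (xor (A u) (A v))) := by
  have key : ∀ q : Vtx × Bool, Relation.ReflTransGen (Adj2 φ G) (u, false) q →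
      PR ψ G u q.1 (xor q.2 (xor (A u) (A q.1))) := by
    intro q h
    induction h with
    | refl =>
      simp only [Bool.xor_self]
      exact PR.refl
    | @tail p q _ hs ih =>
      obtain ⟨e, he, h1, h2⟩ := hs
      have h3 := ih.tail' (w := q.1) he h1
      convert h3 using 1
      rw [h2, hA e he]
      rcases h1 with ⟨h4, h5⟩ | ⟨h4, h5⟩
      · rw [h4, h5]
        exact bx1 _ _ _ _ _
      · rw [h4, h5]
        exact bx2 _ _ _ _ _
  exact key _ h

theorem PR_false (h : PR (fun _ => false) G u v b) : b = false := by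
  have key : ∀ q : Vtx × Bool, Relation.ReflTransGen (Adj2 (fun _ => false) G) (u, false) q →
      q.2 = false := by
    intro q h
    induction h with
    | refl => rfl
    | tail _ hs ih =>
      obtain ⟨e, he, h1, h2⟩ := hs
      rw [h2, ih]
      rfl
  exact key _ h

/-- The parity of a walk on which the parity function is a coboundary. -/
theorem PR.cob (A : Vtx → Bool) (h : PR φ G u v b)
    (hA : ∀ e ∈ G, φ e = xor (A (src e)) (A (tgt e))) : b = xor (A u) (A v) := by
  have h2 := PR_false (h.change (ψ := fun _ => false) A (by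
    intro e he
    rw [hA e he, Bool.xor_self]))
  revert h2
  generalize A u = x1
  generalize A v = x2
  cases b <;> cases x1 <;> cases x2 <;> simp

/-- If the cluster of `(v, 0)` does not reach distance `r`, then the walk stays in the half-box. -/
theorem stay {z r : ℤ} (hr : 0 ≤ r)
    (hno : ∀ u, onH z 0 r u → ¬ Reach (G ∩ ↑(HB z r)) (z, 0) u)
    (h : PR φ (G ∩ up) (z, 0) w b) : PR φ (G ∩ ↑(HB z r)) (z, 0) w b := by
  have key : ∀ q : Vtx × Bool, Relation.ReflTransGen (Adj2 φ (G ∩ up)) ((z, 0), false) q →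
      PR φ (G ∩ ↑(HB z r)) (z, 0) q.1 q.2 := by
    intro q h
    induction h with
    | refl => exact PR.refl
    | @tail p q _ hs ih =>
      obtain ⟨e, ⟨he, hup⟩, h1, h2⟩ := hs
      have hin : inR (z - r) (z + r) 0 (0 + r) p.1 := by
        refine reach_inR (G := G) (u := (z, 0)) ⟨⟨?_, ?_⟩, ?_, ?_⟩ ih.reach <;> simp only <;> omega
      have hnot : ¬ onH z 0 r p.1 := fun h3 => hno _ h3 ih.reach
      have heb : e ∈ HB z r := by
        obtain ⟨⟨⟨i1, i2⟩, i3, i4⟩⟩ := And.intro hin trivial
        unfold onH at hnot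
        push Not at hnot
        obtain ⟨n1, n2, n3⟩ := hnot
        have hup' : 0 ≤ e.2.1 := hup
        obtain ⟨x, y, _ | _⟩ := e
        · rw [mem_RE_false]
          simp only [src_mk, tgt_false, Prod.ext_iff] at h1
          simp only at hup'
          omega
        · rw [mem_RE_true]
          simp only [src_mk, tgt_true, Prod.ext_iff] at h1
          simp only at hup'
          omega
      rw [h2]
      exact ih.tail' ⟨he, heb⟩ h1
  exact key _ h

end Pool.Agent.U167.LP
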