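import Pool.Agent.U167.LP.Low

/-!
Lower bounds for the tails of the left-passage probabilities.
-/

set_option maxHeartbeats 1000000

namespace Pool.Agent.U167.LP

open H974 H731C H985LC Finset Pool.Agent.U167.HP MeasureTheory

/-- A connection between the inside and the outside of an arch meets the arch. -/
theorem arm_foot {G : Set Edg} {z t r s s' fr fr' fl fl' xi xo A B D : ℤ} (hr : 1 ≤ r)
    (hfr : z + r ≤ fr ∧ fr ≤ z + 3 * r) (hfl : z - 3 * r ≤ fl ∧ fl ≤ z - r)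
    (hT : Reach (G ∩ ↑(RE (z - 3 * r) (z + 3 * r) (t + r) (t + 3 * r))) (z - 3 * r, s)
      (z + 3 * r, s'))
    (hR : Reach (G ∩ ↑(RE (z + r) (z + 3 * r) t (t + 3 * r))) (fr, t) (fr', t + 3 * r))
    (hL : Reach (G ∩ ↑(RE (z - 3 * r) (z - r) t (t + 3 * r))) (fl, t) (fl', t + 3 * r))
    (hi : z - r ≤ xi ∧ xi ≤ z + r) (ho : xo ≤ z - 3 * r ∨ z + 3 * r ≤ xo)
    (hAB : A ≤ xi ∧ xi ≤ B) (hD : t ≤ D)
    (h : Reach (G ∩ ↑(RE A B t D)) (xi, t) (xo, t)) : Reach G (xi, t) (fl, t) := by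
  obtain ⟨w, hw1, hw2, hw3⟩ := first_exit (a := z - 3 * r) (b := z + 3 * r) (c := t - 1)
    (d := t + 3 * r) (u := (xi, t)) (v := (xo, t)) (G := G ∩ ↑(RE A B t D))
    (by unfold inR; simp only; omega) h (by simp only; omega)
  have hw4 : inR A B t D w := by
    refine reach_inR (G := G) (u := (xi, t)) (by unfold inR; simp only; omega) (hw3.mono ?_)
    exact Set.inter_subset_left
  have hw5 : Reach (G ∩ ↑(RE (z - 3 * r) (z + 3 * r) t (t + 3 * r))) (xi, t) w := by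
    refine hw3.mono ?_
    rintro ⟨x, y, _ | _⟩ ⟨⟨e1, e2⟩, e3⟩
    · refine ⟨e1, ?_⟩
      rw [mem_coe, mem_RE_false] at e2 e3 ⊢
      omega
    · refine ⟨e1, ?_⟩
      rw [mem_coe, mem_RE_true] at e2 e3 ⊢
      omega
  have := half_meet hr hfr hfl hT hR hL (xi, t) w (by unfold inR; simp only; omega) (by
    unfold onH
    unfold inR at hw4
    omega) hw5
  exact this.1.mono Set.inter_subset_left

/-- The closed loop made of an arch and of a crossing below the face. -/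
theorem loop_geo {F : Finset Edg} {x y r v m s s' fr fr' fl fl' u u' : ℤ} (hv : 0 ≤ v)
    (hm : v < m) (hmy : m < y) (hyr : y < r)
    (hs : r ≤ s ∧ s ≤ 3 * r)
    (hfr : x + r ≤ fr ∧ fr ≤ x + 3 * r) (hfl : x - 3 * r ≤ fl ∧ fl ≤ x - r)
    (hT : Reach (↑F ∩ ↑(LRE (x - 3 * r) (x + 3 * r) r (3 * r))) (x - 3 * r, s)
      (x + 3 * r, s'))
    (hR : Reach (↑F ∩ ↑(TBE (x + r) (x + 3 * r) 0 (3 * r))) (fr, 0) (fr', 3 * r))
    (hL : Reach (↑F ∩ ↑(TBE (x - 3 * r) (x - r) 0 (3 * r))) (fl, 0) (fl', 3 * r))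
    (hB : Reach (↑F ∩ ↑(LRE (x - 3 * r) (x + 3 * r) v m)) (x - 3 * r, u) (x + 3 * r, u')) :
    PR (cr (x, y)) (↑F ∩ up) (fl, 0) (fl, 0) true := by
  obtain ⟨F1, hF1⟩ : ∃ F1 : Set Edg, F1 = ↑F ∩ (↑(TBE (x - 3 * r) (x - r) 0 (3 * r)) ∪
    (↑(LRE (x - 3 * r) (x + 3 * r) r (3 * r)) ∪ ↑(TBE (x + r) (x + 3 * r) 0 (3 * r)))) :=
    ⟨_, rfl⟩
  obtain ⟨F2, hF2⟩ : ∃ F2 : Set Edg, F2 = ↑F ∩ (↑(TBE (x - 3 * r) (x - r) 0 (3 * r)) ∪
    (↑(LRE (x - 3 * r) (x + 3 * r) v m) ∪ ↑(TBE (x + r) (x + 3 * r) 0 (3 * r)))) :=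
    ⟨_, rfl⟩
  have toRE1 : ∀ {G : Set Edg} {a b c d : ℤ} {p q : Vtx}, (↑F ∩ ↑(LRE a b c d) : Set Edg) ⊆ G →
      Reach (↑F ∩ ↑(LRE a b c d)) p q → Reach (G ∩ ↑(RE a b c d)) p q := by
    intro G a b c d p q hG h
    refine h.mono ?_
    intro e he
    exact ⟨hG he, Finset.mem_coe.mpr (LRE_subset_RE (Finset.mem_coe.mp he.2))⟩
  have toRE2 : ∀ {G : Set Edg} {a b c d : ℤ} {p q : Vtx}, (↑F ∩ ↑(TBE a b c d) : Set Edg) ⊆ G →
      Reach (↑F ∩ ↑(TBE a b c d)) p q → Reach (G ∩ ↑(RE a b c d)) p q := by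
    intro G a b c d p q hG h
    refine h.mono ?_
    intro e he
    exact ⟨hG he, Finset.mem_coe.mpr (TBE_subset_RE (Finset.mem_coe.mp he.2))⟩
  -- the arch
  have iT : (↑F ∩ ↑(LRE (x - 3 * r) (x + 3 * r) r (3 * r)) : Set Edg) ⊆ F1 := by
    rw [hF1]; exact fun e he => ⟨he.1, Or.inr (Or.inl he.2)⟩
  have iR : (↑F ∩ ↑(TBE (x + r) (x + 3 * r) 0 (3 * r)) : Set Edg) ⊆ F1 := by
    rw [hF1]; exact fun e he => ⟨he.1, Or.inr (Or.inr he.2)⟩
  have iL : (↑F ∩ ↑(TBE (x - 3 * r) (x - r) 0 (3 * r)) : Set Edg) ⊆ F1 := by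
    rw [hF1]; exact fun e he => ⟨he.1, Or.inl he.2⟩
  have jB : (↑F ∩ ↑(LRE (x - 3 * r) (x + 3 * r) v m) : Set Edg) ⊆ F2 := by
    rw [hF2]; exact fun e he => ⟨he.1, Or.inr (Or.inl he.2)⟩
  have jR : (↑F ∩ ↑(TBE (x + r) (x + 3 * r) 0 (3 * r)) : Set Edg) ⊆ F2 := by
    rw [hF2]; exact fun e he => ⟨he.1, Or.inr (Or.inr he.2)⟩
  have jL : (↑F ∩ ↑(TBE (x - 3 * r) (x - r) 0 (3 * r)) : Set Edg) ⊆ F2 := by
    rw [hF2]; exact fun e he => ⟨he.1, Or.inl he.2⟩
  have m1 : Reach (F1 ∩ ↑(RE (x - 3 * r) (x + 3 * r) 0 (3 * r))) (x - 3 * r, s) (fr, 0) :=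
    cross_meet (a := x + r) (b := x + 3 * r) (c := r) (d := 3 * r) (by omega) (by omega) le_rfl
      (by omega) (by omega) le_rfl (toRE1 iT hT) (by simp only; omega) le_rfl (toRE2 iR hR)
      (by simp only; omega) le_rfl
  have m2 : Reach (F1 ∩ ↑(RE (x - 3 * r) (x + 3 * r) 0 (3 * r))) (x - 3 * r, s) (fl, 0) :=
    cross_meet (a := x - 3 * r) (b := x - r) (c := r) (d := 3 * r) le_rfl (by omega) (by omega)
      (by omega) (by omega) le_rfl (toRE1 iT hT) le_rfl (by simp only; omega) (toRE2 iL hL)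
      (by simp only; omega) le_rfl
  have m3 : Reach (F2 ∩ ↑(RE (x - 3 * r) (x + 3 * r) 0 (3 * r))) (x - 3 * r, u) (fr, 0) :=
    cross_meet (a := x + r) (b := x + 3 * r) (c := v) (d := m) (by omega) (by omega) le_rfl
      (by omega) (by omega) (by omega) (toRE1 jB hB) (by simp only; omega) le_rfl (toRE2 jR hR)
      (by simp only; omega) (by simp only; omega)
  have m4 : Reach (F2 ∩ ↑(RE (x - 3 * r) (x + 3 * r) 0 (3 * r))) (x - 3 * r, u) (fl, 0) :=
    cross_meet (a := x - 3 * r) (b := x - r) (c := v) (d := m) le_rfl (by omega) (by omega)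
      (by omega) (by omega) (by omega) (toRE1 jB hB) le_rfl (by simp only; omega) (toRE2 jL hL)
      (by simp only; omega) (by simp only; omega)
  have k1 : Reach F1 (fl, 0) (fr, 0) :=
    (m2.mono Set.inter_subset_left).symm.trans (m1.mono Set.inter_subset_left)
  have k2 : Reach F2 (fl, 0) (fr, 0) :=
    (m4.mono Set.inter_subset_left).symm.trans (m3.mono Set.inter_subset_left)
  obtain ⟨b1, hb1⟩ := exists_PR (cr (x, y)) k1
  obtain ⟨b2, hb2⟩ := exists_PR (cr (x, y)) k2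
  have c1 := hb1.cob (fun u => decide (u.2 ≤ y ∧ x < u.1)) (by
    rw [hF1]
    rintro ⟨p, q, _ | _⟩ ⟨-, he⟩
    · simp only [Set.mem_union, mem_coe, mem_LRE_false, mem_TBE_false] at he
      rw [cr_false, src_mk, tgt_false]
      simp only
      by_cases h1 : x < p
      · have e1 : (q = y) = (q ≤ y ∧ ¬ q + 1 ≤ y) := by
          rw [eq_iff_iff]; omega
        by_cases h2 : q ≤ y <;> by_cases h3 : q + 1 ≤ y <;> simp [h1, h2, h3, e1]
        omega
      · simp [h1]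
    · simp only [Set.mem_union, mem_coe, mem_LRE_true, mem_TBE_true] at he
      rw [cr_true, src_mk, tgt_true]
      simp only
      by_cases h1 : q ≤ y
      · have e1 : (x < p) = (x < p + 1) := by
          rw [eq_iff_iff]; omega
        simp [h1, e1]
      · simp [h1])
  have c2 := hb2.cob (fun u => decide (y < u.2 ∧ x < u.1)) (by
    rw [hF2]
    rintro ⟨p, q, _ | _⟩ ⟨-, he⟩
    · simp only [Set.mem_union, mem_coe, mem_LRE_false, mem_TBE_false] at he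
      rw [cr_false, src_mk, tgt_false]
      simp only
      by_cases h1 : x < p
      · have e1 : (q = y) = (y < q + 1 ∧ ¬ y < q) := by
          rw [eq_iff_iff]; omega
        by_cases h2 : y < q <;> by_cases h3 : y < q + 1 <;> simp [h1, h2, h3, e1]
        omega
      · simp [h1]
    · simp only [Set.mem_union, mem_coe, mem_LRE_true, mem_TBE_true] at he
      rw [cr_true, src_mk, tgt_true]
      simp only
      by_cases h1 : y < q
      · have e1 : (x < p) = (x < p + 1) := by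
          rw [eq_iff_iff]; omega
        simp [h1, e1]
      · simp [h1])
  have n1 : ¬ ((0:ℤ) ≤ y ∧ x < fl) := by omega
  have n2 : ((0:ℤ) ≤ y ∧ x < fr) := by omega
  have n3 : ¬ (y < (0:ℤ) ∧ x < fl) := by omega
  have n4 : ¬ (y < (0:ℤ) ∧ x < fr) := by omega
  have t1 : b1 = true := by
    rw [c1]
    show xor (decide ((0:ℤ) ≤ y ∧ x < fl)) (decide ((0:ℤ) ≤ y ∧ x < fr)) = true
    rw [decide_eq_false n1, decide_eq_true n2]
    rfl
  have t2 : b2 = false := by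
    rw [c2]
    show xor (decide (y < (0:ℤ) ∧ x < fl)) (decide (y < (0:ℤ) ∧ x < fr)) = false
    rw [decide_eq_false n3, decide_eq_false n4]
    rfl
  subst t1 t2
  have up1 : F1 ⊆ ↑F ∩ up := by
    rw [hF1]
    rintro ⟨p, q, _ | _⟩ ⟨he1, he⟩
    · simp only [Set.mem_union, mem_coe, mem_LRE_false, mem_TBE_false] at he
      exact ⟨he1, by show 0 ≤ q; omega⟩
    · simp only [Set.mem_union, mem_coe, mem_LRE_true, mem_TBE_true] at he
      exact ⟨he1, by show 0 ≤ q; omega⟩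
  have up2 : F2 ⊆ ↑F ∩ up := by
    rw [hF2]
    rintro ⟨p, q, _ | _⟩ ⟨he1, he⟩
    · simp only [Set.mem_union, mem_coe, mem_LRE_false, mem_TBE_false] at he
      exact ⟨he1, by show 0 ≤ q; omega⟩
    · simp only [Set.mem_union, mem_coe, mem_LRE_true, mem_TBE_true] at he
      exact ⟨he1, by show 0 ≤ q; omega⟩
  have := (hb1.mono up1).trans (hb2.mono up2).symm
  simpa using this

/-- The three events for the lower tail: the connection, the arch and the crossing. -/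
def XHL (a b c d A B t D z r v m : ℤ) (F : Finset Edg) : Prop :=
  XC a b c d A B t D F ∧ (HC z t r F ∧ LRc (z - 3 * r) (z + 3 * r) v (v + m) F)

theorem XHL_incr (S : Finset Edg) (a b c d A B t D z r v m : ℤ) :
    IncrE S (XHL a b c d A B t D z r v m) := by
  intro F G h hG hF
  exact ⟨XC_incr S _ _ _ _ _ _ _ _ F G h hG hF.1, HC_incr S _ _ _ F G h hG hF.2.1,
    hF.2.2.mono h⟩

theorem pr_XHL : ∃ c : ℝ, 0 < c ∧ ∀ a b c' d t A B D z r v m : ℤ, ∀ K : ℕ, a ≤ b → b < c' →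
    c' ≤ d → A ≤ a - 10 * (d - a + 1) → a + 10 * (d - a + 1) ≤ B → t + 10 * (d - a + 1) ≤ D →
    1 ≤ r → A ≤ z - 3 * r → z + 3 * r ≤ B → t + 3 * r ≤ D → 1 ≤ m → 6 * r ≤ K * m → t < v →
    v + m ≤ D → ∀ S : Finset Edg, VE A B t D ⊆ S →
    c * ((((b - a + 1 : ℤ) : ℝ) * ((d - c' + 1 : ℤ) : ℝ)) / ((d - a + 1 : ℤ) : ℝ) ^ 2)
        ^ ((1 : ℝ) / 3) * (1/2 : ℝ) ^ (48 * (K + 1)) ≤
      P2 S (XHL a b c' d A B t D z r v m) := by
  obtain ⟨c, hc, hX⟩ := XC_lower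
  refine ⟨c * (1/2 : ℝ) ^ 141, by positivity, ?_⟩
  intro a b c' d t A B D z r v m K hab hbc hcd hA hB hD hr h1 h2 h3 hm hK hv hvD S hS
  have e1 := hX a b c' d t A B D hab hbc hcd hA hB hD S hS
  have e2 := pr_HC (z := z) (t := t) hr (S := S) ((VE_mono (by omega) (by omega) (by omega)).trans hS)
  have s3 : LRE (z - 3 * r) (z + 3 * r) v (v + m) ⊆ S := by
    refine Finset.Subset.trans (LRE_subset_VE hv) ?_
    exact (VE_mono (by omega) (by omega) (by omega)).trans hS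
  have e3 : (1/2 : ℝ) ^ (48 * (K + 1)) ≤ P2 S (LRc (z - 3 * r) (z + 3 * r) v (v + m)) := by
    have := pr_LRc (1/2) s3
    unfold P2
    rw [this, show v + m - v = m by ring]
    exact TUaux.hh_gen K hm (by omega) (by omega)
  have i1 := XC_incr S a b c' d A B t D
  have i2 := HC_incr S z t r
  have i3 := LRc_incr S (z - 3 * r) (z + 3 * r) v (v + m)
  have j2 := Pr_harris okhalf2 i2 i3
  have j1 := Pr_harris okhalf2 i1 (B := fun F => HC z t r F ∧
    LRc (z - 3 * r) (z + 3 * r) v (v + m) F) (fun F G h hG hF => ⟨i2 F G h hG hF.1,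
      i3 F G h hG hF.2⟩)
  have hd0 : (0:ℝ) < ((d - a + 1 : ℤ) : ℝ) := by exact_mod_cast (by omega : 0 < d - a + 1)
  have hba : (0:ℝ) < ((b - a + 1 : ℤ) : ℝ) := by exact_mod_cast (by omega : 0 < b - a + 1)
  have hdc : (0:ℝ) < ((d - c' + 1 : ℤ) : ℝ) := by exact_mod_cast (by omega : 0 < d - c' + 1)
  unfold P2 at e1 e2 e3
  have k2 : (1/2 : ℝ) ^ 141 * (1/2 : ℝ) ^ (48 * (K + 1)) ≤ _ :=
    (mul_le_mul e2 e3 (by positivity) ((by positivity : (0:ℝ) ≤ _).trans e2)).trans j2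
  have k1 := (mul_le_mul e1 k2 (by positivity) ((by positivity : (0:ℝ) ≤ _).trans e1)).trans j1
  unfold P2
  refine le_trans (le_of_eq ?_) k1
  ring

end Pool.Agent.U167.LP
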