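import Pool.Agent.U167.LP.Tail
import Pool.Agent.U167.LP.Bdry

/-!
Lower bounds for the tails of the left-passage probabilities.
-/

set_option maxHeartbeats 1000000

namespace Pool.Agent.U167.LP

open H974 H731C H985LC Finset Pool.Agent.U167.HP MeasureTheory

theorem rt_compare {x y r : ℤ} (hy : 1 ≤ y) (hr : y ≤ r) (hx : 0 < x) (hrx : r ≤ x) :
    (1 / 32 : ℝ) * ((y : ℝ) / (x + y)) ^ ((1 : ℝ) / 3) ≤
      ((((0 - -x + 1 : ℤ) : ℝ) * ((x + r - (x - r) + 1 : ℤ) : ℝ)) /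
        ((x + r - -x + 1 : ℤ) : ℝ) ^ 2) ^ ((1 : ℝ) / 3) := by
  have hx0 : (1:ℝ) ≤ x := by exact_mod_cast hx
  have hy0 : (1:ℝ) ≤ y := by exact_mod_cast hy
  have hr0 : (y:ℝ) ≤ r := by exact_mod_cast hr
  have hrx0 : (r:ℝ) ≤ x := by exact_mod_cast hrx
  have e1 : (1 / 32 : ℝ) ≤ (1 / 32 : ℝ) ^ ((1 : ℝ) / 3) := by
    conv_lhs => rw [← Real.rpow_one (1 / 32 : ℝ)]
    exact Real.rpow_le_rpow_of_exponent_ge (by norm_num) (by norm_num) (by norm_num)
  have e2 : 0 ≤ ((y : ℝ) / (x + y)) ^ ((1 : ℝ) / 3) := by positivity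
  calc (1 / 32 : ℝ) * ((y : ℝ) / (x + y)) ^ ((1 : ℝ) / 3)
      ≤ (1 / 32 : ℝ) ^ ((1 : ℝ) / 3) * ((y : ℝ) / (x + y)) ^ ((1 : ℝ) / 3) := by gcongr
    _ = (1 / 32 * ((y : ℝ) / (x + y))) ^ ((1 : ℝ) / 3) :=
        (Real.mul_rpow (by norm_num) (by positivity)).symm
    _ ≤ _ := by
        apply Real.rpow_le_rpow (by positivity) _ (by norm_num)
        push_cast
        rw [mul_div_assoc', div_le_div_iff₀ (by positivity) (by nlinarith)]
        have h1 : ((x:ℝ) + r - -x + 1) ^ 2 ≤ (4 * x) ^ 2 := by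
          apply pow_le_pow_left₀ (by linarith)
          linarith
        have h2 : (x:ℝ) * (2 * y) ≤ (0 - -(x:ℝ) + 1) * (x + r - (x - r) + 1) := by nlinarith
        have h3 : (0:ℝ) ≤ (0 - -(x:ℝ) + 1) * (x + r - (x - r) + 1) :=
          (by positivity : (0:ℝ) ≤ (x:ℝ) * (2 * y)).trans h2
        calc 1 / 32 * (y:ℝ) * ((x:ℝ) + r - -x + 1) ^ 2 ≤ 1 / 32 * (y:ℝ) * (4 * (x:ℝ)) ^ 2 := by
              gcongr
          _ = (x:ℝ) * (2 * y) * ((x:ℝ) / 4) := by ring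
          _ ≤ (0 - -(x:ℝ) + 1) * (x + r - (x - r) + 1) * (x + y) := by
              apply mul_le_mul h2 (by linarith) (by positivity) h3

/-- The lower bound for the upper tail, away from the boundary. -/
theorem sp_lower_far : ∃ c : ℝ, 0 < c ∧ ∀ x y : ℤ, 4 ≤ y → 24 * y ≤ x →
    c * ((y : ℝ) / (x + y)) ^ ((1 : ℝ) / 3) ≤ sp x y := by
  obtain ⟨c, hc, hX⟩ := pr_XHL
  refine ⟨c * (1 / 32 : ℝ) * (1/2 : ℝ) ^ (48 * (48 + 1)), by positivity, ?_⟩
  intro x y hy hx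
  obtain ⟨N, hN⟩ : ∃ N, N = 40 * x + 40 := ⟨_, rfl⟩
  have hVS : VE (-N) N 0 N ⊆ RE (-N) N 0 N := VE_subset_RE
  have key := hX (-x) 0 (x - 2 * y) (x + 2 * y) 0 (-N) N N x (2 * y) 1 (y - 3) 48 (by omega)
    (by omega) (by omega) (by omega) (by omega) (by omega) (by omega) (by omega) (by omega)
    (by omega) (by omega) (by push_cast; omega) (by omega) (by omega) _ hVS
  have cmp := rt_compare (x := x) (y := y) (r := 2 * y) (by omega) (by omega) (by omega) (by omega)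
  rw [← real_event] at key
  have hsub : {ω | XHL (-x) 0 (x - 2 * y) (x + 2 * y) (-N) N 0 N x (2 * y) 1 (y - 3)
      (FF (RE (-N) N 0 N) ω)} ⊆ LE 0 (x, y) := by
    rintro ω ⟨⟨p, q, hp, hq, hpq⟩, ⟨⟨s, s', hs, hs', hT⟩, ⟨fr, fr', hr1, hr2, hR⟩,
      ⟨fl, fl', hl1, hl2, hL⟩⟩, ⟨u, u', hu, hu', hB⟩⟩
    obtain ⟨F, hF⟩ : ∃ F, F = FF (RE (-N) N 0 N) ω := ⟨_, rfl⟩
    rw [← hF] at hpq hT hR hL hB
    simp only [zero_add] at hT hR hL hs hs'
    have hq2 : Reach ((↑F : Set Edg) ∩ ↑(RE (-N) N 0 N)) (q, 0) (p, 0) :=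
      (hpq.mono (Set.inter_subset_inter_right _ (by exact_mod_cast VE_subset_RE))).symm
    have foot := arm_foot (G := (↑F : Set Edg)) (z := x) (t := 0) (r := 2 * y) (s := s) (s' := s')
      (fr := fr) (fr' := fr') (fl := fl) (fl' := fl') (xi := q) (xo := p) (A := -N) (B := N)
      (D := N) (by omega) hr1 hl1
      (by
        simp only [zero_add]
        exact hT.mono (Set.inter_subset_inter_right _ (by exact_mod_cast LRE_subset_RE)))
      (by
        simp only [zero_add]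
        exact hR.mono (Set.inter_subset_inter_right _ (by exact_mod_cast TBE_subset_RE)))
      (by
        simp only [zero_add]
        exact hL.mono (Set.inter_subset_inter_right _ (by exact_mod_cast TBE_subset_RE)))
      (by omega) (by omega) (by omega) (by omega) hq2
    have loop := loop_geo (F := F) (x := x) (y := y) (r := 2 * y) (v := 1) (m := 1 + (y - 3))
      (by omega) (by omega) (by omega) (by omega) hs hr1 hl1 hT hR hL hB
    have hup : (↑F : Set Edg) ∩ up ⊆ opn ω ∩ up := by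
      rw [hF]
      rintro e ⟨e1, e2⟩
      exact ⟨(mem_FF.mp (Finset.mem_coe.mp e1)).2, e2⟩
    have hup2 : (↑F : Set Edg) ⊆ opn ω ∩ up := by
      intro e e1
      rw [hF] at e1
      have := mem_FF.mp (Finset.mem_coe.mp e1)
      refine ⟨this.2, ?_⟩
      exact (RE_ends this.1).1.2.1
    have path : Reach (opn ω ∩ up) (p, 0) (fl, 0) :=
      ((hq2.symm.mono Set.inter_subset_left).trans foot).mono hup2
    obtain ⟨b, hb⟩ := exists_PR (cr (x, y)) path
    refine ⟨p, p, hp.2, hp.2, ?_⟩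
    have := (hb.trans (loop.mono hup)).trans hb.symm
    have e : xor (xor b true) b = true := by cases b <;> rfl
    rw [e] at this
    exact this
  have h2 := measureReal_mono hsub (measure_ne_top (bondLaw half) _)
  refine le_trans ?_ (key.trans h2)
  calc c * (1 / 32 : ℝ) * (1/2 : ℝ) ^ (48 * (48 + 1)) * ((y : ℝ) / (x + y)) ^ ((1 : ℝ) / 3)
      = c * ((1 / 32 : ℝ) * ((y : ℝ) / (x + y)) ^ ((1 : ℝ) / 3)) *
        (1/2 : ℝ) ^ (48 * (48 + 1)) := by ring
    _ ≤ _ := by gcongr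

end Pool.Agent.U167.LP
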